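import Pool.Agent.W130.RC.Defs

/-!
# Multigraphs, reduced walks and the quotients of the Green function
-/

set_option autoImplicit false

namespace Pool.Agent.W130.RC

variable {V D : Type} [Fintype D] [DecidableEq D] [DecidableEq V]

instance (G : MGraph V D) (v : V) (f : D) (p : List D) : Decidable (G.ok v f p) := by
  cases p <;> (unfold MGraph.ok; infer_instance)

/-- lists of length at most `k` -/
def Ls (D : Type) [Fintype D] [DecidableEq D] : ℕ → Finset (List D)
  | 0 => {[]}
  | k + 1 => insert [] ((Finset.univ ×ˢ Ls D k).image (fun x : D × List D => x.1 :: x.2))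

lemma sum_Ls_succ (k : ℕ) (F : List D → ℝ) :
    ∑ q ∈ Ls D (k + 1), F q = F [] + ∑ f : D, ∑ p ∈ Ls D k, F (f :: p) := by
  rw [Ls, Finset.sum_insert, Finset.sum_image, Finset.sum_product]
  · intro x _ y _ h
    simp only [List.cons.injEq] at h
    exact Prod.ext h.1 h.2
  · simp

lemma mem_Ls (k : ℕ) : ∀ q : List D, q ∈ Ls D k ↔ q.length ≤ k := by
  induction k with
  | zero => intro q; simp [Ls]
  | succ k ih =>
    intro q
    rw [Ls]
    cases q with
    | nil => simp
    | cons f p => simp [ih]

/-- Rayleigh quotient bound for the tree of non-backtracking walks from `v` -/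
def MGraph.RB (G : MGraph V D) (v : V) (ρ : ℝ) : Prop :=
  ∀ (k : ℕ) (φ : List D → ℝ), (∀ q, ¬ G.Red v q → φ q = 0) →
    2 * ∑ f : D, ∑ p ∈ Ls D k, φ (f :: p) * φ p ≤ ρ * ∑ q ∈ Ls D (k + 1), φ q ^ 2

/-- quotients of the Green function of truncated branches -/
noncomputable def MGraph.gr (G : MGraph V D) (x : ℝ) : ℕ → D → ℝ
  | 0, _ => 0
  | m + 1, f => 1 / (x - ∑ f' ∈ Finset.univ.filter (fun f' => G.src f' = G.tgt f ∧ f' ≠ G.rev f),
      MGraph.gr G x m f')

/-- the test function -/
noncomputable def MGraph.phi (G : MGraph V D) (x : ℝ) (v : V) (k : ℕ) : List D → ℝ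
  | [] => 1
  | f :: p => if G.ok v f p then G.gr x (k - p.length) f * MGraph.phi G x v k p else 0

variable (G : MGraph V D)

lemma phi_not_red (x : ℝ) (v : V) (k : ℕ) : ∀ q, ¬ G.Red v q → G.phi x v k q = 0 := by
  intro q
  induction q with
  | nil => intro h; exact absurd trivial h
  | cons f p ih =>
    intro h
    rw [MGraph.phi]
    by_cases hok : G.ok v f p
    · rw [if_pos hok]
      have : ¬ G.Red v p := fun hp => h ⟨hok, hp⟩
      rw [ih this, mul_zero]
    · rw [if_neg hok]

lemma phi_long (x : ℝ) (v : V) (k : ℕ) (q : List D) (h : k < q.length) :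
    G.phi x v k q = 0 := by
  cases q with
  | nil => simp at h
  | cons f p =>
    rw [MGraph.phi]
    have : k - p.length = 0 := by simp at h; omega
    rw [this]
    split_ifs <;> simp [MGraph.gr]

lemma sum_ok (x : ℝ) (m : ℕ) (v : V) (f : D) (p : List D) :
    ∑ f' : D, (if G.ok v f' (f :: p) then G.gr x m f' else 0)
      = ∑ f' ∈ Finset.univ.filter (fun f' => G.src f' = G.tgt f ∧ f' ≠ G.rev f), G.gr x m f' := by
  rw [Finset.sum_filter]
  apply Finset.sum_congr rfl
  intro f' _
  rfl

/-- positivity of all the Green function quotients above the spectral radius -/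
theorem gr_pos (ρ x : ℝ) (hx : ρ < x) (hRB : ∀ v, G.RB v ρ) : ∀ k,
    (∀ f, 0 ≤ G.gr x k f) ∧
      (∀ v, x - ρ ≤ x - ∑ f ∈ Finset.univ.filter (fun f => G.src f = v), G.gr x k f) := by
  intro k
  induction k using Nat.strong_induction_on with
  | _ k ih =>
  have hden : ∀ j < k, ∀ f, 0 < x - ∑ f' ∈ Finset.univ.filter
      (fun f' => G.src f' = G.tgt f ∧ f' ≠ G.rev f), G.gr x j f' := by
    intro j hj f
    have h1 := (ih j hj).2 (G.tgt f)
    have h2 : ∑ f' ∈ Finset.univ.filter
      (fun f' => G.src f' = G.tgt f ∧ f' ≠ G.rev f), G.gr x j f'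
        ≤ ∑ f' ∈ Finset.univ.filter (fun f' => G.src f' = G.tgt f), G.gr x j f' := by
      apply Finset.sum_le_sum_of_subset_of_nonneg
      · intro f' hf'
        simp only [Finset.mem_filter, Finset.mem_univ, true_and] at hf' ⊢
        exact hf'.1
      · intro f' _ _
        exact (ih j hj).1 f'
    linarith
  have hnn : ∀ f, 0 ≤ G.gr x k f := by
    intro f
    cases k with
    | zero => simp [MGraph.gr]
    | succ j =>
      rw [MGraph.gr]
      exact div_nonneg zero_le_one (hden j (Nat.lt_succ_self j) f).le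
  refine ⟨hnn, ?_⟩
  intro v
  set φ := G.phi x v k with hφ
  have hR := hRB v k φ (phi_not_red G x v k)
  -- energy of one vertex
  have hE : ∀ (f : D) (p : List D), x * φ (f :: p) ^ 2 - φ (f :: p) * φ p
      - ∑ f', φ (f' :: f :: p) * φ (f :: p) = 0 := by
    intro f p
    by_cases h0 : φ (f :: p) = 0
    · rw [h0]; simp
    have hlen : (f :: p).length ≤ k := by
      by_contra hc
      exact h0 (phi_long G x v k _ (by omega))
    have hlen' : p.length + 1 ≤ k := by simpa using hlen
    have hok : G.ok v f p := by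
      by_contra hc
      apply h0
      rw [hφ, MGraph.phi, if_neg hc]
    have e1 : φ (f :: p) = G.gr x (k - p.length) f * φ p := by
      rw [hφ, MGraph.phi, if_pos hok]
    have e2 : ∑ f', φ (f' :: f :: p) * φ (f :: p)
        = (∑ f' ∈ Finset.univ.filter (fun f' => G.src f' = G.tgt f ∧ f' ≠ G.rev f),
          G.gr x (k - p.length - 1) f') * φ (f :: p) * φ (f :: p) := by
      rw [← sum_ok G x (k - p.length - 1) v f p, Finset.sum_mul, Finset.sum_mul]
      apply Finset.sum_congr rfl
      intro f' _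
      congr 1
      rw [hφ, MGraph.phi, List.length_cons]
      have : k - (p.length + 1) = k - p.length - 1 := by omega
      rw [this]
      split_ifs <;> simp
    have hk : k - p.length = (k - p.length - 1) + 1 := by omega
    have hd := hden (k - p.length - 1) (by omega) f
    have e3 : G.gr x (k - p.length) f * (x - ∑ f' ∈ Finset.univ.filter
        (fun f' => G.src f' = G.tgt f ∧ f' ≠ G.rev f), G.gr x (k - p.length - 1) f') = 1 := by
      conv_lhs => rw [hk]
      rw [MGraph.gr]
      simp only [Nat.add_sub_cancel]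
      field_simp
    rw [e2]
    set s := ∑ f' ∈ Finset.univ.filter (fun f' => G.src f' = G.tgt f ∧ f' ≠ G.rev f),
          G.gr x (k - p.length - 1) f'
    have e4 : φ (f :: p) * (x - s) = φ p := by
      rw [e1]
      calc G.gr x (k - p.length) f * φ p * (x - s)
          = (G.gr x (k - p.length) f * (x - s)) * φ p := by ring
        _ = φ p := by rw [e3, one_mul]
    calc x * φ (f :: p) ^ 2 - φ (f :: p) * φ p - s * φ (f :: p) * φ (f :: p)
        = φ (f :: p) * (φ (f :: p) * (x - s) - φ p) := by ring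
      _ = 0 := by rw [e4]; ring
  have hroot : φ [] = 1 := rfl
  have hsumroot : ∑ f', φ [f'] = ∑ f ∈ Finset.univ.filter (fun f => G.src f = v), G.gr x k f := by
    rw [Finset.sum_filter]
    apply Finset.sum_congr rfl
    intro f' _
    rw [hφ, MGraph.phi]
    simp only [List.length_nil, Nat.sub_zero, MGraph.phi, mul_one]
    rfl
  -- total energy
  have htot : ∑ q ∈ Ls D (k + 1), x * φ q ^ 2 - 2 * ∑ f : D, ∑ p ∈ Ls D k, φ (f :: p) * φ p
      = x - ∑ f ∈ Finset.univ.filter (fun f => G.src f = v), G.gr x k f := by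
    have s1 : ∑ f : D, ∑ p ∈ Ls D k, (x * φ (f :: p) ^ 2 - φ (f :: p) * φ p
      - ∑ f', φ (f' :: f :: p) * φ (f :: p)) = 0 := by
      apply Finset.sum_eq_zero; intro f _
      apply Finset.sum_eq_zero; intro p _
      exact hE f p
    have s2 : ∑ q ∈ Ls D (k + 1), ∑ f', φ (f' :: q) * φ q
        = ∑ f : D, ∑ p ∈ Ls D k, φ (f :: p) * φ p := by
      rw [Finset.sum_comm]
      apply Finset.sum_congr rfl
      intro f _
      symm
      apply Finset.sum_subset
      · intro q hq
        rw [mem_Ls] at hq ⊢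
        omega
      · intro q _ hq
        rw [mem_Ls] at hq
        rw [hφ, phi_long G x v k q (by omega), mul_zero]
    rw [sum_Ls_succ] at s2
    simp only [Finset.sum_sub_distrib] at s1
    rw [sum_Ls_succ]
    rw [hroot] at s2 ⊢
    simp only [mul_one] at s2
    rw [hsumroot] at s2
    linarith
  have hnorm : 1 ≤ ∑ q ∈ Ls D (k + 1), φ q ^ 2 := by
    rw [sum_Ls_succ, hroot]
    have : 0 ≤ ∑ f : D, ∑ p ∈ Ls D k, φ (f :: p) ^ 2 :=
      Finset.sum_nonneg (fun f _ => Finset.sum_nonneg (fun p _ => sq_nonneg _))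
    linarith
  rw [← htot, ← Finset.mul_sum]
  have h1 : (x - ρ) * 1 ≤ (x - ρ) * ∑ q ∈ Ls D (k + 1), φ q ^ 2 :=
    mul_le_mul_of_nonneg_left hnorm (by linarith)
  nlinarith

end Pool.Agent.W130.RC
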