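import Pool.Agent.W130.RC.Oper
import Pool.Agent.W130.RC.Tree

/-!
# Change of base point in the tree of non-backtracking walks
-/

set_option autoImplicit false

namespace Pool.Agent.W130.RC

variable {V D : Type} [Fintype D] [DecidableEq D] [DecidableEq V]

open Classical in
/-- Rayleigh quotient bound on the tree -/
def MGraph.RQ (G : MGraph V D) (v : V) (ρ : ℝ) : Prop :=
  ∀ (s : Finset (G.Tree v)) (φ : G.Tree v → ℝ),
    ∑ a ∈ s, ∑ b ∈ s, (if G.TAdj v a b then φ a * φ b else 0) ≤ ρ * ∑ a ∈ s, φ a ^ 2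

/-- change of the starting point along a dart `e`: walks from the target become walks from the
source -/
def MGraph.rr (G : MGraph V D) (e : D) : List D → List D
  | [] => [e]
  | [f] => if f = G.rev e then [] else [f, e]
  | f :: f0 :: p => f :: MGraph.rr G e (f0 :: p)

omit [Fintype D] [DecidableEq V] in
lemma rr_red (G : MGraph V D) (e : D) : ∀ q, G.Red (G.tgt e) q → G.Red (G.src e) (G.rr e q) := by
  intro q
  induction q with
  | nil => intro _; exact ⟨rfl, trivial⟩
  | cons f q ih =>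
    intro h
    cases q with
    | nil =>
      rw [MGraph.rr]
      split_ifs with hf
      · trivial
      · exact ⟨⟨h.1, hf⟩, rfl, trivial⟩
    | cons f0 p =>
      rw [MGraph.rr]
      refine ⟨?_, ih h.2⟩
      have hok : G.src f = G.tgt f0 ∧ f ≠ G.rev f0 := h.1
      cases p with
      | nil =>
        rw [MGraph.rr]
        split_ifs with hf
        · show G.src f = G.src e
          rw [hok.1, hf, MGraph.tgt, G.rev_rev]
        · exact hok
      | cons f1 p =>
        rw [MGraph.rr]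
        exact hok

omit [Fintype D] [DecidableEq V] in
lemma rr_rr (G : MGraph V D) (e : D) (v : V) : ∀ q, G.Red v q → G.rr (G.rev e) (G.rr e q) = q := by
  intro q
  induction q with
  | nil => intro _; simp [MGraph.rr, G.rev_rev]
  | cons f q ih =>
    intro h
    cases q with
    | nil =>
      by_cases hf : f = G.rev e
      · subst hf; simp [MGraph.rr]
      · simp [MGraph.rr, hf, G.rev_rev]
    | cons f0 p =>
      have hok : G.src f = G.tgt f0 ∧ f ≠ G.rev f0 := h.1
      have ih' := ih h.2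
      rw [MGraph.rr]
      cases hrr : G.rr e (f0 :: p) with
      | nil =>
        rw [hrr] at ih'
        simp only [MGraph.rr] at ih'
        have hf0 : f0 = G.rev e := by
          have := List.cons.inj ih'
          exact this.1.symm
        have hp : p = [] := by
          have := List.cons.inj ih'
          exact this.2.symm
        subst hp
        rw [MGraph.rr, if_neg, hf0]
        rw [hf0] at hok
        exact hok.2
      | cons g l =>
        rw [MGraph.rr, ← hrr, ih']

omit [Fintype D] [DecidableEq V] in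
/-- adjacency is preserved -/
lemma rr_adj (G : MGraph V D) (e f : D) (q : List D) :
    (∃ g, G.rr e (f :: q) = g :: G.rr e q) ∨ (∃ g, G.rr e q = g :: G.rr e (f :: q)) := by
  cases q with
  | nil =>
    by_cases hf : f = G.rev e
    · right
      exact ⟨e, by simp [MGraph.rr, hf]⟩
    · left
      exact ⟨f, by simp [MGraph.rr, hf]⟩
  | cons f0 p =>
    left
    exact ⟨f, by rw [MGraph.rr]⟩

/-- the change of base point as an equivalence -/
def rrEquiv (G : MGraph V D) (e : D) : G.Tree (G.tgt e) ≃ G.Tree (G.src e) where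
  toFun q := ⟨G.rr e q.1, rr_red G e q.1 q.2⟩
  invFun q := ⟨G.rr (G.rev e) q.1, by
    have h := rr_red G (G.rev e) q.1
    have h1 : G.tgt (G.rev e) = G.src e := by unfold MGraph.tgt; rw [G.rev_rev]
    rw [h1] at h
    exact h q.2⟩
  left_inv q := Subtype.ext (rr_rr G e _ q.1 q.2)
  right_inv q := by
    apply Subtype.ext
    have h := rr_rr G (G.rev e) _ q.1 q.2
    rw [G.rev_rev] at h
    exact h

omit [Fintype D] [DecidableEq V] in
lemma rrEquiv_adj (G : MGraph V D) (e : D) (a b : G.Tree (G.tgt e)) (h : G.TAdj _ a b) :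
    G.TAdj _ (rrEquiv G e a) (rrEquiv G e b) := by
  rcases h with ⟨f, hf⟩ | ⟨f, hf⟩
  · rcases rr_adj G e f a.1 with ⟨g, hg⟩ | ⟨g, hg⟩
    · left; refine ⟨g, ?_⟩
      show G.rr e b.1 = g :: G.rr e a.1
      rw [hf, hg]
    · right; refine ⟨g, ?_⟩
      show G.rr e a.1 = g :: G.rr e b.1
      rw [hf, hg]
  · rcases rr_adj G e f b.1 with ⟨g, hg⟩ | ⟨g, hg⟩
    · right; refine ⟨g, ?_⟩
      show G.rr e a.1 = g :: G.rr e b.1
      rw [hf, hg]
    · left; refine ⟨g, ?_⟩
      show G.rr e b.1 = g :: G.rr e a.1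
      rw [hf, hg]

omit [Fintype D] [DecidableEq V] in
lemma rrEquiv_adj_iff (G : MGraph V D) (e : D) (a b : G.Tree (G.tgt e)) :
    G.TAdj _ (rrEquiv G e a) (rrEquiv G e b) ↔ G.TAdj _ a b := by
  refine ⟨fun h => ?_, rrEquiv_adj G e a b⟩
  have h1 : G.tgt (G.rev e) = G.src e := by unfold MGraph.tgt; rw [G.rev_rev]
  rcases h with ⟨f, hf⟩ | ⟨f, hf⟩
  · have hf' : G.rr e b.1 = f :: G.rr e a.1 := hf
    have ea := rr_rr G e _ a.1 a.2
    have eb := rr_rr G e _ b.1 b.2
    rcases rr_adj G (G.rev e) f (G.rr e a.1) with ⟨g, hg⟩ | ⟨g, hg⟩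
    · left
      rw [← hf', ea, eb] at hg
      exact ⟨g, hg⟩
    · right
      rw [← hf', ea, eb] at hg
      exact ⟨g, hg⟩
  · have hf' : G.rr e a.1 = f :: G.rr e b.1 := hf
    have ea := rr_rr G e _ a.1 a.2
    have eb := rr_rr G e _ b.1 b.2
    rcases rr_adj G (G.rev e) f (G.rr e b.1) with ⟨g, hg⟩ | ⟨g, hg⟩
    · right
      rw [← hf', ea, eb] at hg
      exact ⟨g, hg⟩
    · left
      rw [← hf', ea, eb] at hg
      exact ⟨g, hg⟩

omit [Fintype D] [DecidableEq V] in
lemma RQ_step (G : MGraph V D) (e : D) (ρ : ℝ) (h : G.RQ (G.src e) ρ) : G.RQ (G.tgt e) ρ := by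
  classical
  intro s φ
  have h1 := h (s.map (rrEquiv G e).toEmbedding) (fun q => φ ((rrEquiv G e).symm q))
  simp only [Finset.sum_map, Equiv.coe_toEmbedding, Equiv.symm_apply_apply, rrEquiv_adj_iff] at h1
  convert h1 using 6

omit [Fintype D] [DecidableEq V] in
lemma RQ_all (G : MGraph V D) (hG : G.Connected) (v0 : V) (ρ : ℝ) (h : G.RQ v0 ρ) (v : V) :
    G.RQ v ρ := by
  induction hG v0 v with
  | refl => exact h
  | tail _ hstep ih =>
    obtain ⟨e, rfl, rfl⟩ := hstep
    exact RQ_step G e ρ ih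

omit [DecidableEq V] in
lemma RB_of_RQ (G : MGraph V D) (v : V) (ρ : ℝ) (h : G.RQ v ρ) : G.RB v ρ := by
  classical
  intro k φ hφ
  set s : Finset (G.Tree v) := (Ls D (k + 1)).subtype (G.Red v) with hs
  have h1 := h s (fun q => φ q.1)
  have hsum : ∀ F : List D → ℝ, (∀ q, ¬ G.Red v q → F q = 0) →
      ∑ a ∈ s, F a.1 = ∑ q ∈ Ls D (k + 1), F q := by
    intro F hF
    have e1 : ∑ a ∈ s, F a.1 = ∑ q ∈ (Ls D (k + 1)).filter (G.Red v), F q := by
      rw [hs, ← Finset.sum_subtype_eq_sum_filter]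
    rw [e1, Finset.sum_filter]
    apply Finset.sum_congr rfl
    intro q _
    split_ifs with hq
    · rfl
    · exact (hF q hq).symm
  have e2 : ∑ a ∈ s, φ a.1 ^ 2 = ∑ q ∈ Ls D (k + 1), φ q ^ 2 :=
    hsum (fun q => φ q ^ 2) (fun q hq => by simp [hφ q hq])
  have e3 : ∑ a ∈ s, ∑ b ∈ s, (if G.TAdj v a b then φ a.1 * φ b.1 else 0)
      = ∑ p ∈ Ls D (k + 1), ∑ q ∈ Ls D (k + 1),
        (if (∃ f, q = f :: p) ∨ (∃ f, p = f :: q) then φ p * φ q else 0) := by
    have i1 : ∀ a ∈ s, ∑ b ∈ s, (if G.TAdj v a b then φ a.1 * φ b.1 else 0)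
        = ∑ q ∈ Ls D (k + 1),
          (if (∃ f, q = f :: a.1) ∨ (∃ f, a.1 = f :: q) then φ a.1 * φ q else 0) := by
      intro a _
      refine Eq.trans ?_
        (hsum (fun q => if (∃ f, q = f :: a.1) ∨ (∃ f, a.1 = f :: q) then φ a.1 * φ q else 0)
        (fun q hq => by simp [hφ q hq]))
      apply Finset.sum_congr rfl
      intro b _
      by_cases hh : G.TAdj v a b
      · rw [if_pos hh, if_pos (show (∃ f, b.1 = f :: a.1) ∨ (∃ f, a.1 = f :: b.1) from hh)]
      · rw [if_neg hh, if_neg (show ¬ ((∃ f, b.1 = f :: a.1) ∨ (∃ f, a.1 = f :: b.1)) from hh)]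
    rw [Finset.sum_congr rfl i1]
    exact hsum (fun p => ∑ q ∈ Ls D (k + 1),
        (if (∃ f, q = f :: p) ∨ (∃ f, p = f :: q) then φ p * φ q else 0))
        (fun q hq => by simp [hφ q hq])
  have e4 : ∀ p q : List D, (if (∃ f, q = f :: p) ∨ (∃ f, p = f :: q) then φ p * φ q else 0)
      = (if (∃ f, q = f :: p) then φ p * φ q else 0)
        + (if (∃ f, p = f :: q) then φ q * φ p else 0) := by
    intro p q
    by_cases h1 : ∃ f, q = f :: p
    · have h2 : ¬ ∃ f, p = f :: q := by
        rintro ⟨f, hf⟩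
        obtain ⟨g, hg⟩ := h1
        have l1 := congrArg List.length hf
        have l2 := congrArg List.length hg
        simp at l1 l2
        omega
      simp [h1, h2]
    · by_cases h2 : ∃ f, p = f :: q
      · simp [h1, h2, mul_comm]
      · simp [h1, h2]
  have e5 : ∑ q ∈ Ls D (k + 1), ∑ p ∈ Ls D (k + 1), (if (∃ f, q = f :: p) then φ p * φ q else 0)
      = ∑ f : D, ∑ p ∈ Ls D k, φ (f :: p) * φ p := by
    rw [sum_Ls_succ]
    have z : ∑ p ∈ Ls D (k + 1), (if (∃ f, ([] : List D) = f :: p) then φ p * φ [] else 0) = 0 := by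
      apply Finset.sum_eq_zero
      intro p _
      simp
    rw [z, zero_add]
    apply Finset.sum_congr rfl; intro f _
    apply Finset.sum_congr rfl; intro p hp
    rw [Finset.sum_eq_single p]
    · rw [if_pos ⟨f, rfl⟩, mul_comm]
    · intro p' _ hp'
      rw [if_neg]
      rintro ⟨f', hf'⟩
      exact hp' (List.cons.inj hf').2.symm
    · intro hn
      exfalso
      apply hn
      rw [mem_Ls] at hp ⊢
      omega
  have e6 : ∑ p ∈ Ls D (k + 1), ∑ q ∈ Ls D (k + 1),
        (if (∃ f, q = f :: p) ∨ (∃ f, p = f :: q) then φ p * φ q else 0)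
      = 2 * ∑ f : D, ∑ p ∈ Ls D k, φ (f :: p) * φ p := by
    simp only [e4, Finset.sum_add_distrib]
    rw [e5, Finset.sum_comm, e5]
    ring
  rw [← e6, ← e2, ← e3]
  convert h1 using 6

end Pool.Agent.W130.RC
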