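import Pool.Agent.W130.RC.P1b

/-!
# Transfer of averages of determinants between two families
-/

set_option autoImplicit false

open Matrix

namespace Pool.Agent.W130.RC

lemma extend_update {N E κ : Type*} [DecidableEq N] [DecidableEq κ] (j : κ → N)
    (hj : Function.Injective j) (g : κ → E) (m : N → E) (i : κ) (y : E) :
    Function.extend j (Function.update g i y) m = Function.update (Function.extend j g m) (j i) y := by
  funext c
  by_cases hc : ∃ i', j i' = c
  · obtain ⟨i', rfl⟩ := hc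
    rw [hj.extend_apply]
    by_cases h : i' = i
    · subst h; simp
    · rw [Function.update_of_ne h, Function.update_of_ne (fun h' => h (hj h')), hj.extend_apply]
  · rw [Function.extend_apply' _ _ _ hc, Function.update_of_ne, Function.extend_apply' _ _ _ hc]
    rintro rfl; exact hc ⟨i, rfl⟩

/-- freeze some of the arguments of an alternating form -/
noncomputable def restrictAlt {E E' N : Type*} [AddCommGroup E] [Module ℝ E] [AddCommGroup E']
    [Module ℝ E'] (f : E' [⋀^N]→ₗ[ℝ] ℝ) (L : E →ₗ[ℝ] E') (m : N → E') {k : ℕ}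
    (j : Fin k → N) (hj : Function.Injective j) : E [⋀^(Fin k)]→ₗ[ℝ] ℝ where
  toFun x := f (Function.extend j (fun i => L (x i)) m)
  map_update_add' := by
    intro inst x i a b
    classical
    have e : ∀ y : E, (fun i' => L (Function.update x i y i'))
        = Function.update (fun i' => L (x i')) i (L y) := by
      intro y
      funext i'
      by_cases h : i' = i
      · subst h; simp
      · simp [Function.update_of_ne h]
    rw [e, e, e, extend_update j hj, extend_update j hj, extend_update j hj, map_add,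
      f.map_update_add]
  map_update_smul' := by
    intro inst x i c a
    classical
    have e : ∀ y : E, (fun i' => L (Function.update x i y i'))
        = Function.update (fun i' => L (x i')) i (L y) := by
      intro y
      funext i'
      by_cases h : i' = i
      · subst h; simp
      · simp [Function.update_of_ne h]
    rw [e, e, extend_update j hj, extend_update j hj, map_smul, f.map_update_smul]
  map_eq_zero_of_eq' := by
    intro x i i' h hne
    apply f.map_eq_zero_of_eq _ (i := j i) (j := j i')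
    · rw [hj.extend_apply, hj.extend_apply, h]
    · exact fun h' => hne (hj h')

/-- the span of the functions given by alternating forms of columns -/
noncomputable def VS (d : ℕ) : Submodule ℝ (Matrix (Fin d) (Fin d) ℝ → ℝ) :=
  Submodule.span ℝ {f | ∃ (k : ℕ) (α : (Fin d → ℝ) [⋀^(Fin k)]→ₗ[ℝ] ℝ)
    (u : Fin k → (Fin d → ℝ)), f = fun Q => α (fun i => Q *ᵥ u i)}

variable {N : Type*} [Fintype N] [DecidableEq N]

lemma det_mem_VS {d : ℕ} (A : Matrix N N ℝ) (L : Matrix N (Fin d) ℝ) (K : Matrix (Fin d) N ℝ) :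
    (fun Q : Matrix (Fin d) (Fin d) ℝ => (A + L * Q * K).det) ∈ VS d := by
  have h1 : ∀ Q : Matrix (Fin d) (Fin d) ℝ, (A + L * Q * K).det
      = ∑ s : Finset N, Matrix.detRowAlternating
        (s.piecewise (fun c => Aᵀ c) (fun c => L *ᵥ (Q *ᵥ (Kᵀ c)))) := by
    intro Q
    rw [← det_transpose]
    have h2 := (Matrix.detRowAlternating (n := N) (R := ℝ)).map_add_univ
      (fun c => Aᵀ c) (fun c => L *ᵥ (Q *ᵥ (Kᵀ c)))
    rw [← h2]
    show _ = Matrix.det _
    congr 1
    ext c a
    simp only [transpose_apply, Matrix.add_apply, Pi.add_apply, mulVec_mulVec]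
    rfl
  have h3 : (fun Q : Matrix (Fin d) (Fin d) ℝ => (A + L * Q * K).det)
      = ∑ s : Finset N, fun Q : Matrix (Fin d) (Fin d) ℝ => Matrix.detRowAlternating
        (s.piecewise (fun c => Aᵀ c) (fun c => L *ᵥ (Q *ᵥ (Kᵀ c)))) := by
    funext Q
    rw [h1, Finset.sum_apply]
  rw [h3]
  apply Submodule.sum_mem
  intro s _
  apply Submodule.subset_span
  set j : Fin (sᶜ.card) → N := fun i => ((sᶜ).equivFin.symm i : N) with hj
  have hinj : Function.Injective j := by
    intro a b hab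
    exact (sᶜ).equivFin.symm.injective (Subtype.ext hab)
  refine ⟨sᶜ.card, restrictAlt (Matrix.detRowAlternating (n := N) (R := ℝ)) (Matrix.mulVecLin L)
    (fun c => Aᵀ c) j hinj, fun i => Kᵀ (j i), ?_⟩
  funext Q
  show Matrix.detRowAlternating _ = Matrix.detRowAlternating _
  congr 1
  funext c
  by_cases hc : c ∈ s
  · rw [Finset.piecewise_eq_of_mem _ _ _ hc, Function.extend_apply']
    rintro ⟨i, rfl⟩
    have : j i ∈ sᶜ := ((sᶜ).equivFin.symm i).2
    rw [Finset.mem_compl] at this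
    exact this hc
  · rw [Finset.piecewise_eq_of_notMem _ _ _ hc]
    have hc' : c ∈ sᶜ := Finset.mem_compl.2 hc
    have : c = j ((sᶜ).equivFin ⟨c, hc'⟩) := by simp [hj]
    rw [this, hinj.extend_apply]
    rfl

lemma two_fam_span {d : ℕ} (R1 R2 : RootAvg d) (V1 V2 : Matrix (Fin d) (Fin d) ℝ)
    (h1 : V1ᵀ * V1 = 1) (h2 : V2ᵀ * V2 = 1) (f h : Matrix (Fin d) (Fin d) ℝ → ℝ)
    (hf : f ∈ VS d) (hh : h ∈ VS d) :
    (Fintype.card R1.Γ : ℝ)⁻¹ * ∑ γ, f (R1.g γ * V1) * h (R1.g γ * V1)
      = (Fintype.card R2.Γ : ℝ)⁻¹ * ∑ γ, f (R2.g γ * V2) * h (R2.g γ * V2) := by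
  unfold VS at hf hh
  induction hf using Submodule.span_induction with
  | mem f hf =>
    obtain ⟨k, α, u, rfl⟩ := hf
    induction hh using Submodule.span_induction with
    | mem h hh =>
      obtain ⟨l, β, v, rfl⟩ := hh
      exact two_families R1 R2 V1 V2 h1 h2 α β u v
    | zero => simp
    | add x y _ _ hx hy =>
      simp only [Pi.add_apply, mul_add, Finset.sum_add_distrib, hx, hy]
    | smul a x _ hx =>
      have e : ∀ (R : RootAvg d) (V : Matrix (Fin d) (Fin d) ℝ),
          (Fintype.card R.Γ : ℝ)⁻¹ * ∑ γ, α (fun i => (R.g γ * V) *ᵥ u i) * (a • x) (R.g γ * V)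
          = a * ((Fintype.card R.Γ : ℝ)⁻¹ * ∑ γ, α (fun i => (R.g γ * V) *ᵥ u i) * x (R.g γ * V)) := by
        intro R V
        rw [Finset.mul_sum, Finset.mul_sum, Finset.mul_sum]
        apply Finset.sum_congr rfl
        intro γ _
        simp only [Pi.smul_apply, smul_eq_mul]
        ring
      rw [e, e, hx]
  | zero => simp
  | add x y _ _ hx hy =>
    simp only [Pi.add_apply, add_mul, mul_add, Finset.sum_add_distrib, hx, hy]
  | smul a x _ hx =>
    have e : ∀ (R : RootAvg d) (V : Matrix (Fin d) (Fin d) ℝ),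
        (Fintype.card R.Γ : ℝ)⁻¹ * ∑ γ, (a • x) (R.g γ * V) * h (R.g γ * V)
        = a * ((Fintype.card R.Γ : ℝ)⁻¹ * ∑ γ, x (R.g γ * V) * h (R.g γ * V)) := by
      intro R V
      rw [Finset.mul_sum, Finset.mul_sum, Finset.mul_sum]
      apply Finset.sum_congr rfl
      intro γ _
      simp only [Pi.smul_apply, smul_eq_mul]
      ring
    rw [e, e, hx]

/-- a function of two matrices, separately in the span: its diagonal averages agree -/
theorem transfer {d : ℕ} (R1 R2 : RootAvg d) (V1 V2 : Matrix (Fin d) (Fin d) ℝ)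
    (h1 : V1ᵀ * V1 = 1) (h2 : V2ᵀ * V2 = 1)
    (Θ : Matrix (Fin d) (Fin d) ℝ → Matrix (Fin d) (Fin d) ℝ → ℝ)
    (hL : ∀ R, (fun Q => Θ Q R) ∈ VS d) (hR : ∀ Q, (fun R => Θ Q R) ∈ VS d) :
    (Fintype.card R1.Γ : ℝ)⁻¹ * ∑ γ, Θ (R1.g γ * V1) (R1.g γ * V1)
      = (Fintype.card R2.Γ : ℝ)⁻¹ * ∑ γ, Θ (R2.g γ * V2) (R2.g γ * V2) := by
  classical
  let X := R1.Γ ⊕ R2.Γ
  let p : X → Matrix (Fin d) (Fin d) ℝ :=
    Sum.elim (fun γ => R1.g γ * V1) (fun γ => R2.g γ * V2)
  let VX : Submodule ℝ (X → ℝ) := (VS d).map (LinearMap.funLeft ℝ ℝ p)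
  obtain ⟨P0, hP0⟩ := VX.subtype.exists_leftInverse_of_injective (by simp)
  have hPfix : ∀ f ∈ VX, ((P0 f : VX) : X → ℝ) = f := by
    intro f hf
    have := congrArg (fun φ => ((φ ⟨f, hf⟩ : VX) : X → ℝ)) hP0
    simpa using this
  have hexp : ∀ f ∈ VX, ∀ x', f x' = ∑ x, f x * ((P0 (Pi.single x 1) : VX) : X → ℝ) x' := by
    intro f hf x'
    have h3 : f = ∑ x, f x • (Pi.single x (1 : ℝ) : X → ℝ) := by
      funext y
      rw [Finset.sum_apply, Finset.sum_eq_single y]
      · simp
      · intro b _ hb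
        rw [Pi.smul_apply, Pi.single_eq_of_ne hb.symm, smul_zero]
      · intro h; exact absurd (Finset.mem_univ y) h
    conv_lhs => rw [← hPfix f hf, h3]
    rw [map_sum]
    simp [Finset.sum_apply]
  have hF : ∀ x : X, ∃ F ∈ VS d, ∀ y, ((P0 (Pi.single x 1) : VX) : X → ℝ) y = F (p y) := by
    intro x
    obtain ⟨F, hF1, hF2⟩ := (P0 (Pi.single x 1) : VX).2
    refine ⟨F, hF1, fun y => ?_⟩
    rw [← hF2]; rfl
  choose F hFm hFe using hF
  have hmain : ∀ x' y', Θ (p x') (p y')
      = ∑ x, ∑ y, Θ (p x) (p y) * (F x (p x') * F y (p y')) := by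
    intro x' y'
    have s1 := hexp (fun x => Θ (p x) (p y')) ⟨_, hL (p y'), rfl⟩ x'
    have s2 : ∀ x, Θ (p x) (p y') = ∑ y, Θ (p x) (p y) * F y (p y') := by
      intro x
      have := hexp (fun y => Θ (p x) (p y)) ⟨_, hR (p x), rfl⟩ y'
      simpa only [hFe] using this
    simp only [hFe] at s1
    rw [s1]
    apply Finset.sum_congr rfl
    intro x _
    rw [s2 x, Finset.sum_mul]
    apply Finset.sum_congr rfl
    intro y _
    ring
  have hswap : ∀ (R : RootAvg d) (V : Matrix (Fin d) (Fin d) ℝ) (q : R.Γ → X)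
      (hq : ∀ γ, p (q γ) = R.g γ * V),
      (Fintype.card R.Γ : ℝ)⁻¹ * ∑ γ, Θ (R.g γ * V) (R.g γ * V)
        = ∑ x, ∑ y, Θ (p x) (p y) * ((Fintype.card R.Γ : ℝ)⁻¹ *
          ∑ γ, F x (R.g γ * V) * F y (R.g γ * V)) := by
    intro R V q hq
    have e1 : ∀ γ, Θ (R.g γ * V) (R.g γ * V)
        = ∑ x, ∑ y, Θ (p x) (p y) * (F x (R.g γ * V) * F y (R.g γ * V)) := by
      intro γ
      rw [← hq γ, hmain]
    simp only [e1]
    rw [Finset.sum_comm, Finset.mul_sum]
    apply Finset.sum_congr rfl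
    intro x _
    rw [Finset.sum_comm, Finset.mul_sum]
    apply Finset.sum_congr rfl
    intro y _
    rw [Finset.mul_sum, Finset.mul_sum, Finset.mul_sum]
    apply Finset.sum_congr rfl
    intro γ _
    ring
  rw [hswap R1 V1 Sum.inl (fun γ => rfl), hswap R2 V2 Sum.inr (fun γ => rfl)]
  apply Finset.sum_congr rfl
  intro x _
  apply Finset.sum_congr rfl
  intro y _
  rw [two_fam_span R1 R2 V1 V2 h1 h2 (F x) (F y) (hFm x) (hFm y)]

end Pool.Agent.W130.RC
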