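import Pool.Agent.W130.RC.Unif

/-!
# The characteristic polynomial of a sum of symmetric matrices is in the class
-/

set_option autoImplicit false

open Polynomial Matrix Equiv

namespace Pool.Agent.W130.RC

variable {ι N α : Type*} [DecidableEq ι] [Fintype N] [DecidableEq N]

lemma det_rank_one {R : Type*} [CommRing R] (B : Matrix N N R) (u w : N → R) (s : R) :
    (B - s • vecMulVec u w).det = B.det + s * ((B - vecMulVec u w).det - B.det) := by
  set M : R → R → Matrix (N ⊕ Unit) (N ⊕ Unit) R := fun t c =>
    fromBlocks B (Matrix.replicateCol Unit u) (Matrix.replicateRow Unit (t • w)) (c • 1) with hM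
  have hrow : ∀ t c, M t c = (M 0 0).updateRow (Sum.inr ()) (Sum.elim (t • w) (fun _ => c)) := by
    intro t c
    ext i j
    rcases i with i | i <;> rcases j with j | j
    · simp [hM, Matrix.updateRow_apply]
    · simp [hM, Matrix.updateRow_apply]
    · simp [hM, Matrix.updateRow_apply]
    · simp [hM, Matrix.updateRow_apply]
  have hlin : ∀ t c, (M t c).det = t * (M 1 0).det + c * (M 0 1).det := by
    intro t c
    rw [hrow t c, hrow 1 0, hrow 0 1, ← det_updateRow_smul, ← det_updateRow_smul,
      ← det_updateRow_add]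
    congr 2
    ext j
    rcases j with j | j <;> simp
  have h1 : ∀ t, (M t 1).det = (B - t • vecMulVec u w).det := by
    intro t
    simp only [hM, one_smul]
    rw [det_fromBlocks_one₂₂]
    congr 2
    ext i j
    simp [Matrix.mul_apply, vecMulVec_apply]
    ring
  have e1 := h1 s
  have e2 := h1 1
  have e3 := h1 0
  rw [hlin] at e1 e2 e3
  simp only [zero_smul, sub_zero, one_smul] at e2 e3
  rw [← e1, ← e2, ← e3]
  ring

lemma charmatrix_add_vec (M : Matrix N N ℝ) (v : N → ℝ) (s : ℝ) :
    (M + s • vecMulVec v v).charpoly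
      = M.charpoly + C s * ((M + vecMulVec v v).charpoly - M.charpoly) := by
  have key : ∀ s : ℝ, (M + s • vecMulVec v v).charmatrix = M.charmatrix -
      (C s) • vecMulVec (fun i => C (v i)) (fun i => C (v i)) := by
    intro s
    ext1 i j
    simp only [charmatrix_apply, Matrix.add_apply, Matrix.smul_apply, vecMulVec_apply,
      Matrix.sub_apply, smul_eq_mul, map_add, map_mul]
    ring
  unfold Matrix.charpoly
  rw [key s]
  have h1 := key 1
  rw [one_smul, C_1, one_smul] at h1
  rw [h1, det_rank_one]

lemma hyp_charpoly (M : Matrix N N ℝ) (hM : M.IsSymm) : Hyp M.charpoly := by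
  have hH : M.IsHermitian := by
    unfold Matrix.IsHermitian
    rw [Matrix.conjTranspose_eq_transpose_of_trivial]; exact hM
  intro z hz h0
  rw [hH.charpoly_eq, map_prod, Finset.prod_eq_zero_iff] at h0
  obtain ⟨i, _, hi⟩ := h0
  have h1 : z = ((hH.eigenvalues i : ℝ) : ℂ) := by
    simpa [sub_eq_zero] using hi
  rw [h1] at hz
  simp at hz

theorem isD_charpoly [Fintype ι] (n : ℕ) (hn : Fintype.card N = n + 1) :
    IsD n (fun A : ι → Matrix N N ℝ => (∑ i, A i).charpoly) := by
  have hNe : Nonempty N := Fintype.card_pos_iff.1 (by omega)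
  have hsum : ∀ (A : ι → Matrix N N ℝ) i v s, ∑ j, addv i v s A j
      = ∑ j, A j + s • vecMulVec v v := by
    intro A i v s
    unfold addv
    rw [Finset.sum_update_of_mem (Finset.mem_univ i), ← Finset.erase_eq,
      ← Finset.add_sum_erase _ A (Finset.mem_univ i)]
    abel
  refine ⟨?_, ?_, ?_, ?_, ?_⟩
  · intro A _; exact charpoly_monic _
  · intro A _; rw [charpoly_natDegree_eq_dim, hn]
  · intro A hA
    apply hyp_charpoly
    unfold Matrix.IsSymm
    rw [transpose_sum]
    exact Finset.sum_congr rfl (fun i _ => hA i)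
  · intro A _ i v s
    simp only [hsum]
    rw [charmatrix_add_vec, one_smul]
  · intro A _ i v
    simp only [hsum, one_smul]
    have h1 := trace_eq_neg_charpoly_coeff (∑ j, A j + vecMulVec v v)
    have h2 := trace_eq_neg_charpoly_coeff (∑ j, A j)
    rw [hn] at h1 h2
    simp only [Nat.add_sub_cancel] at h1 h2
    rw [trace_add, h2, trace_vecMulVec] at h1
    rw [coeff_sub]
    linarith

end Pool.Agent.W130.RC
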