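import Pool.Agent.W130.RC.Pick

/-!
# The class of determinantal averages, swap steps and selection
-/

set_option autoImplicit false

open Polynomial Matrix Equiv

namespace Pool.Agent.W130.RC

variable {ι N α : Type*} [DecidableEq ι] [Fintype N] [DecidableEq N] [DecidableEq α] [Fintype α]

/-- conjugate the matrix with index `i` -/
def upd (i : ι) (R : Matrix N N ℝ) (A : ι → Matrix N N ℝ) : ι → Matrix N N ℝ :=
  Function.update A i (R * A i * Rᵀ)

/-- add a rank one matrix at index `i` -/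
def addv (i : ι) (v : N → ℝ) (s : ℝ) (A : ι → Matrix N N ℝ) : ι → Matrix N N ℝ :=
  Function.update A i (A i + s • vecMulVec v v)

def Symm (A : ι → Matrix N N ℝ) : Prop := ∀ i, (A i).IsSymm

/-- polynomial valued functions of families of symmetric matrices which behave like
characteristic polynomials of the sum -/
structure IsD (n : ℕ) (F : (ι → Matrix N N ℝ) → ℝ[X]) : Prop where
  monic : ∀ A, Symm A → (F A).Monic
  deg : ∀ A, Symm A → (F A).natDegree = n + 1
  hyp : ∀ A, Symm A → Hyp (F A)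
  aff : ∀ A, Symm A → ∀ i (v : N → ℝ) (s : ℝ),
     F (addv i v s A) = F A + C s * (F (addv i v 1 A) - F A)
  tr : ∀ A, Symm A → ∀ i (v : N → ℝ), (F (addv i v 1 A) - F A).coeff n = -(v ⬝ᵥ v)

lemma vecMulVec_symm (v : N → ℝ) : (vecMulVec v v).IsSymm := by
  ext i j; simp [vecMulVec_apply, mul_comm]

lemma symm_addv {A : ι → Matrix N N ℝ} (hA : Symm A) (i : ι) (v : N → ℝ) (s : ℝ) :
    Symm (addv i v s A) := by
  intro j
  by_cases h : j = i
  · subst h
    simp only [addv, Function.update_self]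
    exact (hA j).add ((vecMulVec_symm v).smul s)
  · simp only [addv, Function.update_of_ne h]; exact hA j

lemma symm_upd {A : ι → Matrix N N ℝ} (hA : Symm A) (i : ι) (R : Matrix N N ℝ) :
    Symm (upd i R A) := by
  intro j
  by_cases h : j = i
  · subst h
    simp only [upd, Function.update_self]
    unfold Matrix.IsSymm
    rw [transpose_mul, transpose_mul, transpose_transpose, (hA j), Matrix.mul_assoc]
  · simp only [upd, Function.update_of_ne h]; exact hA j

lemma upd_upd (i : ι) (R R' : Matrix N N ℝ) (A : ι → Matrix N N ℝ) :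
    upd i R (upd i R' A) = upd i (R * R') A := by
  unfold upd
  rw [Function.update_idem, Function.update_self, transpose_mul]
  simp only [Matrix.mul_assoc]

lemma upd_one (i : ι) (A : ι → Matrix N N ℝ) : upd i 1 A = A := by
  unfold upd; simp

lemma upd_addv (i j : ι) (R : Matrix N N ℝ) (v : N → ℝ) (s : ℝ) (A : ι → Matrix N N ℝ) :
    upd i R (addv j v s A) = addv j (if j = i then R *ᵥ v else v) s (upd i R A) := by
  have key : ∀ (X : Matrix N N ℝ), R * (X + s • vecMulVec v v) * Rᵀ
      = R * X * Rᵀ + s • vecMulVec (R *ᵥ v) (R *ᵥ v) := by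
    intro X
    rw [Matrix.mul_add, Matrix.add_mul, Matrix.mul_smul, Matrix.smul_mul]
    congr 2
    rw [Matrix.mul_vecMulVec, Matrix.vecMulVec_mul, Matrix.vecMul_transpose]
  by_cases h : j = i
  · subst h
    simp only [upd, addv, Function.update_self, Function.update_idem, if_true]
    rw [key]
  · simp only [upd, addv, if_neg h]
    rw [Function.update_of_ne (Ne.symm h), Function.update_of_ne h,
      Function.update_comm (Ne.symm h)]

lemma IsD.ratio {n : ℕ} {F : (ι → Matrix N N ℝ) → ℝ[X]} (hF : IsD n F) {A : ι → Matrix N N ℝ}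
    (hA : Symm A) (i : ι) {v : N → ℝ} (hv : v ≠ 0) (z : ℂ) (hz : 0 < z.im) :
    0 < (aeval z (F (addv i v 1 A)) / aeval z (F A)).im := by
  set q := F (addv i v 1 A) - F A with hq
  have h1 := pencil_sign n (F A) q (hF.monic A hA) (hF.deg A hA) ?_ ?_ ?_ z hz
  · have h2 : aeval z (F (addv i v 1 A)) / aeval z (F A) = 1 + aeval z q / aeval z (F A) := by
      rw [hq, map_sub, sub_div, div_self (hF.hyp A hA z hz)]; ring
    rw [h2, Complex.add_im, Complex.one_im, zero_add]
    exact h1
  · have m1 := hF.monic _ (symm_addv hA i v 1)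
    have d1 := hF.deg _ (symm_addv hA i v 1)
    have m2 := hF.monic _ hA
    have d2 := hF.deg _ hA
    have : q.degree < (n + 1 : ℕ) := by
      have h := Polynomial.degree_sub_lt_left (p := F (addv i v 1 A)) (q := F A) ?_ m1.ne_zero ?_
      · rw [Polynomial.degree_eq_natDegree m1.ne_zero, d1] at h
        exact h
      · rw [Polynomial.degree_eq_natDegree m1.ne_zero, Polynomial.degree_eq_natDegree m2.ne_zero,
          d1, d2]
      · rw [m1.leadingCoeff, m2.leadingCoeff]
    have h3 := Polynomial.natDegree_le_iff_degree_le (p := q) (n := n)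
    rw [h3]
    by_cases hq0 : q = 0
    · simp [hq0]
    · rw [Polynomial.degree_eq_natDegree hq0] at this ⊢
      have := WithBot.coe_lt_coe.1 this
      exact_mod_cast Nat.lt_succ_iff.1 this
  · rw [hF.tr A hA i v]
    have : 0 < v ⬝ᵥ v := by
      have h1 : 0 ≤ v ⬝ᵥ v := Finset.sum_nonneg (fun i _ => mul_self_nonneg _)
      rcases h1.lt_or_eq with h | h
      · exact h
      · exact absurd (dotProduct_self_eq_zero.1 h.symm) hv
    linarith
  · intro s
    rw [← hF.aff A hA i v s]
    exact hF.hyp _ (symm_addv hA i v s)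

/-- conjugation by a reflection exchanges two rank one matrices -/
lemma reflect_conj (w : N → ℝ) (hw : w ⬝ᵥ w = 2) (X : Matrix N N ℝ) (hX : X.IsSymm) :
    ∃ a b : N → ℝ, a ≠ 0 ∧ b ≠ 0 ∧
      (1 - vecMulVec w w) * X * (1 - vecMulVec w w)ᵀ + vecMulVec b b = X + vecMulVec a a := by
  set c : ℝ := w ⬝ᵥ (X *ᵥ w) with hc
  obtain ⟨t, ht⟩ : ∃ t : N → ℝ, t = X *ᵥ w - (c / 2) • w := ⟨_, rfl⟩
  have hwt : w ⬝ᵥ t = 0 := by
    rw [ht, dotProduct_sub, dotProduct_smul, hw, ← hc, smul_eq_mul]; ring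
  have htw : t ⬝ᵥ w = 0 := by rw [dotProduct_comm]; exact hwt
  have hs : (Real.sqrt 2)⁻¹ * (Real.sqrt 2)⁻¹ = 1 / 2 := by
    rw [← mul_inv, Real.mul_self_sqrt (by norm_num)]; norm_num
  have htt : 0 ≤ t ⬝ᵥ t := Finset.sum_nonneg (fun i _ => mul_self_nonneg _)
  refine ⟨(Real.sqrt 2)⁻¹ • (w - t), (Real.sqrt 2)⁻¹ • (w + t), ?_, ?_, ?_⟩
  · intro h0
    have h1 : ((Real.sqrt 2)⁻¹ • (w - t)) ⬝ᵥ ((Real.sqrt 2)⁻¹ • (w - t)) = 0 := by rw [h0]; simp
    rw [dotProduct_smul, smul_dotProduct, smul_eq_mul, smul_eq_mul, ← mul_assoc, hs,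
      sub_dotProduct, dotProduct_sub, dotProduct_sub, hw, hwt, htw] at h1
    linarith
  · intro h0
    have h1 : ((Real.sqrt 2)⁻¹ • (w + t)) ⬝ᵥ ((Real.sqrt 2)⁻¹ • (w + t)) = 0 := by rw [h0]; simp
    rw [dotProduct_smul, smul_dotProduct, smul_eq_mul, smul_eq_mul, ← mul_assoc, hs,
      add_dotProduct, dotProduct_add, dotProduct_add, hw, hwt, htw] at h1
    linarith
  · have hR : (1 - vecMulVec w w)ᵀ = 1 - vecMulVec w w := by
      rw [transpose_sub, transpose_one, (vecMulVec_symm w)]
    have e1 : X * vecMulVec w w = vecMulVec (X *ᵥ w) w := by rw [Matrix.mul_vecMulVec]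
    have e2 : vecMulVec w w * X = vecMulVec w (X *ᵥ w) := by
      rw [Matrix.vecMulVec_mul, ← Matrix.mulVec_transpose, hX]
    have e3 : vecMulVec w w * X * vecMulVec w w = c • vecMulVec w w := by
      rw [e2, Matrix.vecMulVec_mul_vecMulVec, hc, dotProduct_comm]
      ext i j
      simp [vecMulVec_apply]
      try ring
    have e4 : (1 - vecMulVec w w) * X * (1 - vecMulVec w w)
        = X - vecMulVec (X *ᵥ w) w - vecMulVec w (X *ᵥ w) + c • vecMulVec w w := by
      rw [← e3, ← e1, ← e2]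
      noncomm_ring
    rw [hR, e4]
    have ht' : X *ᵥ w = t + (c / 2) • w := by rw [ht]; simp
    rw [ht']
    ext i j
    simp only [Matrix.add_apply, Matrix.sub_apply, vecMulVec_apply, Pi.add_apply, Pi.smul_apply,
      smul_eq_mul, Matrix.smul_apply, Pi.sub_apply]
    have hh : ∀ a b : ℝ, (Real.sqrt 2)⁻¹ * a * ((Real.sqrt 2)⁻¹ * b) = 1 / 2 * (a * b) := by
      intro a b
      rw [← hs]; ring
    rw [hh, hh]
    ring

end Pool.Agent.W130.RC
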