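import Pool.Agent.W130.RC.Embed

/-!
# Comparison of iterated averages
-/

set_option autoImplicit false

open Matrix Polynomial

namespace Pool.Agent.W130.RC

section DL

variable {N : Type*} [Fintype N] [DecidableEq N]

/-- functions which behave like the determinant -/
def DL (d : ℕ) (G : Matrix N N ℝ → ℝ) : Prop :=
  (∀ (A : Matrix N N ℝ) (L : Matrix N (Fin d) ℝ) (K : Matrix (Fin d) N ℝ),
    (fun Q : Matrix (Fin d) (Fin d) ℝ => G (A + L * Q * K)) ∈ VS d) ∧
  (∀ (A : Matrix N N ℝ) (L : Matrix N (Fin d) ℝ) (K : Matrix (Fin d) N ℝ),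
    (fun Q : Matrix (Fin d) (Fin d) ℝ => G (A + L * Qᵀ * K)) ∈ VS d)

lemma DL_det (d : ℕ) : DL d (Matrix.det : Matrix N N ℝ → ℝ) := by
  refine ⟨fun A L K => det_mem_VS A L K, fun A L K => ?_⟩
  have : (fun Q : Matrix (Fin d) (Fin d) ℝ => (A + L * Qᵀ * K).det)
      = fun Q => (Aᵀ + Kᵀ * Q * Lᵀ).det := by
    funext Q
    rw [← det_transpose, transpose_add, transpose_mul, transpose_mul, transpose_transpose,
      Matrix.mul_assoc]
  rw [this]
  exact det_mem_VS _ _ _

lemma DL_avg {d : ℕ} {T : Type*} (s : Finset T) (c : ℝ) (G : Matrix N N ℝ → ℝ) (hG : DL d G)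
    (X : T → Matrix N N ℝ) : DL d (fun M => c * ∑ t ∈ s, G (M - X t)) := by
  constructor
  · intro A L K
    have : (fun Q : Matrix (Fin d) (Fin d) ℝ => c * ∑ t ∈ s, G (A + L * Q * K - X t))
        = c • ∑ t ∈ s, (fun Q : Matrix (Fin d) (Fin d) ℝ => G ((A - X t) + L * Q * K)) := by
      funext Q
      rw [Pi.smul_apply, Finset.sum_apply, smul_eq_mul]
      congr 1
      apply Finset.sum_congr rfl
      intro t _
      congr 1
      abel
    rw [this]
    exact Submodule.smul_mem _ _ (Submodule.sum_mem _ (fun t _ => hG.1 _ _ _))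
  · intro A L K
    have : (fun Q : Matrix (Fin d) (Fin d) ℝ => c * ∑ t ∈ s, G (A + L * Qᵀ * K - X t))
        = c • ∑ t ∈ s, (fun Q : Matrix (Fin d) (Fin d) ℝ => G ((A - X t) + L * Qᵀ * K)) := by
      funext Q
      rw [Pi.smul_apply, Finset.sum_apply, smul_eq_mul]
      congr 1
      apply Finset.sum_congr rfl
      intro t _
      congr 1
      abel
    rw [this]
    exact Submodule.smul_mem _ _ (Submodule.sum_mem _ (fun t _ => hG.2 _ _ _))

end DL

variable {V D : Type} [Fintype V] [DecidableEq V] [Fintype D] [DecidableEq D] {k : ℕ}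

lemma DL_itAvg {ι : Type} (G : MGraph V D) (e : ι → D) (R : RootAvg k)
    (B : Matrix (Fin k) (Fin k) ℝ) (L : List ι) : DL k (itAvg G e R B L) := by
  induction L with
  | nil => exact DL_det k
  | cons i L ih =>
    have : itAvg G e R B (i :: L) = fun M => (Fintype.card R.Γ : ℝ)⁻¹ *
        ∑ γ, itAvg G e R B L (M - term G B (e i) (R.g γ)) := rfl
    rw [this]
    exact DL_avg Finset.univ _ _ ih _

lemma compare_step (G : MGraph V D) (e : D) (R1 R2 : RootAvg k)
    (V1 V2 : Matrix (Fin k) (Fin k) ℝ) (Λ : Matrix (Fin k) (Fin k) ℝ)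
    (h1 : V1ᵀ * V1 = 1) (h2 : V2ᵀ * V2 = 1)
    (F : Matrix (V × Fin k) (V × Fin k) ℝ → ℝ) (hF : DL k F)
    (M : Matrix (V × Fin k) (V × Fin k) ℝ) :
    (Fintype.card R1.Γ : ℝ)⁻¹ * ∑ γ, F (M - term G (V1 * Λ * V1ᵀ) e (R1.g γ))
      = (Fintype.card R2.Γ : ℝ)⁻¹ * ∑ γ, F (M - term G (V2 * Λ * V2ᵀ) e (R2.g γ)) := by
  by_cases h : G.src e = G.tgt e
  · have ht : ∀ (Q W : Matrix (Fin k) (Fin k) ℝ), term G (W * Λ * Wᵀ) e Q
        = io (Fin k) (G.src e) * ((Q * W) * Λ * (Q * W)ᵀ) * (io (Fin k) (G.src e))ᵀ := by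
      intro Q W
      unfold term
      rw [if_pos h, transpose_mul]
      simp only [Matrix.mul_assoc]
    simp only [ht]
    set v := G.src e
    refine transfer R1 R2 V1 V2 h1 h2
      (fun Q R => F (M - io (Fin k) v * (Q * Λ * Rᵀ) * (io (Fin k) v)ᵀ)) ?_ ?_
    · intro R
      have := hF.1 M (-(io (Fin k) v)) (Λ * Rᵀ * (io (Fin k) v)ᵀ)
      convert this using 2
      rename_i Q
      congr 1
      rw [sub_eq_add_neg, Matrix.neg_mul, Matrix.neg_mul]
      simp only [Matrix.mul_assoc]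
    · intro Q
      have := hF.2 M (-(io (Fin k) v * Q * Λ)) (io (Fin k) v)ᵀ
      convert this using 2
      rename_i R
      congr 1
      rw [sub_eq_add_neg, Matrix.neg_mul, Matrix.neg_mul]
      simp only [Matrix.mul_assoc]
  · have ht : ∀ (Q B : Matrix (Fin k) (Fin k) ℝ), term G B e Q
        = io (Fin k) (G.src e) * (Q * 1) * (io (Fin k) (G.tgt e))ᵀ
          + io (Fin k) (G.tgt e) * (Q * 1)ᵀ * (io (Fin k) (G.src e))ᵀ := by
      intro Q W
      unfold term
      rw [if_neg h, Matrix.mul_one]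
    simp only [ht]
    set u := G.src e
    set v := G.tgt e
    refine transfer R1 R2 1 1 (by simp) (by simp)
      (fun Q R => F (M - (io (Fin k) u * Q * (io (Fin k) v)ᵀ
        + io (Fin k) v * Rᵀ * (io (Fin k) u)ᵀ))) ?_ ?_
    · intro R
      have := hF.1 (M - io (Fin k) v * Rᵀ * (io (Fin k) u)ᵀ) (-(io (Fin k) u)) (io (Fin k) v)ᵀ
      convert this using 2
      rename_i Q
      congr 1
      rw [Matrix.neg_mul, Matrix.neg_mul]
      abel
    · intro Q
      have := hF.2 (M - io (Fin k) u * Q * (io (Fin k) v)ᵀ) (-(io (Fin k) v)) (io (Fin k) u)ᵀ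
      convert this using 2
      rename_i R
      congr 1
      rw [Matrix.neg_mul, Matrix.neg_mul]
      abel

theorem itAvg_compare {ι : Type} (G : MGraph V D) (e : ι → D) (R1 R2 : RootAvg k)
    (V1 V2 : Matrix (Fin k) (Fin k) ℝ) (Λ : Matrix (Fin k) (Fin k) ℝ)
    (h1 : V1ᵀ * V1 = 1) (h2 : V2ᵀ * V2 = 1) (L : List ι) :
    ∀ M, itAvg G e R1 (V1 * Λ * V1ᵀ) L M = itAvg G e R2 (V2 * Λ * V2ᵀ) L M := by
  induction L with
  | nil => intro M; rfl
  | cons i L ih =>
    intro M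
    simp only [itAvg, ih]
    exact compare_step G (e i) R1 R2 V1 V2 Λ h1 h2 _ (DL_itAvg G e R2 _ L) M

end Pool.Agent.W130.RC
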