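import Pool.Agent.W130.RC.Exist

/-!
# The characteristic polynomial of a covering and the main existence statement
-/

set_option autoImplicit false

open Matrix Polynomial

namespace Pool.Agent.W130.RC

variable {V D : Type} [Fintype V] [DecidableEq V] [Fintype D] [DecidableEq D]

/-- the new part -/
def newM (G : MGraph V D) {d : ℕ} (S : Std d) (σ : D → Equiv.Perm (Fin (d + 1))) :
    Matrix (V × Fin d) (V × Fin d) ℝ :=
  ∑ e : D, io (Fin d) (G.src e) * S.pi (σ e) * (io (Fin d) (G.tgt e))ᵀ

lemma covAdj_eq (G : MGraph V D) {r : ℕ} (σ : D → Equiv.Perm (Fin r)) :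
    G.covAdj σ = ∑ e : D, io (Fin r) (G.src e) * Pm (σ e) * (io (Fin r) (G.tgt e))ᵀ := by
  ext x y
  rw [Matrix.sum_apply]
  simp only [MGraph.covAdj, Matrix.of_apply]
  apply Finset.sum_congr rfl
  intro e _
  rw [io_block, Pm_apply]
  by_cases h1 : x.1 = G.src e
  · by_cases h2 : y.1 = G.tgt e
    · simp [h1, h2]
    · simp [h2, Ne.symm h2]
  · simp [h1, Ne.symm h1]

/-- block diagonal extension of `U` -/
def TU (V : Type) [DecidableEq V] {d : ℕ} (S : Std d) : Matrix (V × Fin (d + 1)) (V × Fin d) ℝ :=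
  Matrix.of (fun x y => if x.1 = y.1 then S.U x.2 y.2 else 0)

/-- the constant vectors in the blocks -/
noncomputable def TC (V : Type) [DecidableEq V] (d : ℕ) : Matrix (V × Fin (d + 1)) V ℝ :=
  Matrix.of (fun x b => if x.1 = b then (Real.sqrt (d + 1))⁻¹ else 0)

lemma TU_io {d : ℕ} (S : Std d) (v : V) :
    TU V S * io (Fin d) v = io (Fin (d + 1)) v * S.U := by
  ext x j
  rw [Matrix.mul_apply, Matrix.mul_apply, Fintype.sum_prod_type]
  simp only [TU, Matrix.of_apply, io_apply]
  rw [Finset.sum_eq_single v, Finset.sum_eq_single j, Finset.sum_eq_single x.2]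
  · by_cases h : x.1 = v <;> simp [h]
  · intro b _ hb; simp [Ne.symm hb]
  · intro h; exact absurd (Finset.mem_univ _) h
  · intro b _ hb; simp [hb]
  · intro h; exact absurd (Finset.mem_univ _) h
  · intro b _ hb; simp [hb]
  · intro h; exact absurd (Finset.mem_univ _) h

lemma io_TU {d : ℕ} (S : Std d) (v : V) :
    (io (Fin (d + 1)) v)ᵀ * TU V S = S.U * (io (Fin d) v)ᵀ := by
  ext i y
  rw [Matrix.mul_apply, Matrix.mul_apply, Fintype.sum_prod_type]
  simp only [TU, Matrix.of_apply, io_apply, transpose_apply]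
  rw [Finset.sum_eq_single v, Finset.sum_eq_single i, Finset.sum_eq_single y.2]
  · by_cases h : y.1 = v
    · simp [h]
    · simp [h, Ne.symm h]
  · intro b _ hb; simp [Ne.symm hb]
  · intro h; exact absurd (Finset.mem_univ _) h
  · intro b _ hb; simp [hb]
  · intro h; exact absurd (Finset.mem_univ _) h
  · intro b _ hb; simp [hb]
  · intro h; exact absurd (Finset.mem_univ _) h

lemma cov_TU (G : MGraph V D) {d : ℕ} (S : Std d) (σ : D → Equiv.Perm (Fin (d + 1))) :
    G.covAdj σ * TU V S = TU V S * newM G S σ := by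
  rw [covAdj_eq, newM, Matrix.sum_mul, Matrix.mul_sum]
  apply Finset.sum_congr rfl
  intro e _
  rw [Matrix.mul_assoc, io_TU]
  calc io (Fin (d + 1)) (G.src e) * Pm (σ e) * (S.U * (io (Fin d) (G.tgt e))ᵀ)
      = io (Fin (d + 1)) (G.src e) * (Pm (σ e) * S.U) * (io (Fin d) (G.tgt e))ᵀ := by
        simp only [Matrix.mul_assoc]
    _ = (io (Fin (d + 1)) (G.src e) * S.U) * S.pi (σ e) * (io (Fin d) (G.tgt e))ᵀ := by
        rw [← S.U_pi]; simp only [Matrix.mul_assoc]
    _ = TU V S * (io (Fin d) (G.src e) * S.pi (σ e) * (io (Fin d) (G.tgt e))ᵀ) := by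
        rw [← TU_io]; simp only [Matrix.mul_assoc]

lemma cov_TC (G : MGraph V D) (d : ℕ) (σ : D → Equiv.Perm (Fin (d + 1))) :
    G.covAdj σ * TC V d = TC V d * G.adj := by
  ext x b
  rw [Matrix.mul_apply, Matrix.mul_apply, Fintype.sum_prod_type]
  simp only [TC, Matrix.of_apply, MGraph.covAdj, MGraph.adj]
  set c := (Real.sqrt (d + 1))⁻¹
  rw [Finset.sum_eq_single b]
  · have h1 : ∀ y : Fin (d + 1), (∑ e : D, if G.src e = x.1 ∧ G.tgt e = b ∧ x.2 = σ e y
        then (1 : ℝ) else 0) * (if b = b then c else 0)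
        = ∑ e : D, (if G.src e = x.1 ∧ G.tgt e = b then (if x.2 = σ e y then c else 0) else 0) := by
      intro y
      rw [if_pos rfl, Finset.sum_mul]
      apply Finset.sum_congr rfl
      intro e _
      by_cases h1 : G.src e = x.1 <;> by_cases h2 : G.tgt e = b <;>
        by_cases h3 : x.2 = σ e y <;> simp [h1, h2, h3]
    rw [Finset.sum_congr rfl (fun y _ => h1 y), Finset.sum_comm]
    have h2 : ∀ e : D, ∑ y : Fin (d + 1), (if G.src e = x.1 ∧ G.tgt e = b then
        (if x.2 = σ e y then c else 0) else 0)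
        = if G.src e = x.1 ∧ G.tgt e = b then c else 0 := by
      intro e
      rw [Finset.sum_eq_single ((σ e)⁻¹ x.2)]
      · simp
      · intro y _ hy
        have : x.2 ≠ σ e y := by
          rintro h
          apply hy
          rw [h]; simp
        simp [this]
      · intro h; exact absurd (Finset.mem_univ _) h
    simp only [h2]
    rw [Finset.sum_eq_single x.1]
    · rw [if_pos rfl, Finset.mul_sum]
      apply Finset.sum_congr rfl
      intro e _
      split_ifs <;> simp
    · intro a _ ha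
      rw [if_neg (Ne.symm ha), zero_mul]
    · intro h; exact absurd (Finset.mem_univ _) h
  · intro a _ ha
    apply Finset.sum_eq_zero
    intro y _
    rw [if_neg ha, mul_zero]
  · intro h; exact absurd (Finset.mem_univ _) h

lemma T_orth {d : ℕ} (S : Std d) :
    (fromCols (TU V S) (TC V d)) * (fromCols (TU V S) (TC V d))ᵀ = 1 := by
  rw [transpose_fromCols, fromCols_mul_fromRows]
  ext x y
  rw [Matrix.add_apply, Matrix.mul_apply, Matrix.mul_apply, Fintype.sum_prod_type]
  simp only [transpose_apply, TU, TC, Matrix.of_apply]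
  have hc : (Real.sqrt (d + 1))⁻¹ * (Real.sqrt (d + 1))⁻¹ = ((d : ℝ) + 1)⁻¹ := by
    rw [← mul_inv, Real.mul_self_sqrt (by positivity)]
  rw [Finset.sum_eq_single x.1, Finset.sum_eq_single x.1]
  · rw [if_pos rfl]
    by_cases h : x.1 = y.1
    · have h1 := congrFun (congrFun S.UUt x.2) y.2
      rw [Matrix.mul_apply] at h1
      simp only [transpose_apply, Matrix.sub_apply, Matrix.smul_apply, Jm, Matrix.of_apply,
        smul_eq_mul, mul_one] at h1
      simp only [h, if_true]
      rw [h1, hc, Matrix.one_apply, Matrix.one_apply]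
      have : x = y ↔ x.2 = y.2 := by
        constructor
        · rintro rfl; rfl
        · intro h2; exact Prod.ext h h2
      simp only [this]
      ring
    · have h' : y.1 ≠ x.1 := fun hh => h hh.symm
      have : x ≠ y := by rintro rfl; exact h rfl
      simp [h', this]
  · intro b _ hb
    rw [if_neg (Ne.symm hb), zero_mul]
  · intro h; exact absurd (Finset.mem_univ _) h
  · intro b _ hb
    apply Finset.sum_eq_zero
    intro j _
    rw [if_neg (Ne.symm hb), zero_mul]
  · intro h; exact absurd (Finset.mem_univ _) h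

theorem cover_charpoly (G : MGraph V D) {d : ℕ} (S : Std d) (σ : D → Equiv.Perm (Fin (d + 1))) :
    (G.covAdj σ).charpoly = G.adj.charpoly * (newM G S σ).charpoly := by
  set T := fromCols (TU V S) (TC V d) with hT
  have o1 : T * Tᵀ = 1 := T_orth S
  have hcard : Fintype.card (V × Fin (d + 1)) = Fintype.card ((V × Fin d) ⊕ V) := by
    simp [mul_add]
  have o2 : Tᵀ * T = 1 := (mul_eq_one_comm_of_card_eq _ _ _ hcard).1 o1
  have h1 : G.covAdj σ * T = T * fromBlocks (newM G S σ) 0 0 G.adj := by
    rw [hT, mul_fromCols, cov_TU, cov_TC, fromCols_mul_fromBlocks]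
    simp
  have h2 : G.covAdj σ = T * (fromBlocks (newM G S σ) 0 0 G.adj * Tᵀ) := by
    rw [← Matrix.mul_assoc, ← h1, Matrix.mul_assoc, o1, Matrix.mul_one]
  have h3 := charpoly_mul_comm' T (fromBlocks (newM G S σ) 0 0 G.adj * Tᵀ)
  rw [← h2, Matrix.mul_assoc, o2, Matrix.mul_one, hcard] at h3
  have h4 := (isRegular_X_pow _).left.eq_iff.mp h3
  rw [h4, charpoly_fromBlocks_zero₁₂, mul_comm]

/-- every base graph has a good covering, in terms of Rayleigh bounds -/
theorem exists_cover [Nonempty V] (G : MGraph V D) (k : ℕ) (ρ : ℝ) (hRB : ∀ v, G.RB v ρ) :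
    ∃ σ : D → Equiv.Perm (Fin (k + 2)), (∀ e, σ (G.rev e) = (σ e)⁻¹) ∧
      ∃ q : ℝ[X], (G.covAdj σ).charpoly = G.adj.charpoly * q ∧ ∀ x, q.IsRoot x → x ≤ ρ := by
  obtain ⟨U, hU1, hU2⟩ := exists_std (k + 1) (Nat.succ_pos k)
  let S : Std (k + 1) := ⟨Nat.succ_pos k, U, hU1, hU2⟩
  -- orientation
  let o : D → ℕ := fun e => (Fintype.equivFin D e : ℕ)
  have ho : Function.Injective o := by
    intro a b hab
    exact (Fintype.equivFin D).injective (Fin.ext hab)
  let ι : Type := {e : D // o e < o (G.rev e)}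
  have hor : ∀ i j : ι, i ≠ j → i.1 ≠ j.1 ∧ i.1 ≠ G.rev j.1 := by
    intro i j hij
    refine ⟨fun h => hij (Subtype.ext h), fun h => ?_⟩
    have h1 := i.2
    have h2 := j.2
    rw [h, G.rev_rev] at h1
    omega
  obtain ⟨g, hg⟩ := exists_good G (fun i : ι => i.1) hor S ρ hRB
  -- the permutations
  let τ : D → Equiv.Perm (Fin (k + 2)) := fun e =>
    if h : o e < o (G.rev e) then
      (if G.src e = G.tgt e then g ⟨e, h⟩ * cyc k * (g ⟨e, h⟩)⁻¹ else g ⟨e, h⟩)
    else 1
  let σ : D → Equiv.Perm (Fin (k + 2)) := fun e =>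
    if o e < o (G.rev e) then τ e else (τ (G.rev e))⁻¹
  have hlt : ∀ e, o e < o (G.rev e) ∨ o (G.rev e) < o (G.rev (G.rev e)) := by
    intro e
    rw [G.rev_rev]
    have : o e ≠ o (G.rev e) := fun h => G.rev_ne e (ho h).symm
    omega
  have hσ : ∀ e, σ (G.rev e) = (σ e)⁻¹ := by
    intro e
    simp only [σ]
    by_cases h : o e < o (G.rev e)
    · have h' : ¬ o (G.rev e) < o (G.rev (G.rev e)) := by
        rw [G.rev_rev]; omega
      rw [if_neg h', if_pos h, G.rev_rev]
    · have h' : o (G.rev e) < o (G.rev (G.rev e)) := (hlt e).resolve_left h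
      rw [if_pos h', if_neg h, inv_inv]
  refine ⟨σ, hσ, (newM G S σ).charpoly, cover_charpoly G S σ, ?_⟩
  intro x hx
  apply hg x
  have heq : ∑ i : ι, term G S.Bc i.1 (S.pi (g i)) = newM G S σ := by
    unfold newM
    set f : D → Matrix (V × Fin (k + 1)) (V × Fin (k + 1)) ℝ := fun e =>
      io (Fin (k + 1)) (G.src e) * S.pi (σ e) * (io (Fin (k + 1)) (G.tgt e))ᵀ with hf
    have h1 : ∀ i : ι, term G S.Bc i.1 (S.pi (g i)) = f i.1 + f (G.rev i.1) := by
      rintro ⟨e, he⟩
      simp only [hf]
      have hte : G.tgt (G.rev e) = G.src e := by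
        unfold MGraph.tgt; rw [G.rev_rev]
      have hse : G.src (G.rev e) = G.tgt e := rfl
      rw [hσ e, hte, hse, S.pi_inv]
      have hσe : σ e = if G.src e = G.tgt e then g ⟨e, he⟩ * cyc k * (g ⟨e, he⟩)⁻¹
          else g ⟨e, he⟩ := by
        simp only [σ, τ]
        rw [if_pos he, dif_pos he]
      unfold term
      by_cases h : G.src e = G.tgt e
      · rw [if_pos h]
        rw [if_pos h] at hσe
        rw [hσe, ← h, ← Matrix.add_mul, ← Matrix.mul_add]
        congr 2
        rw [S.pi_mul, S.pi_mul, S.pi_inv]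
        unfold Std.Bc
        rw [transpose_mul, transpose_mul, transpose_transpose, Matrix.mul_add, Matrix.add_mul]
        simp only [Matrix.mul_assoc]
      · rw [if_neg h]
        rw [if_neg h] at hσe
        rw [hσe]
    simp only [h1]
    rw [Finset.sum_add_distrib]
    have h2 : ∑ e : D, f e = ∑ e ∈ Finset.univ.filter (fun e => o e < o (G.rev e)), f e
        + ∑ e ∈ Finset.univ.filter (fun e => ¬ o e < o (G.rev e)), f e :=
      (Finset.sum_filter_add_sum_filter_not _ _ _).symm
    rw [h2]
    congr 1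
    · rw [← Finset.sum_subtype_eq_sum_filter]
      simp
      rfl
    · have h3 : ∑ e ∈ Finset.univ.filter (fun e => ¬ o e < o (G.rev e)), f e
          = ∑ e ∈ Finset.univ.filter (fun e => o e < o (G.rev e)), f (G.rev e) := by
        apply Finset.sum_nbij' (fun e => G.rev e) (fun e => G.rev e)
        · intro e he
          simp only [Finset.mem_filter, Finset.mem_univ, true_and] at he ⊢
          exact (hlt e).resolve_left he
        · intro e he
          simp only [Finset.mem_filter, Finset.mem_univ, true_and] at he ⊢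
          rw [G.rev_rev]; omega
        · intro e _; exact G.rev_rev e
        · intro e _; exact G.rev_rev e
        · intro e _; rw [G.rev_rev]
      rw [h3, ← Finset.sum_subtype_eq_sum_filter]
      simp
      rfl
  rw [heq]
  exact hx

end Pool.Agent.W130.RC
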