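import Mathlib

/-!
# Multigraphs with loops, coverings, and the universal covering tree
-/

set_option autoImplicit false

open Polynomial

namespace Pool.Agent.W130.RC

/-- A graph with vertex set `V` in which multiple edges and loops are allowed, given by its
oriented edges `D`: the initial vertex `src e` of an oriented edge `e`, and the opposite
orientation `rev e`. Reversal is an involution without fixed points, so every edge, a loop
included, gives exactly two oriented edges. -/
structure MGraph (V D : Type) where
  src : D → V
  rev : D → D
  rev_rev : ∀ e, rev (rev e) = e
  rev_ne : ∀ e, rev e ≠ e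

variable {V D : Type}

/-- terminal vertex of an oriented edge -/
def MGraph.tgt (G : MGraph V D) (e : D) : V := G.src (G.rev e)

/-- connectedness: any two vertices are joined by a walk -/
def MGraph.Connected (G : MGraph V D) : Prop :=
  ∀ u v, Relation.ReflTransGen (fun a b => ∃ e, G.src e = a ∧ G.tgt e = b) u v

/-- adjacency matrix: the entry at `(u, v)` is the number of oriented edges from `u` to `v` -/
def MGraph.adj [Fintype V] [DecidableEq V] [Fintype D] (G : MGraph V D) : Matrix V V ℝ :=
  Matrix.of (fun u v => ∑ e : D, if G.src e = u ∧ G.tgt e = v then 1 else 0)

/-- adjacency matrix of the covering given by permutations `σ e` of `r` sheets: the block at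
`(u, v)` is the sum, over the oriented edges `e` from `u` to `v`, of the permutation matrices of
`σ e` (the matrix with entry `1` at `(i, j)` if `i = σ e j` and `0` otherwise) -/
def MGraph.covAdj [Fintype V] [DecidableEq V] [Fintype D] (G : MGraph V D) {r : ℕ}
    (σ : D → Equiv.Perm (Fin r)) : Matrix (V × Fin r) (V × Fin r) ℝ :=
  Matrix.of (fun x y => ∑ e : D, if G.src e = x.1 ∧ G.tgt e = y.1 ∧ x.2 = σ e y.2 then 1 else 0)

/-- the oriented edge `f` may be appended to the non-backtracking walk `p` that starts at `v`;
walks are written with their last oriented edge first -/
def MGraph.ok (G : MGraph V D) (v : V) (f : D) : List D → Prop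
  | [] => G.src f = v
  | f0 :: _ => G.src f = G.tgt f0 ∧ f ≠ G.rev f0

/-- non-backtracking walks starting at `v`, written with the last oriented edge first -/
def MGraph.Red (G : MGraph V D) (v : V) : List D → Prop
  | [] => True
  | f :: p => G.ok v f p ∧ MGraph.Red G v p

/-- the vertices of the universal covering tree of (the component of `v` in) the graph: the
non-backtracking walks that start at `v` -/
abbrev MGraph.Tree (G : MGraph V D) (v : V) : Type := {q : List D // G.Red v q}

/-- adjacency in the universal covering tree: one of the two walks extends the other by one
oriented edge -/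
def MGraph.TAdj (G : MGraph V D) (v : V) (a b : G.Tree v) : Prop :=
  (∃ f, b.1 = f :: a.1) ∨ (∃ f, a.1 = f :: b.1)

/-- the Hilbert space of square summable complex functions on the vertices of the tree -/
def MGraph.L2 (G : MGraph V D) (v : V) : Type := lp (fun _ : G.Tree v => ℂ) 2

/-- the usual norm on this space -/
noncomputable instance MGraph.instNorm (G : MGraph V D) (v : V) :
    NormedAddCommGroup (G.L2 v) :=
  (lp.normedAddCommGroup : NormedAddCommGroup (lp (fun _ : G.Tree v => ℂ) 2))

/-- the usual vector space structure on this space -/
noncomputable instance MGraph.instSpace (G : MGraph V D) (v : V) : NormedSpace ℂ (G.L2 v) :=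
  (lp.instNormedSpace : NormedSpace ℂ (lp (fun _ : G.Tree v => ℂ) 2))

/-- bounded operators on this space -/
abbrev MGraph.Op (G : MGraph V D) (v : V) : Type := G.L2 v →L[ℂ] G.L2 v

/-- value of a square summable function at a vertex -/
def MGraph.val {G : MGraph V D} {v : V} (f : G.L2 v) (a : G.Tree v) : ℂ :=
  (show lp (fun _ : G.Tree v => ℂ) 2 from f).1 a

/-- `A` is the adjacency operator of the universal covering tree, acting on the square summable
functions on its vertices -/
def MGraph.IsAdjOp (G : MGraph V D) (v : V) (A : G.Op v) : Prop :=
  ∀ (f : G.L2 v) (a : G.Tree v),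
    MGraph.val (A f) a = ∑ᶠ (b : G.Tree v) (_ : G.TAdj v a b), MGraph.val f b

/-- the spectral radius of an operator: the supremum of the absolute values of the points of its
spectrum -/
noncomputable def MGraph.specRad {G : MGraph V D} {v : V} (A : G.Op v) : ℝ :=
  (spectralRadius ℂ A).toReal

end Pool.Agent.W130.RC
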