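import Pool.Agent.W130.RC.Vertex
import Pool.Agent.W130.RC.Tree

/-!
# Positivity of matching expansions of graphs immersed in a multigraph
-/

set_option autoImplicit false

open Matrix

namespace Pool.Agent.W130.RC

variable {V D : Type} [Fintype D] [DecidableEq D] [DecidableEq V]
variable {N : Type*} [Fintype N] [DecidableEq N]

/-- forget labels -/
def und (L : List (N × N × D)) : List (N × N) := L.map (fun t => (t.1, t.2.1))

/-- half edges at `v`: label and neighbour -/
def half (G : MGraph V D) (L : List (N × N × D)) (v : N) : List (D × N) :=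
  L.flatMap (fun t => (if t.1 = v then [(t.2.2, t.2.1)] else [])
    ++ (if t.2.1 = v then [(G.rev t.2.2, t.1)] else []))

/-- an immersion of a graph with labelled edges -/
structure Imm (G : MGraph V D) (p : N → V) (L : List (N × N × D)) : Prop where
  ne : ∀ t ∈ L, t.1 ≠ t.2.1
  src : ∀ t ∈ L, p t.1 = G.src t.2.2
  tgt : ∀ t ∈ L, p t.2.1 = G.tgt t.2.2
  nodup : ∀ v, ((half G L v).map Prod.fst).Nodup

omit [Fintype D] [DecidableEq D] [DecidableEq V] [Fintype N] in
lemma mem_half (G : MGraph V D) (L : List (N × N × D)) (v : N) (y : D × N) :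
    y ∈ half G L v ↔ (v, y.2, y.1) ∈ L ∨ (y.2, v, G.rev y.1) ∈ L := by
  obtain ⟨f, w⟩ := y
  unfold half
  rw [List.mem_flatMap]
  constructor
  · rintro ⟨⟨a, b, e⟩, ht, hy⟩
    rw [List.mem_append] at hy
    rcases hy with hy | hy
    · simp only at hy
      split_ifs at hy with h
      · simp only [List.mem_singleton, Prod.mk.injEq] at hy
        obtain ⟨rfl, rfl⟩ := hy
        subst h
        exact Or.inl ht
      · simp at hy
    · simp only at hy
      split_ifs at hy with h
      · simp only [List.mem_singleton, Prod.mk.injEq] at hy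
        obtain ⟨rfl, rfl⟩ := hy
        subst h
        right
        simp only
        rw [G.rev_rev]
        exact ht
      · simp at hy
  · rintro (h | h)
    · refine ⟨_, h, ?_⟩
      simp
    · refine ⟨_, h, ?_⟩
      simp [G.rev_rev]

omit [Fintype D] [DecidableEq D] [DecidableEq V] [Fintype N] in
lemma half_symm (G : MGraph V D) (L : List (N × N × D)) (v w : N) (f : D)
    (h : (f, w) ∈ half G L v) : (G.rev f, v) ∈ half G L w := by
  rw [mem_half] at h ⊢
  simp only at h ⊢
  rw [G.rev_rev]
  exact h.symm

omit [Fintype D] [DecidableEq D] [DecidableEq V] [Fintype N] in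
lemma sum_half (G : MGraph V D) (L : List (N × N × D)) (S : Finset N) (v : N)
    (f : Finset N → ℝ) : ((und L).map (ctr S v f)).sum
      = ((half G L v).map (fun y => if y.2 ∉ insert v S then f (insert y.2 (insert v S))
        else 0)).sum := by
  induction L with
  | nil => simp [und, half]
  | cons t L ih =>
    obtain ⟨a, b, e⟩ := t
    have h1 : und ((a, b, e) :: L) = (a, b) :: und L := rfl
    have h2 : half G ((a, b, e) :: L) v = ((if a = v then [(e, b)] else [])
        ++ (if b = v then [(G.rev e, a)] else [])) ++ half G L v := rfl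
    rw [h1, h2, List.map_cons, List.sum_cons, ih, List.map_append, List.map_append,
      List.sum_append, List.sum_append]
    congr 1
    unfold ctr
    simp only
    by_cases ha : a = v <;> by_cases hb : b = v <;> simp [ha, hb]

omit [Fintype D] [DecidableEq V] in
lemma Imm.uniq {G : MGraph V D} {p : N → V} {L : List (N × N × D)} (h : Imm G p L)
    {v w w' : N} {f : D} (h1 : (f, w) ∈ half G L v) (h2 : (f, w') ∈ half G L v) : w = w' := by
  have hn := h.nodup v
  have := List.inj_on_of_nodup_map hn h1 h2 rfl
  exact (Prod.mk.injEq _ _ _ _ ▸ this).2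

omit [Fintype D] [DecidableEq V] in
lemma Imm.psrc {G : MGraph V D} {p : N → V} {L : List (N × N × D)} (h : Imm G p L)
    {v w : N} {f : D} (h1 : (f, w) ∈ half G L v) : G.src f = p v := by
  rw [mem_half] at h1
  rcases h1 with h1 | h1
  · exact (h.src _ h1).symm
  · have := h.tgt _ h1
    simp only [MGraph.tgt, G.rev_rev] at this
    exact this.symm

omit [Fintype D] [DecidableEq V] in
lemma Imm.ptgt {G : MGraph V D} {p : N → V} {L : List (N × N × D)} (h : Imm G p L)
    {v w : N} {f : D} (h1 : (f, w) ∈ half G L v) : G.tgt f = p w := by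
  have := h.psrc (half_symm G L v w f h1)
  exact this

lemma sum_bound (H : List (D × N)) (hH : (H.map Prod.fst).Nodup) (F : Finset D) (g : D → ℝ)
    (hg : ∀ f, 0 ≤ g f) (c : D × N → ℝ)
    (hc : ∀ y ∈ H, c y ≤ if y.1 ∈ F then g y.1 else 0) :
    (H.map c).sum ≤ ∑ f ∈ F, g f := by
  have h1 : (H.map c).sum ≤ (H.map (fun y => if y.1 ∈ F then g y.1 else 0)).sum :=
    List.sum_le_sum hc
  have h2 : (H.map (fun y => if y.1 ∈ F then g y.1 else 0)).sum
      = ((H.map Prod.fst).map (fun f => if f ∈ F then g f else 0)).sum := by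
    rw [List.map_map]; rfl
  have h3 : ((H.map Prod.fst).map (fun f => if f ∈ F then g f else 0)).sum
      = ∑ f ∈ (H.map Prod.fst).toFinset, (if f ∈ F then g f else 0) :=
    (List.sum_toFinset _ hH).symm
  have h4 : ∑ f ∈ (H.map Prod.fst).toFinset, (if f ∈ F then g f else 0)
      ≤ ∑ f : D, (if f ∈ F then g f else 0) := by
    apply Finset.sum_le_sum_of_subset_of_nonneg (Finset.subset_univ _)
    intro f _ _
    split_ifs
    · exact hg f
    · exact le_refl _
  have h5 : ∑ f : D, (if f ∈ F then g f else 0) = ∑ f ∈ F, g f := by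
    rw [Finset.sum_ite_mem, Finset.univ_inter]
  linarith

/-- positivity of the matching expansion -/
theorem mu_pos (G : MGraph V D) (ρ x : ℝ) (hx : ρ < x) (hRB : ∀ v, G.RB v ρ)
    (p : N → V) (L : List (N × N × D)) (hL : Imm G p L) : ∀ (n : ℕ),
    (∀ S : Finset N, (Sᶜ).card = n → 0 < mu (x • (1 : Matrix N N ℝ)) (und L) S) ∧
    (∀ (S : Finset N) (v : N) (f : D), (Sᶜ).card = n → v ∉ S → G.tgt f = p v →
      (∀ w, (G.rev f, w) ∈ half G L v → w ∈ S) →
      mu (x • (1 : Matrix N N ℝ)) (und L) (insert v S)
        ≤ G.gr x n f * mu (x • (1 : Matrix N N ℝ)) (und L) S) := by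
  have hLne : ∀ e ∈ und L, e.1 ≠ e.2 := by
    intro e he
    simp only [und, List.mem_map] at he
    obtain ⟨t, ht, rfl⟩ := he
    exact hL.ne t ht
  intro n
  induction n with
  | zero =>
    constructor
    · intro S hS
      have hSu : S = Finset.univ := by
        rw [Finset.card_eq_zero] at hS
        exact (Finset.compl_eq_empty_iff S).1 hS
      subst hSu
      have : ∀ L' : List (N × N), mu (x • (1 : Matrix N N ℝ)) L' Finset.univ = 1 := by
        intro L'
        induction L' with
        | nil => rw [mu, det_Rr_scalar]; simp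
        | cons e L' ih => rw [mu, ih]; simp
      rw [this]; exact one_pos
    · intro S v f hS hv _ _
      exfalso
      have : 0 < (Sᶜ).card := Finset.card_pos.2 ⟨v, Finset.mem_compl.2 hv⟩
      omega
  | succ n ih =>
    obtain ⟨ihA, ihB⟩ := ih
    have hcard : ∀ (S : Finset N) (v : N), (Sᶜ).card = n + 1 → v ∉ S →
        ((insert v S)ᶜ).card = n := by
      intro S v hS hv
      rw [Finset.compl_insert, Finset.card_erase_of_mem (Finset.mem_compl.2 hv), hS]
      omega
    -- general lower bound
    have key : ∀ (S : Finset N) (v : N) (F : Finset D), (Sᶜ).card = n + 1 → v ∉ S →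
        (∀ y ∈ half G L v, y.2 ∉ insert v S → y.1 ∈ F) →
        mu (x • (1 : Matrix N N ℝ)) (und L) (insert v S) * (x - ∑ f ∈ F, G.gr x n f)
          ≤ mu (x • (1 : Matrix N N ℝ)) (und L) S := by
      intro S v F hS hv hF
      have hpos := ihA (insert v S) (hcard S v hS hv)
      rw [vertex_rec x (und L) hLne S v hv, sum_half G L S v]
      set m := mu (x • (1 : Matrix N N ℝ)) (und L) (insert v S) with hm
      have hb := sum_bound (half G L v) (hL.nodup v) F (fun f => G.gr x n f * m)
        (fun f => mul_nonneg ((gr_pos G ρ x hx hRB n).1 f) hpos.le)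
        (fun y => if y.2 ∉ insert v S then
          mu (x • (1 : Matrix N N ℝ)) (und L) (insert y.2 (insert v S)) else 0) (by
        rintro ⟨f, w⟩ hy
        simp only
        by_cases hw : w ∉ insert v S
        · rw [if_pos hw, if_pos (hF (f, w) hy hw)]
          apply ihB (insert v S) w f (hcard S v hS hv) hw (hL.ptgt hy)
          intro w' hw'
          have h1 := half_symm G L v w f hy
          have := hL.uniq hw' h1
          rw [this]; exact Finset.mem_insert_self _ _
        · rw [if_neg hw]
          split_ifs
          · exact mul_nonneg ((gr_pos G ρ x hx hRB n).1 f) hpos.le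
          · exact le_refl _)
      rw [← Finset.sum_mul] at hb
      linarith
    constructor
    · intro S hS
      have hne : (Sᶜ).Nonempty := Finset.card_pos.1 (by omega)
      obtain ⟨v, hv⟩ := hne
      rw [Finset.mem_compl] at hv
      have h1 := key S v (Finset.univ.filter (fun f => G.src f = p v)) hS hv (by
        rintro ⟨f, w⟩ hy _
        rw [Finset.mem_filter]
        exact ⟨Finset.mem_univ _, hL.psrc hy⟩)
      have h2 := (gr_pos G ρ x hx hRB n).2 (p v)
      have h3 := ihA (insert v S) (hcard S v hS hv)
      have h4 : 0 < mu (x • (1 : Matrix N N ℝ)) (und L) (insert v S) *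
          (x - ∑ f ∈ Finset.univ.filter (fun f => G.src f = p v), G.gr x n f) :=
        mul_pos h3 (by linarith)
      linarith
    · intro S v f hS hv hfv hblock
      have h1 := key S v (Finset.univ.filter (fun f' => G.src f' = G.tgt f ∧ f' ≠ G.rev f))
        hS hv (by
        rintro ⟨f', w⟩ hy hw
        rw [Finset.mem_filter]
        refine ⟨Finset.mem_univ _, ?_, ?_⟩
        · rw [hfv]; exact hL.psrc hy
        · rintro rfl
          exact hw (Finset.mem_insert_of_mem (hblock w hy)))
      have h2 := (gr_pos G ρ x hx hRB n).2 (G.tgt f)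
      have h3 : ∑ f' ∈ Finset.univ.filter (fun f' => G.src f' = G.tgt f ∧ f' ≠ G.rev f),
          G.gr x n f' ≤ ∑ f' ∈ Finset.univ.filter (fun f' => G.src f' = G.tgt f),
          G.gr x n f' := by
        apply Finset.sum_le_sum_of_subset_of_nonneg
        · intro f' hf'
          simp only [Finset.mem_filter, Finset.mem_univ, true_and] at hf' ⊢
          exact hf'.1
        · intro f' _ _
          exact (gr_pos G ρ x hx hRB n).1 f'
      rw [MGraph.gr]
      have hd : 0 < x - ∑ f' ∈ Finset.univ.filter
          (fun f' => G.src f' = G.tgt f ∧ f' ≠ G.rev f), G.gr x n f' := by linarith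
      rw [one_div, inv_mul_eq_div, le_div_iff₀ hd]
      exact h1

end Pool.Agent.W130.RC
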