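import Pool.Agent.W130.RC.StdRep
import Pool.Agent.W130.RC.Positive

/-!
# Block embeddings
-/

set_option autoImplicit false

open Matrix Polynomial

namespace Pool.Agent.W130.RC

section io

variable {V : Type*} [Fintype V] [DecidableEq V] {J : Type*} [Fintype J] [DecidableEq J]

variable (J) in
/-- inclusion of the block at `v` -/
def io (v : V) : Matrix (V × J) J ℝ := Matrix.of (fun x j => if x.1 = v ∧ x.2 = j then 1 else 0)

omit [Fintype V] [Fintype J] in
lemma io_apply (v : V) (x : V × J) (j : J) : io J v x j = if x.1 = v ∧ x.2 = j then 1 else 0 := rfl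

lemma io_self (v : V) : (io J v)ᵀ * io J v = 1 := by
  ext i j
  rw [Matrix.mul_apply, Fintype.sum_prod_type]
  simp only [transpose_apply, io_apply]
  rw [Finset.sum_eq_single v, Finset.sum_eq_single i]
  · simp [Matrix.one_apply]
  · intro b _ hb; simp [hb]
  · intro h; exact absurd (Finset.mem_univ _) h
  · intro b _ hb; simp [hb]
  · intro h; exact absurd (Finset.mem_univ _) h

lemma io_ne {u v : V} (h : u ≠ v) : (io J u)ᵀ * io J v = 0 := by
  ext i j
  rw [Matrix.mul_apply, Fintype.sum_prod_type]
  simp only [transpose_apply, io_apply]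
  apply Finset.sum_eq_zero; intro a _
  apply Finset.sum_eq_zero; intro b _
  by_cases ha : a = u
  · subst ha; simp [h]
  · simp [ha]

omit [Fintype V] in
/-- entries of an embedded block -/
lemma io_block (u v : V) (Q : Matrix J J ℝ) (x y : V × J) :
    (io J u * Q * (io J v)ᵀ) x y = if x.1 = u ∧ y.1 = v then Q x.2 y.2 else 0 := by
  rw [Matrix.mul_apply]
  have h1 : ∀ b, (io J u * Q) x b = if x.1 = u then Q x.2 b else 0 := by
    intro b
    rw [Matrix.mul_apply]
    by_cases hx : x.1 = u
    · rw [if_pos hx, Finset.sum_eq_single x.2]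
      · simp [io_apply, hx]
      · intro c _ hc; simp [io_apply, Ne.symm hc]
      · intro h; exact absurd (Finset.mem_univ _) h
    · rw [if_neg hx]
      apply Finset.sum_eq_zero; intro c _
      simp [io_apply, hx]
  simp only [h1, transpose_apply, io_apply]
  by_cases hx : x.1 = u
  · by_cases hy : y.1 = v
    · rw [Finset.sum_eq_single y.2]
      · simp [hx, hy]
      · intro c _ hc; simp [Ne.symm hc]
      · intro h; exact absurd (Finset.mem_univ _) h
    · simp [hy]
  · simp [hx]

/-- the block matrix with `Q` at `v` and identities elsewhere -/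
def emb (v : V) (Q : Matrix J J ℝ) : Matrix (V × J) (V × J) ℝ :=
  1 + io J v * (Q - 1) * (io J v)ᵀ

lemma emb_one (v : V) : emb v (1 : Matrix J J ℝ) = 1 := by
  unfold emb; simp

lemma emb_mul (v : V) (Q R : Matrix J J ℝ) : emb v (Q * R) = emb v Q * emb v R := by
  unfold emb
  have h : io J v * (Q - 1) * (io J v)ᵀ * (io J v * (R - 1) * (io J v)ᵀ)
      = io J v * ((Q - 1) * (R - 1)) * (io J v)ᵀ := by
    calc io J v * (Q - 1) * (io J v)ᵀ * (io J v * (R - 1) * (io J v)ᵀ)
        = io J v * (Q - 1) * ((io J v)ᵀ * io J v) * ((R - 1) * (io J v)ᵀ) := by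
          simp only [Matrix.mul_assoc]
      _ = io J v * ((Q - 1) * (R - 1)) * (io J v)ᵀ := by
          rw [io_self, Matrix.mul_one]; simp only [Matrix.mul_assoc]
  rw [add_mul, mul_add, mul_add, h, one_mul, one_mul, mul_one]
  have e : (Q * R - 1 : Matrix J J ℝ) = (Q - 1) + (R - 1) + (Q - 1) * (R - 1) := by noncomm_ring
  rw [e]
  simp only [Matrix.mul_add, Matrix.add_mul]
  abel

/-- the embedding as a homomorphism -/
def embHom (v : V) : Matrix J J ℝ →* Matrix (V × J) (V × J) ℝ where
  toFun := emb v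
  map_one' := emb_one v
  map_mul' := emb_mul v

lemma emb_io_self (v : V) (Q : Matrix J J ℝ) : emb v Q * io J v = io J v * Q := by
  unfold emb
  rw [Matrix.add_mul, Matrix.one_mul, Matrix.mul_assoc (io J v * (Q - 1)), io_self, Matrix.mul_one,
    Matrix.mul_sub, Matrix.mul_one]
  abel

lemma emb_io_ne {u v : V} (h : u ≠ v) (Q : Matrix J J ℝ) : emb u Q * io J v = io J v := by
  unfold emb
  rw [Matrix.add_mul, Matrix.one_mul, Matrix.mul_assoc (io J u * (Q - 1)), io_ne h, Matrix.mul_zero,
    add_zero]

lemma io_emb_self (v : V) (Q : Matrix J J ℝ) : (io J v)ᵀ * (emb v Q)ᵀ = Qᵀ * (io J v)ᵀ := by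
  rw [← transpose_mul, emb_io_self, transpose_mul]

lemma io_emb_ne {u v : V} (h : u ≠ v) (Q : Matrix J J ℝ) : (io J v)ᵀ * (emb u Q)ᵀ = (io J v)ᵀ := by
  rw [← transpose_mul, emb_io_ne h]

lemma emb_refl (v : V) (w : J → ℝ) :
    emb v (1 - vecMulVec w w) = 1 - vecMulVec (io J v *ᵥ w) (io J v *ᵥ w) := by
  unfold emb
  rw [show (1 : Matrix J J ℝ) - vecMulVec w w - 1 = - vecMulVec w w by abel, Matrix.mul_neg,
    Matrix.neg_mul, Matrix.mul_vecMulVec, Matrix.vecMulVec_mul, Matrix.vecMul_transpose]
  abel

lemma io_norm (v : V) (w : J → ℝ) : (io J v *ᵥ w) ⬝ᵥ (io J v *ᵥ w) = w ⬝ᵥ w := by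
  rw [dotProduct_mulVec, ← mulVec_transpose, mulVec_mulVec, io_self, one_mulVec]

end io

section term

variable {V D : Type} [Fintype V] [DecidableEq V] [Fintype D] [DecidableEq D] {k : ℕ}

/-- the block matrix of an edge: for an ordinary edge the matrix `Q` between the blocks, for a
loop the conjugate of `B` -/
def term (G : MGraph V D) (B : Matrix (Fin k) (Fin k) ℝ) (e : D)
    (Q : Matrix (Fin k) (Fin k) ℝ) : Matrix (V × Fin k) (V × Fin k) ℝ :=
  if G.src e = G.tgt e then io (Fin k) (G.src e) * (Q * B * Qᵀ) * (io (Fin k) (G.src e))ᵀ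
  else io (Fin k) (G.src e) * Q * (io (Fin k) (G.tgt e))ᵀ + io (Fin k) (G.tgt e) * Qᵀ * (io (Fin k) (G.src e))ᵀ

lemma term_conj (G : MGraph V D) (B : Matrix (Fin k) (Fin k) ℝ) (e : D)
    (Q : Matrix (Fin k) (Fin k) ℝ) :
    emb (G.src e) Q * term G B e 1 * (emb (G.src e) Q)ᵀ = term G B e Q := by
  unfold term
  by_cases h : G.src e = G.tgt e
  · rw [if_pos h, if_pos h]
    set v := G.src e
    rw [transpose_one, Matrix.one_mul, Matrix.mul_one]
    calc emb v Q * (io (Fin k) v * B * (io (Fin k) v)ᵀ) * (emb v Q)ᵀ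
        = (emb v Q * io (Fin k) v) * B * ((io (Fin k) v)ᵀ * (emb v Q)ᵀ) := by simp only [Matrix.mul_assoc]
      _ = io (Fin k) v * (Q * B * Qᵀ) * (io (Fin k) v)ᵀ := by
          rw [emb_io_self, io_emb_self]; simp only [Matrix.mul_assoc]
  · rw [if_neg h, if_neg h]
    set u := G.src e
    set v := G.tgt e
    rw [transpose_one, Matrix.mul_one, Matrix.mul_one, Matrix.mul_add, Matrix.add_mul]
    congr 1
    · calc emb u Q * (io (Fin k) u * (io (Fin k) v)ᵀ) * (emb u Q)ᵀ
          = (emb u Q * io (Fin k) u) * ((io (Fin k) v)ᵀ * (emb u Q)ᵀ) := by simp only [Matrix.mul_assoc]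
        _ = io (Fin k) u * Q * (io (Fin k) v)ᵀ := by rw [emb_io_self, io_emb_ne h]
    · calc emb u Q * (io (Fin k) v * (io (Fin k) u)ᵀ) * (emb u Q)ᵀ
          = (emb u Q * io (Fin k) v) * ((io (Fin k) u)ᵀ * (emb u Q)ᵀ) := by simp only [Matrix.mul_assoc]
        _ = io (Fin k) v * Qᵀ * (io (Fin k) u)ᵀ := by
          rw [emb_io_ne h, io_emb_self]; simp only [Matrix.mul_assoc]

lemma term_symm (G : MGraph V D) (B : Matrix (Fin k) (Fin k) ℝ) (hB : B.IsSymm) (e : D)
    (Q : Matrix (Fin k) (Fin k) ℝ) : (term G B e Q).IsSymm := by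
  unfold term Matrix.IsSymm
  by_cases h : G.src e = G.tgt e
  · rw [if_pos h]
    rw [transpose_mul, transpose_mul, transpose_mul, transpose_mul, transpose_transpose,
      transpose_transpose, hB]
    simp only [Matrix.mul_assoc]
  · rw [if_neg h]
    rw [transpose_add, transpose_mul, transpose_mul, transpose_mul, transpose_mul,
      transpose_transpose, transpose_transpose, transpose_transpose, add_comm]
    simp only [Matrix.mul_assoc]

/-- the action on the blocks -/
def actE {ι : Type} [DecidableEq ι] (G : MGraph V D) (e : ι → D) (S : Std k) :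
    Act ι (V × Fin k) (Fin (k + 1)) where
  ρ := fun i => (embHom (G.src (e i))).comp S.piHom
  swp := by
    intro i a b hab
    refine ⟨io (Fin k) (G.src (e i)) *ᵥ S.dv a b, ?_, ?_⟩
    · rw [io_norm, S.dv_norm a b hab]
    · show emb (G.src (e i)) (S.pi (Equiv.swap a b)) = _
      rw [S.pi_swap a b hab, emb_refl]

lemma actE_apply {ι : Type} [DecidableEq ι] (G : MGraph V D) (e : ι → D) (S : Std k) (i : ι)
    (σ : Equiv.Perm (Fin (k + 1))) : (actE G e S).ρ i σ = emb (G.src (e i)) (S.pi σ) := rfl

/-- iterated averages of a function of the matrix, over a family -/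
noncomputable def itAvg {ι : Type} (G : MGraph V D) (e : ι → D) (R : RootAvg k)
    (B : Matrix (Fin k) (Fin k) ℝ) :
    List ι → Matrix (V × Fin k) (V × Fin k) ℝ → ℝ
  | [], M => M.det
  | i :: L, M => (Fintype.card R.Γ : ℝ)⁻¹ * ∑ γ, itAvg G e R B L (M - term G B (e i) (R.g γ))

/-- relation with the operator average -/
lemma avgL_eval {ι : Type} [DecidableEq ι] [Fintype ι] (G : MGraph V D) (e : ι → D) (S : Std k)
    (B : Matrix (Fin k) (Fin k) ℝ) (x : ℝ) : ∀ (L : List ι) (_ : L.Nodup)
    (A : ι → Matrix (V × Fin k) (V × Fin k) ℝ) (_ : ∀ j ∈ L, A j = term G B (e j) 1),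
    (avgL (actE G e S) L (fun A => (∑ i, A i).charpoly) A).eval x
      = itAvg G e S.rootAvg B L (x • 1 - ∑ j ∈ Finset.univ.filter (fun j => j ∉ L), A j) := by
  intro L
  induction L with
  | nil =>
    intro _ A _
    simp only [avgL, itAvg]
    rw [Matrix.eval_charpoly]
    congr 2
    · ext i j; simp [Matrix.scalar_apply, Matrix.one_apply, Matrix.diagonal_apply]
    · simp
  | cons i L ih =>
    intro hL A hA
    rw [List.nodup_cons] at hL
    simp only [avgL, avgI, itAvg]
    rw [eval_mul, eval_C, eval_finsetSum]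
    show _ = (Fintype.card (Equiv.Perm (Fin (k + 1))) : ℝ)⁻¹ *
      ∑ σ : Equiv.Perm (Fin (k + 1)), itAvg G e S.rootAvg B L
        (x • 1 - ∑ j ∈ Finset.univ.filter (fun j => j ∉ i :: L), A j - term G B (e i) (S.pi σ))
    congr 1
    apply Finset.sum_congr rfl
    intro σ _
    rw [ih hL.2 (upd i ((actE G e S).ρ i σ) A)]
    · congr 1
      rw [sub_sub]
      congr 1
      have hset : Finset.univ.filter (fun j => j ∉ L)
          = insert i (Finset.univ.filter (fun j => j ∉ i :: L)) := by
        ext j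
        simp only [Finset.mem_filter, Finset.mem_univ, true_and, Finset.mem_insert,
          List.mem_cons, not_or]
        constructor
        · intro h
          by_cases hj : j = i
          · exact Or.inl hj
          · exact Or.inr ⟨hj, h⟩
        · rintro (rfl | h)
          · exact hL.1
          · exact h.2
      rw [hset, Finset.sum_insert (by simp)]
      have h1 : upd i ((actE G e S).ρ i σ) A i = term G B (e i) (S.pi σ) := by
        unfold upd
        rw [Function.update_self, actE_apply, hA i List.mem_cons_self, term_conj]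
      rw [h1, add_comm]
      congr 1
      apply Finset.sum_congr rfl
      intro j hj
      simp only [Finset.mem_filter, Finset.mem_univ, true_and, List.mem_cons, not_or] at hj
      unfold upd
      rw [Function.update_of_ne hj.1]
    · intro j hj
      have hji : j ≠ i := by rintro rfl; exact hL.1 hj
      unfold upd
      rw [Function.update_of_ne hji]
      exact hA j (List.mem_cons_of_mem _ hj)

end term

end Pool.Agent.W130.RC
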