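import Pool.Agent.W130.RC.Loop

/-!
# Existence of a good choice of permutations
-/

set_option autoImplicit false

open Matrix Polynomial

namespace Pool.Agent.W130.RC

section quad

variable {n : Type*} [Fintype n] [DecidableEq n]

/-- a symmetric matrix without eigenvalues above `ρ` -/
lemma quad_le (A : Matrix n n ℝ) (hA : A.IsHermitian) (ρ : ℝ)
    (h : ∀ x, ρ < x → 0 < A.charpoly.eval x) (y : n → ℝ) : y ⬝ᵥ (A *ᵥ y) ≤ ρ * (y ⬝ᵥ y) := by
  have hev : ∀ i, hA.eigenvalues i ≤ ρ := by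
    intro i
    by_contra hc
    push Not at hc
    have h1 := h _ hc
    rw [hA.charpoly_eq, eval_prod, Finset.prod_eq_zero (Finset.mem_univ i)] at h1
    · exact lt_irrefl _ h1
    · simp
  have star_tr : ∀ M : Matrix n n ℝ, star M = Mᵀ := by
    intro M; rw [Matrix.star_eq_conjTranspose, Matrix.conjTranspose_eq_transpose_of_trivial]
  obtain ⟨V, hV⟩ : ∃ V : Matrix n n ℝ, V = (hA.eigenvectorUnitary : Matrix n n ℝ) := ⟨_, rfl⟩
  have o1 : Vᵀ * V = 1 := by rw [← star_tr, hV]; exact Unitary.coe_star_mul_self _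
  have o2 : V * Vᵀ = 1 := mul_eq_one_comm.1 o1
  have e1 : A = V * diagonal (hA.eigenvalues) * Vᵀ := by
    have := hA.spectral_theorem
    rw [Unitary.conjStarAlgAut_apply, ← Unitary.coe_star] at this
    rw [← star_tr, hV]
    exact this
  have e2 : y ⬝ᵥ (A *ᵥ y) = ∑ i, hA.eigenvalues i * ((Vᵀ *ᵥ y) i * (Vᵀ *ᵥ y) i) := by
    conv_lhs => rw [e1]
    rw [← mulVec_mulVec, ← mulVec_mulVec, dotProduct_mulVec, ← mulVec_transpose, dotProduct]
    apply Finset.sum_congr rfl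
    intro i _
    rw [mulVec_diagonal]
    ring
  have e3 : y ⬝ᵥ y = ∑ i, (Vᵀ *ᵥ y) i * (Vᵀ *ᵥ y) i := by
    have : y ⬝ᵥ y = (Vᵀ *ᵥ y) ⬝ᵥ (Vᵀ *ᵥ y) := by
      rw [dotProduct_mulVec, vecMul_transpose, mulVec_mulVec, o2, one_mulVec]
    rw [this]; rfl
  rw [e2, e3, Finset.mul_sum]
  apply Finset.sum_le_sum
  intro i _
  exact mul_le_mul_of_nonneg_right (hev i) (mul_self_nonneg _)

/-- roots of the characteristic polynomial below the quadratic form bound -/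
lemma root_le (A : Matrix n n ℝ) (ρ : ℝ) (h : ∀ y : n → ℝ, y ⬝ᵥ (A *ᵥ y) ≤ ρ * (y ⬝ᵥ y)) (x : ℝ)
    (hx : A.charpoly.IsRoot x) : x ≤ ρ := by
  rw [Polynomial.IsRoot, Matrix.eval_charpoly] at hx
  obtain ⟨y, hy, hy0⟩ := Matrix.exists_mulVec_eq_zero_iff.2 hx
  rw [sub_mulVec] at hy0
  have h1 : A *ᵥ y = x • y := by
    have : (Matrix.scalar n x) *ᵥ y = x • y := by
      rw [Matrix.scalar_apply]
      ext i
      rw [mulVec_diagonal]; rfl
    rw [this] at hy0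
    exact (sub_eq_zero.1 hy0).symm
  have h2 := h y
  rw [h1, dotProduct_smul, smul_eq_mul] at h2
  have h3 : 0 < y ⬝ᵥ y := by
    have h4 : 0 ≤ y ⬝ᵥ y := Finset.sum_nonneg (fun i _ => mul_self_nonneg _)
    rcases h4.lt_or_eq with h4 | h4
    · exact h4
    · exact absurd (dotProduct_self_eq_zero.1 h4.symm) hy
  exact le_of_mul_le_mul_right h2 h3

end quad

variable {V D : Type} [Fintype V] [DecidableEq V] [Fintype D] [DecidableEq D] {k : ℕ}

/-- a good choice for the path matrices -/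
theorem exists_good_path {ι : Type} [Fintype ι] [DecidableEq ι] [Nonempty V] (G : MGraph V D)
    (e : ι → D) (hor : ∀ i j, i ≠ j → e i ≠ e j ∧ e i ≠ G.rev (e j)) (S : Std (k + 1)) (ρ : ℝ)
    (hRB : ∀ v, G.RB v ρ) :
    ∃ g : ι → Equiv.Perm (Fin (k + 2)), ∀ x, ρ < x →
      0 < (∑ i, term G S.Bp (e i) (S.pi (g i))).charpoly.eval x := by
  obtain ⟨n, hn⟩ : ∃ n, Fintype.card (V × Fin (k + 1)) = n + 1 := by
    have : 0 < Fintype.card (V × Fin (k + 1)) := Fintype.card_pos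
    exact ⟨_, (Nat.succ_pred_eq_of_pos this).symm⟩
  have hD := isD_charpoly (ι := ι) n hn
  set A : ι → Matrix (V × Fin (k + 1)) (V × Fin (k + 1)) ℝ := fun i => term G S.Bp (e i) 1
    with hA
  have hsymm : Symm A := fun i => term_symm G S.Bp S.Bp_symm (e i) 1
  obtain ⟨V1, V2, Λ, o1, o2, b1, b2⟩ := S.Bp_diag
  have hgood := good_avgL (actE G e S) (Finset.univ : Finset ι).toList
  obtain ⟨_, hsel⟩ := hgood n _ hD
  have hpos : ∀ x, ρ < x → 0 < (avgL (actE G e S) (Finset.univ : Finset ι).toList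
      (fun A => (∑ i, A i).charpoly) A).eval x := by
    intro x hx
    rw [avgL_eval G e S S.Bp x _ (Finset.nodup_toList _) A (fun j _ => rfl)]
    have h0 : Finset.univ.filter (fun j : ι => j ∉ (Finset.univ : Finset ι).toList) = ∅ := by
      ext j; simp
    rw [h0, Finset.sum_empty, sub_zero, b1,
      itAvg_compare G e S.rootAvg (signedAvg (Nat.succ_pos k)) V1 V2 Λ o1 o2, ← b2]
    exact signed_pos G e hor ρ x hx hRB _ (Finset.nodup_toList _)
  obtain ⟨A', ⟨g, hg⟩, _, hA'⟩ := hsel A hsymm ρ hpos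
  refine ⟨g, fun x hx => ?_⟩
  have h1 := hA' x hx
  have h2 : ∀ i, A' i = term G S.Bp (e i) (S.pi (g i)) := by
    intro i
    rw [hg i]
    exact term_conj G S.Bp (e i) (S.pi (g i))
  simp only [h2] at h1
  exact h1

/-- the cycle matrix is below the path matrix -/
lemma term_quad (G : MGraph V D) (S : Std (k + 1)) (e : D) (Q : Matrix (Fin (k + 1)) (Fin (k + 1)) ℝ)
    (y : V × Fin (k + 1) → ℝ) :
    y ⬝ᵥ (term G S.Bc e Q *ᵥ y) ≤ y ⬝ᵥ (term G S.Bp e Q *ᵥ y) := by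
  unfold term
  by_cases h : G.src e = G.tgt e
  · rw [if_pos h, if_pos h, S.Bp_sub_Bc]
    set w := S.Uᵀ *ᵥ dEnd k
    set v := G.src e
    have e1 : io (Fin (k + 1)) v * (Q * (S.Bc + vecMulVec w w) * Qᵀ) * (io (Fin (k + 1)) v)ᵀ
        = io (Fin (k + 1)) v * (Q * S.Bc * Qᵀ) * (io (Fin (k + 1)) v)ᵀ
          + vecMulVec (io (Fin (k + 1)) v *ᵥ (Q *ᵥ w)) (io (Fin (k + 1)) v *ᵥ (Q *ᵥ w)) := by
      rw [Matrix.mul_add, Matrix.add_mul, Matrix.mul_add, Matrix.add_mul]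
      congr 1
      rw [Matrix.mul_vecMulVec, Matrix.vecMulVec_mul, vecMul_transpose, Matrix.mul_vecMulVec,
        Matrix.vecMulVec_mul, vecMul_transpose]
    rw [e1, add_mulVec, dotProduct_add]
    have h2 : 0 ≤ y ⬝ᵥ (vecMulVec (io (Fin (k + 1)) v *ᵥ (Q *ᵥ w))
        (io (Fin (k + 1)) v *ᵥ (Q *ᵥ w)) *ᵥ y) := by
      set z := io (Fin (k + 1)) v *ᵥ (Q *ᵥ w)
      rw [vecMulVec_mulVec]
      have : y ⬝ᵥ (MulOpposite.op (z ⬝ᵥ y) • z) = (z ⬝ᵥ y) * (z ⬝ᵥ y) := by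
        have h3 : (MulOpposite.op (z ⬝ᵥ y) • z) = (z ⬝ᵥ y) • z := by
          ext i; simp [mul_comm]
        rw [h3, dotProduct_smul, smul_eq_mul, dotProduct_comm y z]
      rw [this]
      exact mul_self_nonneg _
    linarith
  · rw [if_neg h, if_neg h]

/-- a good choice for the cycles -/
theorem exists_good {ι : Type} [Fintype ι] [DecidableEq ι] [Nonempty V] (G : MGraph V D)
    (e : ι → D) (hor : ∀ i j, i ≠ j → e i ≠ e j ∧ e i ≠ G.rev (e j)) (S : Std (k + 1)) (ρ : ℝ)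
    (hRB : ∀ v, G.RB v ρ) :
    ∃ g : ι → Equiv.Perm (Fin (k + 2)), ∀ x,
      (∑ i, term G S.Bc (e i) (S.pi (g i))).charpoly.IsRoot x → x ≤ ρ := by
  obtain ⟨g, hg⟩ := exists_good_path G e hor S ρ hRB
  refine ⟨g, fun x hx => ?_⟩
  apply root_le _ ρ _ x hx
  intro y
  have hH : (∑ i, term G S.Bp (e i) (S.pi (g i))).IsHermitian := by
    unfold Matrix.IsHermitian
    rw [conjTranspose_eq_transpose_of_trivial, transpose_sum]
    exact Finset.sum_congr rfl (fun i _ => term_symm G S.Bp S.Bp_symm (e i) _)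
  have h1 := quad_le _ hH ρ hg y
  have h2 : y ⬝ᵥ ((∑ i, term G S.Bc (e i) (S.pi (g i))) *ᵥ y)
      ≤ y ⬝ᵥ ((∑ i, term G S.Bp (e i) (S.pi (g i))) *ᵥ y) := by
    rw [sum_mulVec, sum_mulVec, dotProduct_sum, dotProduct_sum]
    exact Finset.sum_le_sum (fun i _ => term_quad G S (e i) _ y)
  exact h2.trans h1

end Pool.Agent.W130.RC
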