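import Pool.Agent.W130.RC.Pick

/-!
# Selection from a mixture of two polynomials with a common companion
-/

set_option autoImplicit false

open Polynomial Complex Filter Topology

namespace Pool.Agent.W130.RC

/-- the Wronskian is nonnegative on the real line -/
lemma wronsk_nonneg (f h : ℝ[X]) (hfh : ∀ z : ℂ, 0 < z.im → 0 < (aeval z f / aeval z h).im)
    (x : ℝ) : 0 ≤ f.derivative.eval x * h.eval x - f.eval x * h.derivative.eval x := by
  set φ : ℝ → ℝ := fun t => (aeval ((x : ℂ) + Complex.I * t) f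
    * (starRingEnd ℂ) (aeval ((x : ℂ) + Complex.I * t) h)).im with hφ
  have hline : HasDerivAt (fun t : ℝ => (x : ℂ) + Complex.I * t) Complex.I 0 := by
    have h1 : HasDerivAt (fun t : ℝ => (t : ℂ)) 1 (0 : ℝ) := Complex.ofRealCLM.hasDerivAt
    simpa using (h1.const_mul Complex.I).const_add (x : ℂ)
  have hpoly : ∀ q : ℝ[X], HasDerivAt (fun t : ℝ => aeval ((x : ℂ) + Complex.I * t) q)
      (((q.derivative.eval x : ℝ) : ℂ) * Complex.I) 0 := by
    intro q
    have h1 : HasDerivAt (fun z : ℂ => aeval z q) (aeval ((x : ℂ) + Complex.I * ((0 : ℝ) : ℂ)) q.derivative)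
        ((x : ℂ) + Complex.I * ((0 : ℝ) : ℂ)) := Polynomial.hasDerivAt_aeval q _
    have h2 := h1.comp_of_eq (0 : ℝ) hline rfl
    have h3 : aeval ((x : ℂ) + Complex.I * ((0 : ℝ) : ℂ)) q.derivative
        = ((q.derivative.eval x : ℝ) : ℂ) := by
      simp only [Complex.ofReal_zero, mul_zero, add_zero]
      exact Polynomial.aeval_algebraMap_apply_eq_algebraMap_eval x q.derivative
    rw [h3] at h2
    exact h2
  have hval : ∀ q : ℝ[X], aeval ((x : ℂ) + Complex.I * ((0 : ℝ) : ℂ)) q = ((q.eval x : ℝ) : ℂ) := by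
    intro q
    simp only [Complex.ofReal_zero, mul_zero, add_zero]
    exact Polynomial.aeval_algebraMap_apply_eq_algebraMap_eval x q
  have hconj : HasDerivAt (fun t : ℝ => (starRingEnd ℂ) (aeval ((x : ℂ) + Complex.I * t) h))
      ((starRingEnd ℂ) (((h.derivative.eval x : ℝ) : ℂ) * Complex.I)) 0 :=
    Complex.conjCLE.toContinuousLinearMap.hasFDerivAt.comp_hasDerivAt (0 : ℝ) (hpoly h)
  have hprod := (hpoly f).mul hconj
  have him : HasDerivAt φ (f.derivative.eval x * h.eval x - f.eval x * h.derivative.eval x) 0 := by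
    have h1 := Complex.imCLM.hasFDerivAt.comp_hasDerivAt (0 : ℝ) hprod
    refine h1.congr_deriv ?_
    rw [hval f, hval h]
    simp
    ring
  have h0 : φ 0 = 0 := by
    simp only [hφ]
    rw [hval f, hval h]
    simp
  have hpos : ∀ t : ℝ, 0 < t → 0 < φ t := by
    intro t ht
    have h1 := hfh ((x : ℂ) + Complex.I * t) (by simpa using ht)
    set a := aeval ((x : ℂ) + Complex.I * t) f
    set b := aeval ((x : ℂ) + Complex.I * t) h
    have hb : b ≠ 0 := by
      intro hb; rw [hb] at h1; simp at h1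
    have h2 : (a * (starRingEnd ℂ) b).im = (a / b).im * Complex.normSq b := by
      have : a * (starRingEnd ℂ) b = (a / b) * ((Complex.normSq b : ℝ) : ℂ) := by
        rw [← Complex.mul_conj]; field_simp
      rw [this, Complex.mul_im]; simp
    show 0 < (a * (starRingEnd ℂ) b).im
    rw [h2]
    exact mul_pos h1 (Complex.normSq_pos.2 hb)
  by_contra hneg
  push Not at hneg
  have := him.tendsto_slope
  have h2 : ∀ᶠ t in 𝓝[≠] (0 : ℝ), slope φ 0 t < 0 := this.eventually_lt_const hneg
  have h3 : ∀ᶠ t in 𝓝[>] (0 : ℝ), slope φ 0 t < 0 :=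
    h2.filter_mono (nhdsWithin_mono _ (fun y hy => ne_of_gt hy))
  obtain ⟨t, ht, ht0⟩ := (h3.and self_mem_nhdsWithin).exists
  have ht0' : (0 : ℝ) < t := ht0
  rw [slope_def_field, h0, sub_zero, sub_zero] at ht
  have := div_pos (hpos t ht0') ht0'
  linarith

lemma ratio_mono (f h : ℝ[X]) (hfh : ∀ z : ℂ, 0 < z.im → 0 < (aeval z f / aeval z h).im)
    (b : ℝ) (hb : ∀ x, b < x → 0 < h.eval x) :
    MonotoneOn (fun x => f.eval x / h.eval x) (Set.Ioi b) := by
  have hd : ∀ x ∈ Set.Ioi b, HasDerivAt (fun x => f.eval x / h.eval x)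
      ((f.derivative.eval x * h.eval x - f.eval x * h.derivative.eval x) / (h.eval x) ^ 2) x := by
    intro x hx
    exact (f.hasDerivAt x).div (h.hasDerivAt x) (hb x hx).ne'
  apply monotoneOn_of_deriv_nonneg (convex_Ioi b)
  · intro x hx; exact (hd x hx).continuousAt.continuousWithinAt
  · rw [interior_Ioi]; intro x hx; exact (hd x hx).differentiableAt.differentiableWithinAt
  · rw [interior_Ioi]; intro x hx
    rw [(hd x hx).deriv]
    exact div_nonneg (wronsk_nonneg f h hfh x) (sq_nonneg _)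

/-- at the largest zero of the companion the polynomial is nonpositive -/
lemma at_top_root (f h : ℝ[X]) (hfh : ∀ z : ℂ, 0 < z.im → 0 < (aeval z f / aeval z h).im)
    (b : ℝ) (hb : ∀ x, b < x → 0 < h.eval x) (hb0 : h.eval b = 0) : f.eval b ≤ 0 := by
  have hm := ratio_mono f h hfh b hb
  have h1 : Tendsto (fun x => f.eval x) (𝓝[>] b) (𝓝 (f.eval b)) :=
    (f.continuous.tendsto b).mono_left nhdsWithin_le_nhds
  have h2 : Tendsto (fun x => (f.eval (b + 1) / h.eval (b + 1)) * h.eval x) (𝓝[>] b)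
      (𝓝 ((f.eval (b + 1) / h.eval (b + 1)) * h.eval b)) :=
    ((continuous_const.mul h.continuous).tendsto b).mono_left nhdsWithin_le_nhds
  rw [hb0, mul_zero] at h2
  refine le_of_tendsto_of_tendsto h1 h2 ?_
  have h3 : ∀ᶠ x in 𝓝[>] b, x ∈ Set.Ioo b (b + 1) := Ioo_mem_nhdsGT (by linarith)
  filter_upwards [h3] with x hx
  have h4 := hm hx.1 (show b < b + 1 by linarith) hx.2.le
  have h5 := hb x hx.1
  simp only at h4
  rw [div_le_iff₀ h5] at h4
  exact h4

theorem select (f g h : ℝ[X]) (hfh : ∀ z : ℂ, 0 < z.im → 0 < (aeval z f / aeval z h).im)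
    (hgh : ∀ z : ℂ, 0 < z.im → 0 < (aeval z g / aeval z h).im) (hm : h.Monic)
    (hd : 1 ≤ h.natDegree) (p : ℝ) (hp0 : 0 ≤ p) (hp1 : p ≤ 1) (x0 : ℝ)
    (hpos : ∀ x, x0 < x → 0 < (1 - p) * f.eval x + p * g.eval x) :
    (∀ x, x0 < x → 0 < f.eval x) ∨ (∀ x, x0 < x → 0 < g.eval x) := by
  by_cases hh : ∀ x, x0 < x → 0 < h.eval x
  · by_contra hcon
    push Not at hcon
    obtain ⟨⟨x1, hx1, hf1⟩, ⟨x2, hx2, hg2⟩⟩ := hcon
    have m1 := ratio_mono f h hfh x0 hh
    have m2 := ratio_mono g h hgh x0 hh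
    set x := min x1 x2 with hx
    have hx0 : x0 < x := lt_min hx1 hx2
    have a1 := m1 hx0 hx1 (min_le_left _ _)
    have a2 := m2 hx0 hx2 (min_le_right _ _)
    simp only at a1 a2
    have b1 : f.eval x ≤ 0 := by
      have : f.eval x1 / h.eval x1 ≤ 0 := div_nonpos_of_nonpos_of_nonneg hf1 (hh x1 hx1).le
      have h3 : f.eval x / h.eval x ≤ 0 := a1.trans this
      rw [div_le_iff₀ (hh x hx0)] at h3
      simpa using h3
    have b2 : g.eval x ≤ 0 := by
      have : g.eval x2 / h.eval x2 ≤ 0 := div_nonpos_of_nonpos_of_nonneg hg2 (hh x2 hx2).le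
      have h3 : g.eval x / h.eval x ≤ 0 := a2.trans this
      rw [div_le_iff₀ (hh x hx0)] at h3
      simpa using h3
    have := hpos x hx0
    have c1 : (1 - p) * f.eval x ≤ 0 := mul_nonpos_of_nonneg_of_nonpos (by linarith) b1
    have c2 : p * g.eval x ≤ 0 := mul_nonpos_of_nonneg_of_nonpos hp0 b2
    linarith
  · exfalso
    push Not at hh
    obtain ⟨x1, hx1, h1⟩ := hh
    set Z : Set ℝ := {x | x1 ≤ x ∧ h.eval x ≤ 0} with hZ
    have hcl : IsClosed Z := by
      have : Z = Set.Ici x1 ∩ (fun x => h.eval x) ⁻¹' (Set.Iic 0) := by ext; simp [hZ]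
      rw [this]
      exact isClosed_Ici.inter (isClosed_Iic.preimage h.continuous)
    have hne : Z.Nonempty := ⟨x1, le_refl _, h1⟩
    have htop : Tendsto (fun x => h.eval x) atTop atTop :=
      h.tendsto_atTop_of_leadingCoeff_nonneg (Polynomial.natDegree_pos_iff_degree_pos.1 hd)
        (by rw [hm.leadingCoeff]; norm_num)
    obtain ⟨M, hM⟩ := Filter.eventually_atTop.1 (htop.eventually_gt_atTop 0)
    have hbd : BddAbove Z := by
      refine ⟨M, ?_⟩
      intro x hx
      by_contra hc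
      push Not at hc
      have := hM x hc.le
      have := hx.2
      linarith
    have hβ : sSup Z ∈ Z := hcl.csSup_mem hne hbd
    set β := sSup Z with hβd
    have hab : ∀ x, β < x → 0 < h.eval x := by
      intro x hx
      by_contra hc
      push Not at hc
      have : x ∈ Z := ⟨(hβ.1.trans hx.le), hc⟩
      have := le_csSup hbd this
      linarith
    have hβ0 : h.eval β = 0 := by
      apply le_antisymm hβ.2
      have h1 : Tendsto (fun x => h.eval x) (𝓝[>] β) (𝓝 (h.eval β)) :=
        (h.continuous.tendsto β).mono_left nhdsWithin_le_nhds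
      refine ge_of_tendsto h1 ?_
      filter_upwards [self_mem_nhdsWithin] with x hx
      exact (hab x hx).le
    have c1 := at_top_root f h hfh β hab hβ0
    have c2 := at_top_root g h hgh β hab hβ0
    have := hpos β (lt_of_lt_of_le hx1 hβ.1)
    have d1 : (1 - p) * f.eval β ≤ 0 := mul_nonpos_of_nonneg_of_nonpos (by linarith) c1
    have d2 : p * g.eval β ≤ 0 := mul_nonpos_of_nonneg_of_nonpos hp0 c2
    linarith

end Pool.Agent.W130.RC
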