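import Pool.Agent.W130.RC.ClassD
import Pool.Agent.W130.RC.Select

/-!
# Good averaging operators
-/

set_option autoImplicit false

open Polynomial Matrix Equiv

namespace Pool.Agent.W130.RC

variable {ι N α : Type*} [DecidableEq ι] [Fintype N] [DecidableEq N] [DecidableEq α] [Fintype α]

lemma monic_mix {f g : ℝ[X]} {n : ℕ} (hf : f.Monic) (hg : g.Monic) (hfn : f.natDegree = n)
    (hgn : g.natDegree = n) (p : ℝ) :
    (C (1 - p) * f + C p * g).Monic ∧ (C (1 - p) * f + C p * g).natDegree = n := by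
  have hle : (C (1 - p) * f + C p * g).natDegree ≤ n := by
    refine natDegree_add_le_of_degree_le ?_ ?_
    · exact (natDegree_C_mul_le _ _).trans hfn.le
    · exact (natDegree_C_mul_le _ _).trans hgn.le
  have hc : (C (1 - p) * f + C p * g).coeff n = 1 := by
    rw [coeff_add, coeff_C_mul, coeff_C_mul]
    have h1 : f.coeff n = 1 := by rw [← hfn]; exact hf
    have h2 : g.coeff n = 1 := by rw [← hgn]; exact hg
    rw [h1, h2]; ring
  have hm := monic_of_natDegree_le_of_coeff_eq_one n hle hc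
  refine ⟨hm, le_antisymm hle ?_⟩
  apply le_natDegree_of_ne_zero
  rw [hc]; exact one_ne_zero

lemma addv_neg_add (i : ι) (b : N → ℝ) (A : ι → Matrix N N ℝ) :
    addv i b 1 (addv i b (-1) A) = A := by
  unfold addv
  rw [Function.update_idem, Function.update_self]
  simp

lemma mulVec_refl_norm (w v : N → ℝ) (hw : w ⬝ᵥ w = 2) :
    ((1 - vecMulVec w w) *ᵥ v) ⬝ᵥ ((1 - vecMulVec w w) *ᵥ v) = v ⬝ᵥ v := by
  have h1 : (1 - vecMulVec w w) *ᵥ v = v - (w ⬝ᵥ v) • w := by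
    rw [sub_mulVec, one_mulVec, vecMulVec_mulVec]
    ext i; simp
  rw [h1, sub_dotProduct, dotProduct_sub, dotProduct_sub, smul_dotProduct, smul_dotProduct,
    dotProduct_smul, dotProduct_smul, hw, dotProduct_comm v w]
  simp only [smul_eq_mul]
  ring

lemma companion {i : ι} {w : N → ℝ} (hw : w ⬝ᵥ w = 2) {A : ι → Matrix N N ℝ} (hA : Symm A) :
    ∃ (B : ι → Matrix N N ℝ) (a b : N → ℝ), a ≠ 0 ∧ b ≠ 0 ∧ Symm B ∧ addv i b 1 B = A ∧
      addv i a 1 B = upd i (1 - vecMulVec w w) A := by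
  obtain ⟨a, b, ha, hb, hab⟩ := reflect_conj w hw (A i) (hA i)
  refine ⟨addv i b (-1) A, a, b, ha, hb, symm_addv hA i b _, addv_neg_add i b A, ?_⟩
  unfold addv upd
  rw [Function.update_idem, Function.update_self]
  congr 1
  have : (1 - vecMulVec w w) * A i * (1 - vecMulVec w w)ᵀ = A i + vecMulVec a a - vecMulVec b b := by
    rw [← hab]; simp
  rw [this]
  simp only [neg_smul, one_smul]
  abel

lemma IsD.mix {n : ℕ} {F : (ι → Matrix N N ℝ) → ℝ[X]} (hF : IsD n F) (i : ι) (w : N → ℝ)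
    (hw : w ⬝ᵥ w = 2) (p : ℝ) (hp0 : 0 ≤ p) (hp1 : p ≤ 1) :
    IsD n (fun A => C (1 - p) * F A + C p * F (upd i (1 - vecMulVec w w) A)) where
  monic A hA := (monic_mix (hF.monic A hA) (hF.monic _ (symm_upd hA i _)) (hF.deg A hA)
    (hF.deg _ (symm_upd hA i _)) p).1
  deg A hA := (monic_mix (hF.monic A hA) (hF.monic _ (symm_upd hA i _)) (hF.deg A hA)
    (hF.deg _ (symm_upd hA i _)) p).2
  hyp A hA z hz h0 := by
    obtain ⟨B, a, b, ha, hb, hB, h1, h2⟩ := companion (i := i) hw hA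
    have r1 := hF.ratio hB i hb z hz
    have r2 := hF.ratio hB i ha z hz
    rw [h1] at r1
    rw [h2] at r2
    have h3 : (1 - p) * (aeval z (F A) / aeval z (F B)).im
        + p * (aeval z (F (upd i (1 - vecMulVec w w) A)) / aeval z (F B)).im = 0 := by
      have h4 : ((1 - p : ℝ) : ℂ) * (aeval z (F A) / aeval z (F B))
        + (p : ℂ) * (aeval z (F (upd i (1 - vecMulVec w w) A)) / aeval z (F B)) = 0 := by
        have h5 : ((1 - p : ℝ) : ℂ) * aeval z (F A) + (p : ℂ) * aeval z (F (upd i (1 - vecMulVec w w) A)) = 0 := by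
          simpa using h0
        rw [← mul_div_assoc, ← mul_div_assoc, ← add_div, h5, zero_div]
      have h6 := congrArg Complex.im h4
      simpa only [Complex.add_im, Complex.im_ofReal_mul, Complex.zero_im] using h6
    rcases hp0.lt_or_eq with hp | hp
    · have := mul_pos hp r2
      have := mul_nonneg (sub_nonneg.2 hp1) r1.le
      linarith
    · rw [← hp] at h3
      simp at h3
      linarith
  aff A hA j v s := by
    rw [hF.aff A hA j v s, upd_addv, upd_addv, hF.aff _ (symm_upd hA i _)]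
    ring
  tr A hA j v := by
    have h1 := hF.tr A hA j v
    have h2 := hF.tr _ (symm_upd hA i (1 - vecMulVec w w)) j
      (if j = i then (1 - vecMulVec w w) *ᵥ v else v)
    rw [upd_addv]
    have h3 : (if j = i then (1 - vecMulVec w w) *ᵥ v else v) ⬝ᵥ
        (if j = i then (1 - vecMulVec w w) *ᵥ v else v) = v ⬝ᵥ v := by
      by_cases h : j = i
      · simp only [if_pos h]; exact mulVec_refl_norm w v hw
      · simp only [if_neg h]
    rw [h3] at h2
    rw [coeff_sub] at h1 h2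
    simp only [coeff_sub, coeff_add, coeff_C_mul]
    linear_combination (1 - p) * h1 + p * h2

/-- orthogonal actions of a symmetric group, swaps acting as reflections in vectors of square
length two -/
structure Act (ι N α : Type*) [DecidableEq ι] [Fintype N] [DecidableEq N] [DecidableEq α]
    [Fintype α] where
  ρ : ι → Perm α →* Matrix N N ℝ
  swp : ∀ i a b, a ≠ b → ∃ w : N → ℝ, w ⬝ᵥ w = 2 ∧ ρ i (swap a b) = 1 - vecMulVec w w

/-- the orbit relation -/
def Orb (𝓐 : Act ι N α) (A A' : ι → Matrix N N ℝ) : Prop :=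
  ∃ g : ι → Perm α, ∀ i, A' i = 𝓐.ρ i (g i) * A i * (𝓐.ρ i (g i))ᵀ

lemma Orb.refl (𝓐 : Act ι N α) (A : ι → Matrix N N ℝ) : Orb 𝓐 A A :=
  ⟨fun _ => 1, fun i => by simp⟩

lemma Orb.trans {𝓐 : Act ι N α} {A B D : ι → Matrix N N ℝ} (h1 : Orb 𝓐 A B) (h2 : Orb 𝓐 B D) :
    Orb 𝓐 A D := by
  obtain ⟨g, hg⟩ := h1
  obtain ⟨k, hk⟩ := h2
  refine ⟨fun i => k i * g i, fun i => ?_⟩
  rw [hk i, hg i, map_mul, transpose_mul]
  simp only [Matrix.mul_assoc]

lemma Orb.upd (𝓐 : Act ι N α) (A : ι → Matrix N N ℝ) (i : ι) (σ : Perm α) :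
    Orb 𝓐 A (upd i (𝓐.ρ i σ) A) := by
  refine ⟨fun j => if j = i then σ else 1, fun j => ?_⟩
  by_cases h : j = i
  · subst h; simp [RC.upd]
  · simp [RC.upd, Function.update_of_ne h, h]

/-- operators which preserve the class and allow selection -/
def GoodOp (𝓐 : Act ι N α) (T : ((ι → Matrix N N ℝ) → ℝ[X]) → ((ι → Matrix N N ℝ) → ℝ[X])) :
    Prop :=
  ∀ (n : ℕ) (F : (ι → Matrix N N ℝ) → ℝ[X]), IsD n F → IsD n (T F) ∧
    ∀ A, Symm A → ∀ x0 : ℝ, (∀ x, x0 < x → 0 < (T F A).eval x) →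
      ∃ A', Orb 𝓐 A A' ∧ Symm A' ∧ ∀ x, x0 < x → 0 < (F A').eval x

lemma GoodOp.id (𝓐 : Act ι N α) : GoodOp 𝓐 (fun F => F) :=
  fun _ _ hF => ⟨hF, fun A hA _ h => ⟨A, Orb.refl 𝓐 A, hA, h⟩⟩

lemma GoodOp.comp {𝓐 : Act ι N α}
    {T T' : ((ι → Matrix N N ℝ) → ℝ[X]) → ((ι → Matrix N N ℝ) → ℝ[X])}
    (h : GoodOp 𝓐 T) (h' : GoodOp 𝓐 T') : GoodOp 𝓐 (fun F => T (T' F)) := by
  intro n F hF
  obtain ⟨a1, a2⟩ := h' n F hF
  obtain ⟨b1, b2⟩ := h n (T' F) a1
  refine ⟨b1, ?_⟩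
  intro A hA x0 hpos
  obtain ⟨A', o1, s1, p1⟩ := b2 A hA x0 hpos
  obtain ⟨A'', o2, s2, p2⟩ := a2 A' s1 x0 p1
  exact ⟨A'', o1.trans o2, s2, p2⟩

lemma GoodOp.mix (𝓐 : Act ι N α) (i : ι) (a b : α) (hab : a ≠ b) (p : ℝ) (hp0 : 0 ≤ p)
    (hp1 : p ≤ 1) :
    GoodOp 𝓐 (fun F A => C (1 - p) * F A + C p * F (upd i (𝓐.ρ i (swap a b)) A)) := by
  intro n F hF
  obtain ⟨w, hw, hR⟩ := 𝓐.swp i a b hab
  rw [hR]
  refine ⟨hF.mix i w hw p hp0 hp1, ?_⟩
  intro A hA x0 hpos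
  obtain ⟨B, a', b', ha, hb, hB, h1, h2⟩ := companion (i := i) hw hA
  have r1 := fun z hz => hF.ratio hB i hb z hz
  have r2 := fun z hz => hF.ratio hB i ha z hz
  rw [h1] at r1
  rw [h2] at r2
  have := select (F A) (F (RC.upd i (1 - vecMulVec w w) A)) (F B) r1 r2 (hF.monic B hB)
    (by rw [hF.deg B hB]; omega) p hp0 hp1 x0 (by
      intro x hx
      have := hpos x hx
      simpa using this)
  rcases this with h | h
  · exact ⟨A, Orb.refl 𝓐 A, hA, h⟩
  · refine ⟨RC.upd i (1 - vecMulVec w w) A, ?_, symm_upd hA i _, h⟩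
    rw [← hR]
    exact Orb.upd 𝓐 A i _

end Pool.Agent.W130.RC
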