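import Pool.Agent.W130.RC.Signs

/-!
# Cycles versus paths
-/

set_option autoImplicit false

open Matrix Polynomial

namespace Pool.Agent.W130.RC

/-- incidence matrix of the path with `k + 2` vertices -/
def Dl (k : ℕ) : Matrix (Fin (k + 2)) (Fin (k + 1)) ℝ :=
  Matrix.of (fun i j => (if i = j.castSucc then 1 else 0) - (if i = j.succ then 1 else 0))

lemma Dl_apply (k : ℕ) (i : Fin (k + 2)) (j : Fin (k + 1)) :
    Dl k i j = (if i = j.castSucc then 1 else 0) - (if i = j.succ then 1 else 0) := rfl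

lemma Dl_gram (k : ℕ) : (Dl k)ᵀ * Dl k = (2 : ℝ) • 1 - pathM k := by
  ext a b
  rw [Matrix.mul_apply]
  simp only [transpose_apply, Dl_apply, Matrix.sub_apply, Matrix.smul_apply, Matrix.one_apply,
    pathM, Matrix.sum_apply, Xe_apply, smul_eq_mul]
  have h1 : ∀ i : Fin (k + 2), ((if i = a.castSucc then (1 : ℝ) else 0) - (if i = a.succ then 1 else 0))
      * ((if i = b.castSucc then (1 : ℝ) else 0) - (if i = b.succ then 1 else 0))
      = (if i = a.castSucc then ((if a.castSucc = b.castSucc then (1 : ℝ) else 0)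
          - (if a.castSucc = b.succ then 1 else 0)) else 0)
        - (if i = a.succ then ((if a.succ = b.castSucc then (1 : ℝ) else 0)
          - (if a.succ = b.succ then 1 else 0)) else 0) := by
    intro i
    by_cases h : i = a.castSucc
    · by_cases h' : i = a.succ
      · exfalso
        have := h.symm.trans h'
        exact (Fin.castSucc_lt_succ (i := a)).ne this
      · rw [if_pos h, if_neg h', if_pos h, if_neg h', h]; ring
    · by_cases h' : i = a.succ
      · rw [if_neg h, if_pos h', if_neg h, if_pos h', h']; ring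
      · rw [if_neg h, if_neg h', if_neg h, if_neg h']; ring
  simp only [h1, Finset.sum_sub_distrib, Finset.sum_ite_eq', Finset.mem_univ, if_true]
  have h2 : ∀ c d : Fin (k + 1), ∑ j : Fin k, (if j.castSucc = c ∧ j.succ = d then (1 : ℝ) else 0)
      = if c.succ = d.castSucc then 1 else 0 := by
    intro c d
    by_cases h : c.succ = d.castSucc
    · rw [if_pos h]
      have hc : (c : ℕ) + 1 = (d : ℕ) := by
        have := congrArg Fin.val h
        simpa using this
      have hck : (c : ℕ) < k := by have := d.isLt; omega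
      rw [Finset.sum_eq_single ⟨c, hck⟩]
      · rw [if_pos]
        constructor
        · ext; simp
        · ext; simp [hc]
      · intro j _ hj
        rw [if_neg]
        rintro ⟨h3, _⟩
        apply hj
        ext
        have := congrArg Fin.val h3
        simpa using this
      · intro h; exact absurd (Finset.mem_univ _) h
    · rw [if_neg h]
      apply Finset.sum_eq_zero
      intro j _
      rw [if_neg]
      rintro ⟨h3, h4⟩
      apply h
      rw [← h3, ← h4]
      ext; simp
  rw [Finset.sum_add_distrib, h2 a b]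
  have h3 : ∑ x : Fin k, (if x.succ = a ∧ x.castSucc = b then (1 : ℝ) else 0)
      = if b.succ = a.castSucc then 1 else 0 := by
    rw [← h2 b a]
    apply Finset.sum_congr rfl
    intro x _
    simp only [and_comm]
  rw [h3]
  have e1 : (a.castSucc = b.castSucc) ↔ a = b := Fin.castSucc_inj
  have e2 : (a.succ = b.succ) ↔ a = b := Fin.succ_inj
  have e3 : (a.castSucc = b.succ) ↔ (b.succ = a.castSucc) := eq_comm
  simp only [e1, e2, e3]
  ring

lemma Jm_Dl (k : ℕ) : Jm (k + 1) * Dl k = 0 := by
  ext i j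
  rw [Matrix.mul_apply]
  simp [Jm, Dl_apply, Finset.sum_sub_distrib]

lemma perm_laplace {n : ℕ} (σ : Equiv.Perm (Fin n)) :
    ∑ j : Fin n, vecMulVec (Pi.single j (1 : ℝ) - Pi.single (σ j) 1)
      (Pi.single j (1 : ℝ) - Pi.single (σ j) 1) = (2 : ℝ) • 1 - Pm σ - (Pm σ)ᵀ := by
  ext a b
  rw [Matrix.sum_apply]
  simp only [vecMulVec_apply, Pi.sub_apply, Pi.single_apply, Matrix.sub_apply, Matrix.smul_apply,
    Matrix.one_apply, transpose_apply, Pm_apply, smul_eq_mul]
  have h1 : ∀ j : Fin n, ((if a = j then (1 : ℝ) else 0) - (if a = σ j then 1 else 0))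
      * ((if b = j then (1 : ℝ) else 0) - (if b = σ j then 1 else 0))
      = (if a = j then (if b = a then (1 : ℝ) else 0) else 0)
        - (if a = j then (if b = σ a then (1 : ℝ) else 0) else 0)
        - (if b = j then (if a = σ b then (1 : ℝ) else 0) else 0)
        + (if a = σ j then (if b = a then (1 : ℝ) else 0) else 0) := by
    intro j
    by_cases ha : a = j
    · subst ha
      by_cases hb : b = a
      · subst hb
        by_cases hs : b = σ b
        · simp [← hs]
        · simp [hs]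
      · by_cases hs : a = σ a
        · simp [hb, ← hs]
        · simp [hb, hs]
    · simp only [ha, if_false, zero_sub]
      by_cases hb : b = j
      · subst hb
        by_cases h : a = σ b
        · by_cases h' : b = σ b
          · exfalso; exact ha (h.trans h'.symm)
          · simp [h, h']
        · simp [h]
      · simp only [hb, if_false]
        by_cases h : a = σ j
        · by_cases h' : b = σ j
          · simp [h, h']
          · have : b ≠ a := fun hba => h' (hba.trans h)
            simp [h, h', this]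
        · simp [h]
  simp only [h1, Finset.sum_add_distrib, Finset.sum_sub_distrib, Finset.sum_ite_eq,
    Finset.mem_univ, if_true]
  have h2 : ∑ x : Fin n, (if a = σ x then (if b = a then (1 : ℝ) else 0) else 0)
      = if b = a then 1 else 0 := by
    rw [Finset.sum_eq_single (σ⁻¹ a)]
    · simp
    · intro c _ hc
      rw [if_neg]
      rintro rfl
      simp at hc
    · intro h; exact absurd (Finset.mem_univ _) h
  rw [h2]
  have e1 : (b = a) ↔ (a = b) := eq_comm
  simp only [e1]
  ring

/-- the cycle -/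
def cyc (k : ℕ) : Equiv.Perm (Fin (k + 2)) := finRotate (k + 2)

/-- the difference of the two ends -/
def dEnd (k : ℕ) : Fin (k + 2) → ℝ := Pi.single (Fin.last (k + 1)) (1 : ℝ) - Pi.single 0 1

lemma cyc_eq (k : ℕ) : Pm (cyc k) + (Pm (cyc k))ᵀ
    = (2 : ℝ) • 1 - Dl k * (Dl k)ᵀ - vecMulVec (dEnd k) (dEnd k) := by
  have h := perm_laplace (cyc k)
  rw [Fin.sum_univ_castSucc] at h
  have h1 : cyc k (Fin.last (k + 1)) = 0 := finRotate_last
  rw [h1] at h
  have h2 : ∑ j : Fin (k + 1), vecMulVec (Pi.single j.castSucc (1 : ℝ) - Pi.single (cyc k j.castSucc) 1)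
      (Pi.single j.castSucc (1 : ℝ) - Pi.single (cyc k j.castSucc) 1) = Dl k * (Dl k)ᵀ := by
    ext a b
    rw [Matrix.sum_apply, Matrix.mul_apply]
    apply Finset.sum_congr rfl
    intro j _
    have h3 : cyc k j.castSucc = j.succ := by
      unfold cyc
      rw [finRotate_apply]
      exact Fin.coeSucc_eq_succ
    rw [h3]
    simp only [vecMulVec_apply, Pi.sub_apply, Pi.single_apply, transpose_apply, Dl_apply]
  rw [h2] at h
  have h4 : Pm (cyc k) + (Pm (cyc k))ᵀ = (2 : ℝ) • 1 - ((2 : ℝ) • 1 - Pm (cyc k) - (Pm (cyc k))ᵀ) := by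
    abel
  rw [h4, ← h]
  unfold dEnd
  abel

/-- symmetric matrices with the same characteristic polynomial are simultaneously diagonal in
two orthonormal bases -/
lemma simul_diag {n : Type} [Fintype n] [DecidableEq n] (A B : Matrix n n ℝ) (hA : A.IsHermitian)
    (hB : B.IsHermitian) (h : A.charpoly = B.charpoly) :
    ∃ V1 V2 Λ : Matrix n n ℝ, V1ᵀ * V1 = 1 ∧ V2ᵀ * V2 = 1 ∧ A = V1 * Λ * V1ᵀ ∧
      B = V2 * Λ * V2ᵀ := by
  have he := (hA.eigenvalues_eq_eigenvalues_iff hB).2 h
  have star_tr : ∀ M : Matrix n n ℝ, star M = Mᵀ := by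
    intro M; rw [Matrix.star_eq_conjTranspose, Matrix.conjTranspose_eq_transpose_of_trivial]
  refine ⟨hA.eigenvectorUnitary, hB.eigenvectorUnitary,
    diagonal (RCLike.ofReal ∘ hA.eigenvalues), ?_, ?_, ?_, ?_⟩
  · rw [← star_tr]; exact Unitary.coe_star_mul_self _
  · rw [← star_tr]; exact Unitary.coe_star_mul_self _
  · have := hA.spectral_theorem
    rw [Unitary.conjStarAlgAut_apply, ← Unitary.coe_star] at this
    rw [← star_tr]
    exact this
  · have := hB.spectral_theorem
    rw [Unitary.conjStarAlgAut_apply, ← Unitary.coe_star] at this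
    rw [← star_tr, he]
    exact this

namespace Std

variable {k : ℕ} (S : Std (k + 1))

/-- the matrix of the path in the standard representation -/
def Bp : Matrix (Fin (k + 1)) (Fin (k + 1)) ℝ := (2 : ℝ) • 1 - (S.Uᵀ * Dl k) * (S.Uᵀ * Dl k)ᵀ

/-- the matrix of the cycle in the standard representation -/
def Bc : Matrix (Fin (k + 1)) (Fin (k + 1)) ℝ := S.pi (cyc k) + (S.pi (cyc k))ᵀ

lemma Bp_sub_Bc : S.Bp = S.Bc + vecMulVec (S.Uᵀ *ᵥ dEnd k) (S.Uᵀ *ᵥ dEnd k) := by
  unfold Bp Bc Std.pi
  have h1 : S.Uᵀ * Pm (cyc k) * S.U + (S.Uᵀ * Pm (cyc k) * S.U)ᵀ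
      = S.Uᵀ * (Pm (cyc k) + (Pm (cyc k))ᵀ) * S.U := by
    rw [Matrix.mul_add, Matrix.add_mul, transpose_mul, transpose_mul, transpose_transpose,
      Matrix.mul_assoc S.Uᵀ (Pm (cyc k))ᵀ]
  rw [h1, cyc_eq, Matrix.mul_sub, Matrix.mul_sub, Matrix.sub_mul, Matrix.sub_mul, Matrix.mul_smul,
    Matrix.smul_mul, Matrix.mul_one, S.UtU, transpose_mul, transpose_transpose,
    Matrix.mul_vecMulVec, Matrix.vecMulVec_mul, ← mulVec_transpose]
  simp only [Matrix.mul_assoc]
  abel

lemma Bp_symm : S.Bp.IsSymm := by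
  unfold Bp Matrix.IsSymm
  rw [transpose_sub, transpose_smul, transpose_one, transpose_mul, transpose_transpose]

theorem Bp_diag : ∃ V1 V2 Λ : Matrix (Fin (k + 1)) (Fin (k + 1)) ℝ, V1ᵀ * V1 = 1 ∧
    V2ᵀ * V2 = 1 ∧ S.Bp = V1 * Λ * V1ᵀ ∧ pathM k = V2 * Λ * V2ᵀ := by
  set X := S.Uᵀ * Dl k with hX
  have hXX : Xᵀ * X = (2 : ℝ) • 1 - pathM k := by
    rw [← Dl_gram, hX, transpose_mul, transpose_transpose]
    calc (Dl k)ᵀ * S.U * (S.Uᵀ * Dl k) = (Dl k)ᵀ * (S.U * S.Uᵀ) * Dl k := by
          simp only [Matrix.mul_assoc]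
      _ = (Dl k)ᵀ * Dl k := by
          rw [S.UUt, Matrix.mul_sub, Matrix.sub_mul, Matrix.mul_one, Matrix.mul_smul,
            Matrix.smul_mul, Matrix.mul_assoc, Jm_Dl, Matrix.mul_zero, smul_zero, sub_zero]
  have h1 : (X * Xᵀ).IsHermitian := by
    unfold Matrix.IsHermitian
    rw [conjTranspose_eq_transpose_of_trivial, transpose_mul, transpose_transpose]
  have h2 : (Xᵀ * X).IsHermitian := by
    unfold Matrix.IsHermitian
    rw [conjTranspose_eq_transpose_of_trivial, transpose_mul, transpose_transpose]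
  obtain ⟨V1, V2, Λ, o1, o2, e1, e2⟩ := simul_diag _ _ h1 h2 (charpoly_mul_comm _ _)
  refine ⟨V1, V2, (2 : ℝ) • 1 - Λ, o1, o2, ?_, ?_⟩
  · have o1' : V1 * V1ᵀ = 1 := mul_eq_one_comm.1 o1
    unfold Bp
    rw [← hX, e1, Matrix.mul_sub, Matrix.sub_mul, Matrix.mul_smul, Matrix.smul_mul, Matrix.mul_one,
      o1']
  · have o2' : V2 * V2ᵀ = 1 := mul_eq_one_comm.1 o2
    have : pathM k = (2 : ℝ) • 1 - Xᵀ * X := by rw [hXX]; abel
    rw [this, e2, Matrix.mul_sub, Matrix.sub_mul, Matrix.mul_smul, Matrix.smul_mul, Matrix.mul_one,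
      o2']

end Std

end Pool.Agent.W130.RC
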