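import Mathlib

/-!
# Sign averages of determinants and matching expansions
-/

set_option autoImplicit false

open Matrix

namespace Pool.Agent.W130.RC

variable {N : Type*} [Fintype N] [DecidableEq N]

/-- replace the rows in `S` by unit rows -/
def Rr (S : Finset N) (M : Matrix N N ℝ) : Matrix N N ℝ :=
  Matrix.of (fun i j => if i ∈ S then (if i = j then 1 else 0) else M i j)

omit [Fintype N] in
lemma Rr_apply (S : Finset N) (M : Matrix N N ℝ) (i j : N) :
    Rr S M i j = if i ∈ S then (if i = j then 1 else 0) else M i j := rfl

/-- the adjacency matrix of one edge -/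
def Xe (a b : N) : Matrix N N ℝ := Matrix.single a b 1 + Matrix.single b a 1

omit [Fintype N] in
lemma Xe_apply (a b i j : N) : Xe a b i j
    = (if a = i ∧ b = j then 1 else 0) + (if b = i ∧ a = j then 1 else 0) := by
  simp [Xe, Matrix.single_apply]

omit [Fintype N] in
lemma Xe_symm (a b : N) : Xe a b = Xe b a := by
  unfold Xe; rw [add_comm]

lemma one_edge (M : Matrix N N ℝ) (S : Finset N) (a b : N) (hab : a ≠ b) :
    (Rr S (M - Xe a b)).det + (Rr S (M + Xe a b)).det
      = 2 * ((Rr S M).det - if a ∉ S ∧ b ∉ S then (Rr (insert a (insert b S)) M).det else 0) := by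
  by_cases ha : a ∈ S
  · by_cases hb : b ∈ S
    · have e : ∀ t : ℝ, Rr S (M + t • Xe a b) = Rr S M := by
        intro t
        ext i j
        simp only [Rr_apply, Matrix.add_apply, Matrix.smul_apply, Xe_apply]
        by_cases hi : i ∈ S
        · simp [hi]
        · have h1 : a ≠ i := by rintro rfl; exact hi ha
          have h2 : b ≠ i := by rintro rfl; exact hi hb
          simp [hi, h1, h2]
      have e1 := e (-1)
      have e2 := e 1
      rw [neg_one_smul, ← sub_eq_add_neg] at e1
      rw [one_smul] at e2
      rw [e1, e2, if_neg (fun h => h.1 ha)]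
      ring
    · have e : ∀ t : ℝ, (Rr S (M + t • Xe a b)).det = (Rr S M).det := by
        intro t
        have : Rr S (M + t • Xe a b)
            = (Rr S M).updateRow b ((Rr S M) b + t • (Rr S M) a) := by
          ext i j
          by_cases hib : i = b
          · subst hib
            rw [updateRow_self]
            simp only [Rr_apply, Matrix.add_apply, Matrix.smul_apply, Xe_apply, Pi.add_apply,
              Pi.smul_apply, hb, ha, if_true, if_false, smul_eq_mul, hab, false_and, true_and]
            simp
          · rw [updateRow_ne hib]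
            simp only [Rr_apply, Matrix.add_apply, Matrix.smul_apply, Xe_apply]
            by_cases hi : i ∈ S
            · simp [hi]
            · have h1 : a ≠ i := by rintro rfl; exact hi ha
              simp [hi, h1, Ne.symm hib]
        rw [this, det_updateRow_add_smul_self _ (Ne.symm hab)]
      have e1 := e (-1)
      have e2 := e 1
      rw [neg_one_smul, ← sub_eq_add_neg] at e1
      rw [one_smul] at e2
      rw [e1, e2, if_neg (fun h => h.1 ha)]
      ring
  · by_cases hb : b ∈ S
    · have e : ∀ t : ℝ, (Rr S (M + t • Xe a b)).det = (Rr S M).det := by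
        intro t
        have : Rr S (M + t • Xe a b)
            = (Rr S M).updateRow a ((Rr S M) a + t • (Rr S M) b) := by
          ext i j
          by_cases hib : i = a
          · subst hib
            rw [updateRow_self]
            simp only [Rr_apply, Matrix.add_apply, Matrix.smul_apply, Xe_apply, Pi.add_apply,
              Pi.smul_apply, hb, ha, if_true, if_false, smul_eq_mul, Ne.symm hab, false_and,
              true_and]
            simp
          · rw [updateRow_ne hib]
            simp only [Rr_apply, Matrix.add_apply, Matrix.smul_apply, Xe_apply]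
            by_cases hi : i ∈ S
            · simp [hi]
            · have h1 : b ≠ i := by rintro rfl; exact hi hb
              simp [hi, h1, Ne.symm hib]
        rw [this, det_updateRow_add_smul_self _ hab]
      have e1 := e (-1)
      have e2 := e 1
      rw [neg_one_smul, ← sub_eq_add_neg] at e1
      rw [one_smul] at e2
      rw [e1, e2, if_neg (fun h => h.2 hb)]
      ring
    · rw [if_pos ⟨ha, hb⟩]
      set P := Rr S M with hP
      set ea : N → ℝ := Pi.single a 1 with hea
      set eb : N → ℝ := Pi.single b 1 with heb
      have e : ∀ t : ℝ, Rr S (M + t • Xe a b)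
          = (P.updateRow a (P a + t • eb)).updateRow b (P b + t • ea) := by
        intro t
        ext i j
        by_cases hib : i = b
        · subst hib
          rw [updateRow_self]
          simp only [hP, Rr_apply, Matrix.add_apply, Matrix.smul_apply, Xe_apply, Pi.add_apply,
            Pi.smul_apply, hb, if_false, smul_eq_mul, hab, false_and, true_and, hea,
            Pi.single_apply, eq_comm]
          simp
        · rw [updateRow_ne hib]
          by_cases hia : i = a
          · subst hia
            rw [updateRow_self]
            simp only [hP, Rr_apply, Matrix.add_apply, Matrix.smul_apply, Xe_apply, Pi.add_apply,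
              Pi.smul_apply, ha, if_false, smul_eq_mul, Ne.symm hab, false_and, true_and, heb,
              Pi.single_apply, eq_comm]
            simp
          · rw [updateRow_ne hia]
            simp only [hP, Rr_apply, Matrix.add_apply, Matrix.smul_apply, Xe_apply]
            simp [Ne.symm hia, Ne.symm hib]
      have hb1 : ∀ (Q : Matrix N N ℝ) (r1 r2 s1 s2 : N → ℝ) (t : ℝ),
          ((Q.updateRow a (r1 + t • r2)).updateRow b (s1 + t • s2)).det
          = ((Q.updateRow a r1).updateRow b s1).det + t * ((Q.updateRow a r2).updateRow b s1).det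
            + t * ((Q.updateRow a r1).updateRow b s2).det
            + t * t * ((Q.updateRow a r2).updateRow b s2).det := by
        intro Q r1 r2 s1 s2 t
        rw [det_updateRow_add, det_updateRow_smul, updateRow_comm _ hab, updateRow_comm _ hab,
          det_updateRow_add, det_updateRow_smul, det_updateRow_add, det_updateRow_smul,
          updateRow_comm _ (Ne.symm hab), updateRow_comm _ (Ne.symm hab),
          updateRow_comm _ (Ne.symm hab), updateRow_comm _ (Ne.symm hab)]
        ring
      have hcomm : ((P.updateRow a eb).updateRow b ea).det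
          = - ((P.updateRow a ea).updateRow b eb).det := by
        have : (P.updateRow a eb).updateRow b ea
            = ((P.updateRow a ea).updateRow b eb).submatrix (Equiv.swap a b) id := by
          ext i j
          rw [submatrix_apply, id]
          by_cases hib : i = b
          · subst hib
            rw [updateRow_self, Equiv.swap_apply_right, updateRow_ne hab, updateRow_self]
          · by_cases hia : i = a
            · subst hia
              rw [updateRow_ne hib, updateRow_self, Equiv.swap_apply_left, updateRow_self]
            · rw [Equiv.swap_apply_of_ne_of_ne hia hib, updateRow_ne hib, updateRow_ne hia,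
                updateRow_ne hib, updateRow_ne hia]
        rw [this, Matrix.det_permute, Equiv.Perm.sign_swap hab]
        simp
      have hfin : (P.updateRow a ea).updateRow b eb = Rr (insert a (insert b S)) M := by
        ext i j
        by_cases hib : i = b
        · subst hib
          rw [updateRow_self, Rr_apply, if_pos (by simp), heb, Pi.single_apply]
          simp [eq_comm]
        · by_cases hia : i = a
          · subst hia
            rw [updateRow_ne hib, updateRow_self, Rr_apply, if_pos (by simp), hea,
              Pi.single_apply]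
            simp [eq_comm]
          · rw [updateRow_ne hib, updateRow_ne hia, hP, Rr_apply, Rr_apply]
            simp [hia, hib]
      have hself : (P.updateRow a (P a)).updateRow b (P b) = P := by
        rw [updateRow_eq_self]
        exact updateRow_eq_self _ _
      have e1 := e (-1)
      have e2 := e 1
      rw [neg_one_smul ℝ (Xe a b), ← sub_eq_add_neg] at e1
      rw [one_smul ℝ (Xe a b)] at e2
      rw [e1, e2, hb1, hb1, hcomm, hfin, hself]
      ring

/-- the signed matching expansion -/
noncomputable def mu (M : Matrix N N ℝ) : List (N × N) → Finset N → ℝ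
  | [], S => (Rr S M).det
  | e :: L, S => mu M L S - if e.1 ∉ S ∧ e.2 ∉ S then mu M L (insert e.1 (insert e.2 S)) else 0

/-- average over signs -/
noncomputable def avgS2 (G : Matrix N N ℝ → ℝ) : List (N × N) → Matrix N N ℝ → ℝ
  | [], M => G M
  | e :: L, M => (avgS2 G L (M - Xe e.1 e.2) + avgS2 G L (M + Xe e.1 e.2)) / 2

lemma mu_edge (a b : N) (hab : a ≠ b) (L : List (N × N)) : ∀ (M : Matrix N N ℝ) (S : Finset N),
    (mu (M - Xe a b) L S + mu (M + Xe a b) L S) / 2
      = mu M L S - if a ∉ S ∧ b ∉ S then mu M L (insert a (insert b S)) else 0 := by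
  induction L with
  | nil =>
    intro M S
    simp only [mu]
    rw [one_edge M S a b hab]; ring
  | cons e L ih =>
    intro M S
    obtain ⟨c, d⟩ := e
    simp only [mu]
    have h1 := ih M S
    have h2 := ih M (insert c (insert d S))
    by_cases hcd : c ∉ S ∧ d ∉ S
    · rw [if_pos hcd, if_pos hcd, if_pos hcd]
      by_cases hab' : a ∉ S ∧ b ∉ S
      · rw [if_pos hab'] at h1 ⊢
        by_cases hx : a ∉ insert c (insert d S) ∧ b ∉ insert c (insert d S)
        · have hy : c ∉ insert a (insert b S) ∧ d ∉ insert a (insert b S) := by
            simp only [Finset.mem_insert, not_or] at hx ⊢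
            exact ⟨⟨fun h => hx.1.1 h.symm, fun h => hx.2.1 h.symm, hcd.1⟩,
              ⟨fun h => hx.1.2.1 h.symm, fun h => hx.2.2.1 h.symm, hcd.2⟩⟩
          rw [if_pos hx] at h2
          rw [if_pos hy]
          have hset : insert a (insert b (insert c (insert d S)))
              = insert c (insert d (insert a (insert b S))) := by
            ext z; simp only [Finset.mem_insert]; tauto
          rw [hset] at h2
          linarith
        · have hy : ¬ (c ∉ insert a (insert b S) ∧ d ∉ insert a (insert b S)) := by
            intro hy
            apply hx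
            simp only [Finset.mem_insert, not_or] at hy ⊢
            exact ⟨⟨fun h => hy.1.1 h.symm, fun h => hy.2.1 h.symm, hab'.1⟩,
              ⟨fun h => hy.1.2.1 h.symm, fun h => hy.2.2.1 h.symm, hab'.2⟩⟩
          rw [if_neg hx] at h2
          rw [if_neg hy]
          linarith
      · have hx : ¬ (a ∉ insert c (insert d S) ∧ b ∉ insert c (insert d S)) := by
          intro hx
          apply hab'
          simp only [Finset.mem_insert, not_or] at hx
          exact ⟨hx.1.2.2, hx.2.2.2⟩
        rw [if_neg hab'] at h1 ⊢
        rw [if_neg hx] at h2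
        linarith
    · rw [if_neg hcd, if_neg hcd, if_neg hcd]
      by_cases hab' : a ∉ S ∧ b ∉ S
      · have hy : ¬ (c ∉ insert a (insert b S) ∧ d ∉ insert a (insert b S)) := by
          intro hy
          apply hcd
          simp only [Finset.mem_insert, not_or] at hy
          exact ⟨hy.1.2.2, hy.2.2.2⟩
        rw [if_pos hab'] at h1 ⊢
        rw [if_neg hy]
        linarith
      · rw [if_neg hab'] at h1 ⊢
        linarith

theorem avgS2_det (L : List (N × N)) (hL : ∀ e ∈ L, e.1 ≠ e.2) : ∀ M : Matrix N N ℝ,
    avgS2 Matrix.det L M = mu M L ∅ := by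
  induction L with
  | nil =>
    intro M
    simp only [avgS2, mu]
    congr 1
  | cons e L ih =>
    intro M
    have ih' := ih (fun e he => hL e (List.mem_cons_of_mem _ he))
    simp only [avgS2]
    rw [ih', ih', mu_edge e.1 e.2 (hL e List.mem_cons_self) L M ∅]
    simp [mu]

omit [Fintype N] in
lemma avgS2_append (G : Matrix N N ℝ → ℝ) (L L' : List (N × N)) : ∀ M,
    avgS2 G (L ++ L') M = avgS2 (avgS2 G L') L M := by
  induction L with
  | nil => intro M; rfl
  | cons e L ih => intro M; simp only [List.cons_append, avgS2, ih]

omit [Fintype N] in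
lemma avgS2_sum {T : Type*} (s : Finset T) (c : ℝ) (G : T → Matrix N N ℝ → ℝ)
    (L : List (N × N)) : ∀ M, avgS2 (fun M => c * ∑ t ∈ s, G t M) L M
      = c * ∑ t ∈ s, avgS2 (G t) L M := by
  induction L with
  | nil => intro M; rfl
  | cons e L ih =>
    intro M
    simp only [avgS2, ih]
    rw [← Finset.sum_div, Finset.sum_add_distrib]
    ring

/-- the average over independent signs -/
lemma sum_signs (G : Matrix N N ℝ → ℝ) : ∀ (k : ℕ) (E : Fin k → N × N) (M : Matrix N N ℝ),
    ∑ s : Fin k → ℤˣ, G (M - ∑ j, (((s j : ℤ) : ℝ)) • Xe (E j).1 (E j).2)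
      = 2 ^ k * avgS2 G (List.ofFn E) M := by
  intro k
  induction k with
  | zero =>
    intro E M
    simp [avgS2]
  | succ k ih =>
    intro E M
    rw [List.ofFn_succ]
    simp only [avgS2]
    have h1 := ih (fun j => E j.succ) (M - Xe (E 0).1 (E 0).2)
    have h2 := ih (fun j => E j.succ) (M + Xe (E 0).1 (E 0).2)
    have h3 : ∑ s : Fin (k + 1) → ℤˣ, G (M - ∑ j, (((s j : ℤ) : ℝ)) • Xe (E j).1 (E j).2)
        = ∑ x : ℤˣ × (Fin k → ℤˣ), G (M - (((x.1 : ℤ) : ℝ)) • Xe (E 0).1 (E 0).2
            - ∑ j, (((x.2 j : ℤ) : ℝ)) • Xe (E (Fin.succ j)).1 (E (Fin.succ j)).2) := by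
      refine (Fintype.sum_equiv (Fin.consEquiv (fun _ => ℤˣ)) _ _ ?_).symm
      intro x
      congr 1
      rw [Fin.sum_univ_succ]
      simp only [Fin.consEquiv, Equiv.coe_fn_mk, Fin.cons_zero, Fin.cons_succ]
      rw [sub_sub]
    rw [h3, Fintype.sum_prod_type, UnitsInt.univ, Finset.sum_insert (by decide),
      Finset.sum_singleton]
    simp only [Units.val_one, Int.cast_one, one_smul, Units.val_neg, Int.cast_neg, neg_smul,
      sub_neg_eq_add]
    rw [h1, h2]
    ring

/-- the average over products of consecutive signs -/
lemma sum_signs_path (G : Matrix N N ℝ → ℝ) (k : ℕ) (E : Fin k → N × N) (M : Matrix N N ℝ) :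
    ∑ s : Fin (k + 1) → ℤˣ,
      G (M - ∑ j : Fin k, ((((s j.castSucc * s j.succ : ℤˣ) : ℤ) : ℝ)) • Xe (E j).1 (E j).2)
      = 2 ^ (k + 1) * avgS2 G (List.ofFn E) M := by
  have h3 : ∑ s : Fin (k + 1) → ℤˣ,
      G (M - ∑ j : Fin k, ((((s j.castSucc * s j.succ : ℤˣ) : ℤ) : ℝ)) • Xe (E j).1 (E j).2)
      = ∑ x : ℤˣ × (Fin k → ℤˣ), G (M - ∑ j, (((x.2 j : ℤ) : ℝ)) • Xe (E j).1 (E j).2) := by
    refine Fintype.sum_bijective (fun s : Fin (k + 1) → ℤˣ =>
      (s 0, fun j : Fin k => s j.castSucc * s j.succ)) ?_ _ _ (fun s => rfl)
    rw [Fintype.bijective_iff_injective_and_card]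
    constructor
    · intro s s' h
      rw [Prod.mk.injEq] at h
      obtain ⟨h0, h1⟩ := h
      funext i
      induction i using Fin.induction with
      | zero => exact h0
      | succ j ih =>
        have h2 := congrFun h1 j
        rw [ih] at h2
        exact mul_left_cancel h2
    · simp [Fintype.card_prod, pow_succ, mul_comm]
  rw [h3, Fintype.sum_prod_type]
  simp only [sum_signs, Finset.sum_const, Finset.card_univ, nsmul_eq_mul]
  have : Fintype.card ℤˣ = 2 := by decide
  rw [this]
  push_cast
  ring

end Pool.Agent.W130.RC
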