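import Mathlib

/-!
# Adjacency operators of graphs of bounded degree
-/

set_option autoImplicit false

open scoped ENNReal lp

namespace Pool.Agent.W130.RC

section

variable {T : Type} [DecidableEq T]

/-- the sum over neighbours is square summable -/
lemma nb_bound (nb : T → Finset T) (hs : ∀ a b, b ∈ nb a → a ∈ nb b) (K : ℕ)
    (hK : ∀ a, (nb a).card ≤ K) (f : lp (fun _ : T => ℂ) 2) (s : Finset T) :
    ∑ a ∈ s, ‖∑ b ∈ nb a, f b‖ ^ (2 : ℝ≥0∞).toReal ≤ ((K : ℝ) * ‖f‖) ^ (2 : ℝ≥0∞).toReal := by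
  have h2 : (2 : ℝ≥0∞).toReal = 2 := by simp
  rw [h2]
  simp only [Real.rpow_two]
  have h1 : ∀ a, ‖∑ b ∈ nb a, f b‖ ^ 2 ≤ K * ∑ b ∈ nb a, ‖f b‖ ^ 2 := by
    intro a
    calc ‖∑ b ∈ nb a, f b‖ ^ 2 ≤ (∑ b ∈ nb a, ‖f b‖) ^ 2 := by
          gcongr
          exact norm_sum_le _ _
      _ ≤ (nb a).card * ∑ b ∈ nb a, ‖f b‖ ^ 2 := sq_sum_le_card_mul_sum_sq
      _ ≤ K * ∑ b ∈ nb a, ‖f b‖ ^ 2 := by
          gcongr
          exact hK a
  set u := s.biUnion nb with hu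
  have h3 : ∑ a ∈ s, ∑ b ∈ nb a, ‖f b‖ ^ 2 ≤ K * ∑ b ∈ u, ‖f b‖ ^ 2 := by
    have e1 : ∀ a ∈ s, ∑ b ∈ nb a, ‖f b‖ ^ 2
        = ∑ b ∈ u, if b ∈ nb a then ‖f b‖ ^ 2 else 0 := by
      intro a ha
      rw [Finset.sum_ite_mem]
      congr 1
      rw [Finset.inter_eq_right.2]
      exact Finset.subset_biUnion_of_mem nb ha
    rw [Finset.sum_congr rfl e1, Finset.sum_comm, Finset.mul_sum]
    apply Finset.sum_le_sum
    intro b _
    rw [← Finset.sum_filter, Finset.sum_const, nsmul_eq_mul]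
    gcongr
    calc (s.filter (fun a => b ∈ nb a)).card ≤ (nb b).card := by
          apply Finset.card_le_card
          intro a ha
          rw [Finset.mem_filter] at ha
          exact hs a b ha.2
      _ ≤ K := hK b
  have h4 : ∑ b ∈ u, ‖f b‖ ^ 2 ≤ ‖f‖ ^ 2 := by
    have := lp.sum_rpow_le_norm_rpow (p := 2) (by simp) f u
    rw [h2] at this
    simpa only [Real.rpow_two] using this
  calc ∑ a ∈ s, ‖∑ b ∈ nb a, f b‖ ^ 2 ≤ ∑ a ∈ s, K * ∑ b ∈ nb a, ‖f b‖ ^ 2 :=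
        Finset.sum_le_sum (fun a _ => h1 a)
    _ = K * ∑ a ∈ s, ∑ b ∈ nb a, ‖f b‖ ^ 2 := by rw [Finset.mul_sum]
    _ ≤ K * (K * ∑ b ∈ u, ‖f b‖ ^ 2) := by gcongr
    _ ≤ K * (K * ‖f‖ ^ 2) := by gcongr
    _ = (K * ‖f‖) ^ 2 := by ring

/-- existence of the adjacency operator -/
theorem exists_nbOp (nb : T → Finset T) (hs : ∀ a b, b ∈ nb a → a ∈ nb b) (K : ℕ)
    (hK : ∀ a, (nb a).card ≤ K) :
    ∃ A : lp (fun _ : T => ℂ) 2 →L[ℂ] lp (fun _ : T => ℂ) 2,
      ∀ f a, (A f : T → ℂ) a = ∑ b ∈ nb a, f b := by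
  let L : lp (fun _ : T => ℂ) 2 →ₗ[ℂ] lp (fun _ : T => ℂ) 2 :=
    { toFun := fun f => ⟨fun a => ∑ b ∈ nb a, f b,
        memℓp_gen' (nb_bound nb hs K hK f)⟩
      map_add' := by
        intro f g
        apply lp.ext
        funext a
        show ∑ b ∈ nb a, ((f + g : lp (fun _ : T => ℂ) 2) : T → ℂ) b
          = (∑ b ∈ nb a, f b) + ∑ b ∈ nb a, g b
        simp only [lp.coeFn_add, Pi.add_apply, Finset.sum_add_distrib]
      map_smul' := by
        intro c f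
        apply lp.ext
        funext a
        show ∑ b ∈ nb a, ((c • f : lp (fun _ : T => ℂ) 2) : T → ℂ) b
          = c * ∑ b ∈ nb a, f b
        simp only [lp.coeFn_smul, Pi.smul_apply, smul_eq_mul, Finset.mul_sum] }
  refine ⟨L.mkContinuous K ?_, fun f a => rfl⟩
  intro f
  apply lp.norm_le_of_forall_sum_le (by simp) (by positivity)
  exact nb_bound nb hs K hK f

variable (nb : T → Finset T) (hs : ∀ a b, b ∈ nb a → a ∈ nb b)
  (A : lp (fun _ : T => ℂ) 2 →L[ℂ] lp (fun _ : T => ℂ) 2)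
  (hA : ∀ f a, (A f : T → ℂ) a = ∑ b ∈ nb a, f b)

include hs hA in
lemma nbOp_selfAdjoint : IsSelfAdjoint A := by
  rw [ContinuousLinearMap.isSelfAdjoint_iff']
  apply ContinuousLinearMap.ext
  intro f
  apply lp.ext
  funext a
  have h1 : A (lp.single 2 a (1 : ℂ)) = ∑ b ∈ nb a, lp.single 2 b (1 : ℂ) := by
    apply lp.ext
    funext c
    rw [hA]
    rw [lp.coeFn_sum, Finset.sum_apply]
    simp only [lp.single_apply, Pi.single_apply]
    rw [Finset.sum_ite_eq', Finset.sum_ite_eq]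
    by_cases h : a ∈ nb c
    · rw [if_pos h, if_pos (hs _ _ h)]
    · rw [if_neg h, if_neg (fun h' => h (hs _ _ h'))]
  have h2 : inner ℂ (lp.single 2 a (1 : ℂ)) (ContinuousLinearMap.adjoint A f)
      = inner ℂ (A (lp.single 2 a (1 : ℂ))) f := by
    rw [ContinuousLinearMap.adjoint_inner_right]
  rw [lp.inner_single_left, h1, sum_inner] at h2
  simp only [lp.inner_single_left] at h2
  rw [hA]
  simpa using h2

include hs hA in
/-- Rayleigh quotients are below the spectral radius -/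
theorem rayleigh_le (s : Finset T) (φ : T → ℝ) :
    ∑ a ∈ s, ∑ b ∈ s, (if b ∈ nb a then φ a * φ b else 0)
      ≤ (spectralRadius ℂ A).toReal * ∑ a ∈ s, φ a ^ 2 := by
  have hsa := nbOp_selfAdjoint nb hs A hA
  have hρ : (spectralRadius ℂ A).toReal = ‖A‖ := by
    rw [hsa.spectralRadius_eq_nnnorm]; rfl
  rw [hρ]
  set F : lp (fun _ : T => ℂ) 2 := ∑ a ∈ s, lp.single 2 a ((φ a : ℝ) : ℂ) with hF
  have hFa : ∀ b, (F : T → ℂ) b = if b ∈ s then ((φ b : ℝ) : ℂ) else 0 := by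
    intro b
    rw [hF, lp.coeFn_sum, Finset.sum_apply]
    simp only [lp.single_apply, Pi.single_apply]
    rw [Finset.sum_ite_eq]
  have hAF : ∀ a, (A F : T → ℂ) a = ((∑ b ∈ s, (if b ∈ nb a then φ b else 0) : ℝ) : ℂ) := by
    intro a
    rw [hA]
    simp only [hFa]
    rw [Complex.ofReal_sum]
    have hc : ∀ i, (((if i ∈ nb a then φ i else 0 : ℝ)) : ℂ)
        = if i ∈ nb a then ((φ i : ℝ) : ℂ) else 0 := by
      intro i; split_ifs <;> simp
    simp only [hc]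
    rw [← Finset.sum_filter, ← Finset.sum_filter]
    apply Finset.sum_congr
    · ext b; simp [and_comm]
    · intro b _; rfl
  have hin : inner ℂ F (A F) = ((∑ a ∈ s, ∑ b ∈ s, (if b ∈ nb a then φ a * φ b else 0) : ℝ) : ℂ) := by
    rw [hF, sum_inner]
    simp only [lp.inner_single_left]
    rw [← hF]
    simp only [hAF]
    push_cast
    apply Finset.sum_congr rfl
    intro a _
    simp only [RCLike.inner_apply, Complex.conj_ofReal, Finset.sum_mul]
    apply Finset.sum_congr rfl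
    intro b _
    split_ifs
    · push_cast; ring
    · simp
  have hnorm : ‖F‖ ^ 2 = ∑ a ∈ s, φ a ^ 2 := by
    have h1 : inner ℂ F F = ((∑ a ∈ s, φ a ^ 2 : ℝ) : ℂ) := by
      conv_lhs => rw [hF]
      rw [sum_inner]
      simp only [lp.inner_single_left]
      rw [← hF]
      push_cast
      apply Finset.sum_congr rfl
      intro a ha
      rw [hFa, if_pos ha, RCLike.inner_apply, Complex.conj_ofReal]
      ring
    have h2 := inner_self_eq_norm_sq_to_K (𝕜 := ℂ) F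
    rw [h1] at h2
    have h3 : ((‖F‖ ^ 2 : ℝ) : ℂ) = ((∑ a ∈ s, φ a ^ 2 : ℝ) : ℂ) := by
      rw [h2]; push_cast; rfl
    exact Complex.ofReal_injective h3
  have h3 : (inner ℂ F (A F)).re ≤ ‖F‖ * ‖A F‖ := by
    calc (inner ℂ F (A F)).re ≤ ‖inner ℂ F (A F)‖ := Complex.re_le_norm _
      _ ≤ ‖F‖ * ‖A F‖ := norm_inner_le_norm _ _
  rw [hin, Complex.ofReal_re] at h3
  calc _ ≤ ‖F‖ * ‖A F‖ := h3
    _ ≤ ‖F‖ * (‖A‖ * ‖F‖) := by gcongr; exact A.le_opNorm F
    _ = ‖A‖ * ‖F‖ ^ 2 := by ring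
    _ = _ := by rw [hnorm]

end

end Pool.Agent.W130.RC
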