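import Mathlib

/-!
# Averages of products of two alternating forms over reflection invariant families
-/

set_option autoImplicit false

open Matrix

namespace Pool.Agent.W130.RC

/-- `w` is a root of the family `g`: averages are invariant under right multiplication by the
reflection in `w` -/
def IsRoot {d : ℕ} {Γ : Type*} [Fintype Γ] (g : Γ → Matrix (Fin d) (Fin d) ℝ) (w : Fin d → ℝ) :
    Prop :=
  ∃ c : ℝ, c * (w ⬝ᵥ w) = 2 ∧ ∀ H : Matrix (Fin d) (Fin d) ℝ → ℝ,
    ∑ γ, H (g γ * (1 - c • vecMulVec w w)) = ∑ γ, H (g γ)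

/-- a finite family of orthogonal matrices whose averages are invariant under sufficiently many
reflections -/
structure RootAvg (d : ℕ) where
  pos : 0 < d
  Γ : Type
  fin : Fintype Γ
  ne : Nonempty Γ
  g : Γ → Matrix (Fin d) (Fin d) ℝ
  orth : ∀ γ, g γ * (g γ)ᵀ = 1
  W : Fin d → (Fin d → ℝ)
  W' : Fin d → (Fin d → ℝ)
  dual : ∀ i j, W' i ⬝ᵥ W j = if i = j then 1 else 0
  root1 : ∀ i, IsRoot g (W i)
  root2 : ∀ i j, i ≠ j → IsRoot g (W i - W j)

attribute [instance] RootAvg.fin RootAvg.ne

lemma alt_shear {E κ : Type*} [AddCommGroup E] [Module ℝ E] [Fintype κ] [DecidableEq κ]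
    (β : E [⋀^κ]→ₗ[ℝ] ℝ) (x : κ → E) (j0 : κ) (t : κ → ℝ) :
    β (fun j => x j + t j • x j0) = (1 + t j0) * β x := by
  have h1 : ∀ s : Finset κ, j0 ∉ s →
      β (fun j => if j ∈ s then x j + t j • x j0 else x j) = β x := by
    intro s
    induction s using Finset.induction_on with
    | empty => intro _; simp
    | insert a s ha ih =>
      intro hj
      rw [Finset.mem_insert, not_or] at hj
      have ih' := ih hj.2
      set y : κ → E := fun j => if j ∈ s then x j + t j • x j0 else x j with hy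
      have e1 : (fun j => if j ∈ insert a s then x j + t j • x j0 else x j)
          = Function.update y a (y a + t a • y j0) := by
        funext j
        by_cases hja : j = a
        · subst hja
          simp [hy, ha, hj.2]
        · rw [Function.update_of_ne hja]
          simp [hy, hja]
      rw [e1, β.map_update_add, β.map_update_smul, Function.update_eq_self,
        β.map_update_self y (fun h => hj.1 h.symm), smul_zero, add_zero, ih']
  have h2 := h1 (Finset.univ.erase j0) (by simp)
  set y : κ → E := fun j => if j ∈ Finset.univ.erase j0 then x j + t j • x j0 else x j with hy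
  have e2 : (fun j => x j + t j • x j0) = Function.update y j0 ((1 + t j0) • y j0) := by
    funext j
    by_cases hja : j = j0
    · subst hja
      simp [hy, add_smul]
    · rw [Function.update_of_ne hja]
      simp [hy, hja]
  rw [e2, β.map_update_smul, Function.update_eq_self, h2, smul_eq_mul]

lemma alt_sum_apply {E κ Γ : Type*} [AddCommGroup E] [Module ℝ E]
    (s : Finset Γ) (f : Γ → E [⋀^κ]→ₗ[ℝ] ℝ) (x : κ → E) :
    (∑ γ ∈ s, f γ) x = ∑ γ ∈ s, f γ x := by
  classical
  induction s using Finset.induction_on with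
  | empty => simp
  | insert a s ha ih => rw [Finset.sum_insert ha, Finset.sum_insert ha, AlternatingMap.add_apply, ih]

section

variable {d : ℕ} {ι κ : Type*} [Fintype ι] [DecidableEq ι] [Fintype κ] [DecidableEq κ]

/-- the sum of products of two alternating forms -/
noncomputable def Phi (R : RootAvg d) (α : (Fin d → ℝ) [⋀^ι]→ₗ[ℝ] ℝ) (β : (Fin d → ℝ) [⋀^κ]→ₗ[ℝ] ℝ)
    (u : ι → (Fin d → ℝ)) (v : κ → (Fin d → ℝ)) : ℝ :=
  ∑ γ, α (fun i => R.g γ *ᵥ u i) * β (fun j => R.g γ *ᵥ v j)

/-- the sum as an alternating form in the first variable -/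
noncomputable def PhiL (R : RootAvg d) (α : (Fin d → ℝ) [⋀^ι]→ₗ[ℝ] ℝ)
    (β : (Fin d → ℝ) [⋀^κ]→ₗ[ℝ] ℝ) (v : κ → (Fin d → ℝ)) : (Fin d → ℝ) [⋀^ι]→ₗ[ℝ] ℝ :=
  ∑ γ, (β (fun j => R.g γ *ᵥ v j)) • α.compLinearMap (Matrix.mulVecLin (R.g γ))

/-- the sum as an alternating form in the second variable -/
noncomputable def PhiR (R : RootAvg d) (α : (Fin d → ℝ) [⋀^ι]→ₗ[ℝ] ℝ)
    (β : (Fin d → ℝ) [⋀^κ]→ₗ[ℝ] ℝ) (u : ι → (Fin d → ℝ)) : (Fin d → ℝ) [⋀^κ]→ₗ[ℝ] ℝ :=
  ∑ γ, (α (fun i => R.g γ *ᵥ u i)) • β.compLinearMap (Matrix.mulVecLin (R.g γ))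

variable (R : RootAvg d) (α : (Fin d → ℝ) [⋀^ι]→ₗ[ℝ] ℝ) (β : (Fin d → ℝ) [⋀^κ]→ₗ[ℝ] ℝ)

lemma PhiL_apply (u : ι → (Fin d → ℝ)) (v : κ → (Fin d → ℝ)) :
    PhiL R α β v u = Phi R α β u v := by
  simp only [PhiL, Phi, alt_sum_apply, AlternatingMap.smul_apply, smul_eq_mul]
  apply Finset.sum_congr rfl
  intro γ _
  rw [mul_comm]
  rfl

lemma PhiR_apply (u : ι → (Fin d → ℝ)) (v : κ → (Fin d → ℝ)) :
    PhiR R α β u v = Phi R α β u v := by
  simp only [PhiR, Phi, alt_sum_apply, AlternatingMap.smul_apply, smul_eq_mul]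
  apply Finset.sum_congr rfl
  intro γ _
  rfl

lemma Phi_comm (u : ι → (Fin d → ℝ)) (v : κ → (Fin d → ℝ)) :
    Phi R α β u v = Phi R β α v u := by
  simp only [Phi]
  exact Finset.sum_congr rfl (fun γ _ => mul_comm _ _)

lemma Phi_root (w : Fin d → ℝ) (hw : IsRoot R.g w) (u : ι → (Fin d → ℝ)) (v : κ → (Fin d → ℝ))
    (hu : ∀ i, w ⬝ᵥ u i = 0) (j0 : κ) (hv : v j0 = w) : Phi R α β u v = 0 := by
  obtain ⟨c, hc, hH⟩ := hw
  have h1 := hH (fun Q => α (fun i => Q *ᵥ u i) * β (fun j => Q *ᵥ v j))
  have h2 : ∀ γ, α (fun i => (R.g γ * (1 - c • vecMulVec w w)) *ᵥ u i)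
      * β (fun j => (R.g γ * (1 - c • vecMulVec w w)) *ᵥ v j)
      = - (α (fun i => R.g γ *ᵥ u i) * β (fun j => R.g γ *ᵥ v j)) := by
    intro γ
    have hs : ∀ x : Fin d → ℝ, (R.g γ * (1 - c • vecMulVec w w)) *ᵥ x
        = R.g γ *ᵥ x + (-(c * (w ⬝ᵥ x))) • (R.g γ *ᵥ w) := by
      intro x
      rw [← mulVec_mulVec, sub_mulVec, one_mulVec, smul_mulVec, vecMulVec_mulVec]
      have : c • MulOpposite.op (w ⬝ᵥ x) • w = (c * (w ⬝ᵥ x)) • w := by
        ext i; simp; ring
      rw [this, mulVec_sub, mulVec_smul, neg_smul, sub_eq_add_neg]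
    have e1 : (fun i => (R.g γ * (1 - c • vecMulVec w w)) *ᵥ u i) = fun i => R.g γ *ᵥ u i := by
      funext i
      rw [hs, hu i]; simp
    have e2 : β (fun j => (R.g γ * (1 - c • vecMulVec w w)) *ᵥ v j)
        = - β (fun j => R.g γ *ᵥ v j) := by
      have : (fun j => (R.g γ * (1 - c • vecMulVec w w)) *ᵥ v j)
          = fun j => (fun j => R.g γ *ᵥ v j) j + (fun j => -(c * (w ⬝ᵥ v j))) j •
            (fun j => R.g γ *ᵥ v j) j0 := by
        funext j
        simp only [hv]
        exact hs (v j)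
      rw [this, alt_shear β (fun j => R.g γ *ᵥ v j) j0 (fun j => -(c * (w ⬝ᵥ v j)))]
      rw [hv, hc]; ring
    rw [e1, e2]; ring
  simp only [h2, Finset.sum_neg_distrib] at h1
  unfold Phi
  linarith

/-- the basis of roots -/
noncomputable def bW : Module.Basis (Fin d) ℝ (Fin d → ℝ) :=
  have : Nonempty (Fin d) := ⟨⟨0, R.pos⟩⟩
  basisOfLinearIndependentOfCardEqFinrank (b := R.W) (by
    rw [Fintype.linearIndependent_iff]
    intro g hg i
    have h1 := congrArg (fun x => R.W' i ⬝ᵥ x) hg
    simp only [dotProduct_sum, dotProduct_smul, R.dual, dotProduct_zero] at h1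
    simpa using h1) (by simp)

/-- the dual basis -/
noncomputable def bW' : Module.Basis (Fin d) ℝ (Fin d → ℝ) :=
  have : Nonempty (Fin d) := ⟨⟨0, R.pos⟩⟩
  basisOfLinearIndependentOfCardEqFinrank (b := R.W') (by
    rw [Fintype.linearIndependent_iff]
    intro g hg i
    have h1 := congrArg (fun x => x ⬝ᵥ R.W i) hg
    simp only [sum_dotProduct, smul_dotProduct, R.dual, zero_dotProduct] at h1
    simpa using h1) (by simp)

lemma bW_apply (i : Fin d) : bW R i = R.W i := by simp [bW]
lemma bW'_apply (i : Fin d) : bW' R i = R.W' i := by simp [bW']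

/-- two bi-alternating functions which agree on the root basis agree -/
lemma ext_two (Ψ : (ι → (Fin d → ℝ)) → (κ → (Fin d → ℝ)) → ℝ)
    (fL : (κ → (Fin d → ℝ)) → (Fin d → ℝ) [⋀^ι]→ₗ[ℝ] ℝ) (hL : ∀ u v, fL v u = Ψ u v)
    (fR : (ι → (Fin d → ℝ)) → (Fin d → ℝ) [⋀^κ]→ₗ[ℝ] ℝ) (hR : ∀ u v, fR u v = Ψ u v)
    (h : ∀ (a : ι → Fin d) (b : κ → Fin d), Function.Injective a → Function.Injective b →
      Phi R α β (fun i => R.W' (a i)) (fun j => R.W (b j))
        = Ψ (fun i => R.W' (a i)) (fun j => R.W (b j)))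
    (u : ι → (Fin d → ℝ)) (v : κ → (Fin d → ℝ)) : Phi R α β u v = Ψ u v := by
  have h1 : ∀ (a : ι → Fin d), Function.Injective a → ∀ v,
      Phi R α β (fun i => R.W' (a i)) v = Ψ (fun i => R.W' (a i)) v := by
    intro a ha
    have : PhiR R α β (fun i => R.W' (a i)) = fR (fun i => R.W' (a i)) := by
      apply Module.Basis.ext_alternating (bW R)
      intro b hb
      rw [PhiR_apply, hR]
      simp only [bW_apply]
      exact h a b ha hb
    intro v
    rw [← PhiR_apply, this, hR]
  have : PhiL R α β v = fL v := by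
    apply Module.Basis.ext_alternating (bW' R)
    intro a ha
    rw [PhiL_apply, hL]
    simp only [bW'_apply]
    exact h1 a ha v
  rw [← PhiL_apply, this, hL]

lemma Phi_basis_zero (a : ι → Fin d) (b : κ → Fin d) (j : κ) (hj : ∀ i, a i ≠ b j) :
    Phi R α β (fun i => R.W' (a i)) (fun j => R.W (b j)) = 0 := by
  apply Phi_root R α β (R.W (b j)) (R.root1 _) _ _ _ j rfl
  intro i
  rw [dotProduct_comm, R.dual, if_neg (hj i)]

lemma Phi_lt (h : Fintype.card ι < Fintype.card κ) (u : ι → (Fin d → ℝ))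
    (v : κ → (Fin d → ℝ)) : Phi R α β u v = 0 := by
  refine ext_two R α β (fun _ _ => 0) (fun _ => 0) (fun _ _ => rfl) (fun _ => 0)
    (fun _ _ => rfl) ?_ u v
  intro a b ha hb
  have : ∃ j, ∀ i, a i ≠ b j := by
    by_contra hc
    push Not at hc
    choose f hf using hc
    have hinj : Function.Injective f := by
      intro x y hxy
      apply hb
      rw [← hf x, ← hf y, hxy]
    exact absurd (Fintype.card_le_of_injective f hinj) (by omega)
  obtain ⟨j, hj⟩ := this
  exact Phi_basis_zero R α β a b j hj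

lemma Phi_ne (h : Fintype.card ι ≠ Fintype.card κ) (u : ι → (Fin d → ℝ))
    (v : κ → (Fin d → ℝ)) : Phi R α β u v = 0 := by
  rcases Nat.lt_or_gt_of_ne h with h | h
  · exact Phi_lt R α β h u v
  · rw [Phi_comm]; exact Phi_lt R β α h v u

end

section

variable {d : ℕ} {κ : Type*} [Fintype κ] [DecidableEq κ]
variable (R : RootAvg d) (α : (Fin d → ℝ) [⋀^κ]→ₗ[ℝ] ℝ) (β : (Fin d → ℝ) [⋀^κ]→ₗ[ℝ] ℝ)

/-- the diagonal value -/
noncomputable def cVal (a : κ → Fin d) : ℝ :=
  Phi R α β (fun i => R.W' (a i)) (fun j => R.W (a j))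

lemma Phi_perm (a : κ → Fin d) (π : Equiv.Perm κ) :
    Phi R α β (fun i => R.W' (a i)) (fun j => R.W (a (π j)))
      = ((Equiv.Perm.sign π : ℤ) : ℝ) * cVal R α β a := by
  have h := (PhiR R α β (fun i => R.W' (a i))).map_perm (fun j => R.W (a j)) π
  rw [PhiR_apply, PhiR_apply, Units.smul_def, zsmul_eq_mul] at h
  exact h

lemma cVal_perm (a : κ → Fin d) (π : Equiv.Perm κ) :
    cVal R α β (a ∘ π) = cVal R α β a := by
  have h := (PhiL R α β (fun j => R.W (a (π j)))).map_perm (fun j => R.W' (a j)) π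
  rw [PhiL_apply, PhiL_apply] at h
  have e : (fun j => R.W' (a j)) ∘ π = (fun j => R.W' ((a ∘ π) j)) := rfl
  rw [e] at h
  rw [cVal]
  simp only [Function.comp] at h ⊢
  rw [h, Phi_perm, Units.smul_def, zsmul_eq_mul, ← mul_assoc]
  have : ((Equiv.Perm.sign π : ℤ) : ℝ) * ((Equiv.Perm.sign π : ℤ) : ℝ) = 1 := by
    rw [← Int.cast_mul, ← Units.val_mul, Int.units_mul_self]; simp
  rw [this, one_mul]

lemma cVal_update (a : κ → Fin d) (ha : Function.Injective a) (i0 : κ) (m : Fin d)
    (hm : ∀ i, a i ≠ m) : cVal R α β (Function.update a i0 m) = cVal R α β a := by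
  set x := a i0 with hx
  have hmx : m ≠ x := fun h => hm i0 h.symm
  have h0 := Phi_root R α β (R.W m - R.W x) (R.root2 m x hmx)
    (Function.update (fun i => R.W' (a i)) i0 (R.W' m + R.W' x))
    (Function.update (fun i => R.W (a i)) i0 (R.W m - R.W x)) (by
      intro i
      by_cases hi : i = i0
      · subst hi
        rw [Function.update_self, sub_dotProduct, dotProduct_add, dotProduct_add,
          dotProduct_comm _ (R.W' m), dotProduct_comm _ (R.W' x), dotProduct_comm _ (R.W' m),
          dotProduct_comm _ (R.W' x), R.dual, R.dual, R.dual, R.dual]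
        simp [hmx, hmx.symm]
      · rw [Function.update_of_ne hi, sub_dotProduct, dotProduct_comm, R.dual,
          dotProduct_comm _ (R.W' (a i)), R.dual, if_neg (hm i), if_neg, sub_zero]
        intro h
        exact hi (ha h)) i0 (by rw [Function.update_self])
  rw [← PhiL_apply, (PhiL R α β _).map_update_add, PhiL_apply, PhiL_apply, ← PhiR_apply,
    ← PhiR_apply] at h0
  rw [(PhiR R α β _).map_update_sub, (PhiR R α β _).map_update_sub] at h0
  simp only [PhiR_apply] at h0
  have e1 : Function.update (fun i => R.W' (a i)) i0 (R.W' m)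
      = fun i => R.W' (Function.update a i0 m i) := by
    funext i
    by_cases hi : i = i0
    · subst hi; simp
    · simp [Function.update_of_ne hi]
  have e2 : Function.update (fun i => R.W' (a i)) i0 (R.W' x) = fun i => R.W' (a i) := by
    rw [hx]; exact Function.update_eq_self i0 (fun i => R.W' (a i))
  have e3 : Function.update (fun i => R.W (a i)) i0 (R.W m)
      = fun i => R.W (Function.update a i0 m i) := by
    funext i
    by_cases hi : i = i0
    · subst hi; simp
    · simp [Function.update_of_ne hi]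
  have e4 : Function.update (fun i => R.W (a i)) i0 (R.W x) = fun i => R.W (a i) := by
    rw [hx]; exact Function.update_eq_self i0 (fun i => R.W (a i))
  rw [e1, e2, e3, e4] at h0
  have z1 : Phi R α β (fun i => R.W' (Function.update a i0 m i)) (fun i => R.W (a i)) = 0 := by
    apply Phi_basis_zero R α β _ _ i0
    intro i
    by_cases hi : i = i0
    · subst hi; rw [Function.update_self]; exact hmx
    · rw [Function.update_of_ne hi]; exact fun h => hi (ha h)
  have z2 : Phi R α β (fun i => R.W' (a i)) (fun i => R.W (Function.update a i0 m i)) = 0 := by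
    apply Phi_basis_zero R α β _ _ i0
    intro i
    rw [Function.update_self]; exact hm i
  rw [z1, z2] at h0
  unfold cVal
  linarith

lemma cVal_swap (a : κ → Fin d) (ha : Function.Injective a) (x y : Fin d) :
    cVal R α β (fun i => Equiv.swap x y (a i)) = cVal R α β a := by
  by_cases hxy : x = y
  · subst hxy; simp
  by_cases h1 : ∃ i, a i = x
  · obtain ⟨i, rfl⟩ := h1
    by_cases h2 : ∃ j, a j = y
    · obtain ⟨j, rfl⟩ := h2
      have : (fun k => Equiv.swap (a i) (a j) (a k)) = a ∘ (Equiv.swap i j) := by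
        funext k
        exact (ha.map_swap i j k).symm
      rw [this, cVal_perm]
    · push Not at h2
      have : (fun k => Equiv.swap (a i) y (a k)) = Function.update a i y := by
        funext k
        by_cases hk : k = i
        · subst hk; simp
        · rw [Function.update_of_ne hk]
          exact Equiv.swap_apply_of_ne_of_ne (fun h => hk (ha h)) (h2 k)
      rw [this, cVal_update R α β a ha i y h2]
  · push Not at h1
    by_cases h2 : ∃ j, a j = y
    · obtain ⟨j, rfl⟩ := h2
      have : (fun k => Equiv.swap x (a j) (a k)) = Function.update a j x := by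
        funext k
        by_cases hk : k = j
        · subst hk; simp
        · rw [Function.update_of_ne hk]
          exact Equiv.swap_apply_of_ne_of_ne (h1 k) (fun h => hk (ha h))
      rw [this, cVal_update R α β a ha j x h1]
    · push Not at h2
      have : (fun k => Equiv.swap x y (a k)) = a := by
        funext k
        exact Equiv.swap_apply_of_ne_of_ne (h1 k) (h2 k)
      rw [this]

lemma cVal_all (a : κ → Fin d) (ha : Function.Injective a) (σ : Equiv.Perm (Fin d)) :
    cVal R α β (fun i => σ (a i)) = cVal R α β a := by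
  induction σ using Equiv.Perm.swap_induction_on with
  | one => rfl
  | swap_mul f x y _ ih =>
    rw [← ih]
    exact cVal_swap R α β (fun i => f (a i)) (f.injective.comp ha) x y

lemma exists_perm_comp (a b : κ → Fin d) (ha : Function.Injective a) (hb : Function.Injective b) :
    ∃ σ : Equiv.Perm (Fin d), ∀ i, σ (a i) = b i := by
  classical
  let e : {x // x ∈ Set.range a} ≃ {x // x ∈ Set.range b} :=
    (Equiv.ofInjective a ha).symm.trans (Equiv.ofInjective b hb)
  refine ⟨e.extendSubtype, fun i => ?_⟩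
  rw [Equiv.extendSubtype_apply_of_mem e (a i) ⟨i, rfl⟩]
  have : (Equiv.ofInjective a ha).symm ⟨a i, ⟨i, rfl⟩⟩ = i :=
    (Equiv.ofInjective a ha).symm_apply_apply i
  simp only [e, Equiv.trans_apply, this]
  rfl

/-- the Gram determinant as an alternating form -/
noncomputable def gramL (v : κ → (Fin d → ℝ)) : (Fin d → ℝ) [⋀^κ]→ₗ[ℝ] ℝ :=
  Matrix.detRowAlternating.compLinearMap
    (LinearMap.pi (fun j => (dotProductBilin ℝ ℝ (v j) : (Fin d → ℝ) →ₗ[ℝ] ℝ)))

lemma gramL_apply (u v : κ → (Fin d → ℝ)) :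
    gramL v u = (Matrix.of (fun i j => v j ⬝ᵥ u i)).det := by
  rfl

end

end Pool.Agent.W130.RC
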