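import Pool.Agent.W130.RC.P1

/-!
# The averages of products of alternating forms do not depend on the family
-/

set_option autoImplicit false

open Matrix

namespace Pool.Agent.W130.RC

section

variable {d : ℕ} {κ : Type*} [Fintype κ] [DecidableEq κ]
variable (R : RootAvg d) (α : (Fin d → ℝ) [⋀^κ]→ₗ[ℝ] ℝ) (β : (Fin d → ℝ) [⋀^κ]→ₗ[ℝ] ℝ)

theorem Phi_formula (a0 : κ → Fin d) (ha0 : Function.Injective a0)
    (u v : κ → (Fin d → ℝ)) :
    Phi R α β u v = cVal R α β a0 * (Matrix.of (fun i j => v j ⬝ᵥ u i)).det := by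
  refine ext_two R α β
    (fun u v => cVal R α β a0 * (Matrix.of (fun i j => v j ⬝ᵥ u i)).det)
    (fun v => cVal R α β a0 • gramL v) ?_ (fun u => cVal R α β a0 • gramL u) ?_ ?_ u v
  · intro u v
    rw [AlternatingMap.smul_apply, gramL_apply, smul_eq_mul]
  · intro u v
    rw [AlternatingMap.smul_apply, gramL_apply, smul_eq_mul, ← det_transpose]
    congr 2
    ext i j
    simp [dotProduct_comm]
  · intro a b ha hb
    by_cases hj : ∃ j, ∀ i, a i ≠ b j
    · obtain ⟨j, hj⟩ := hj
      rw [Phi_basis_zero R α β a b j hj, Matrix.det_eq_zero_of_column_eq_zero j, mul_zero]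
      intro i
      rw [Matrix.of_apply, dotProduct_comm, R.dual, if_neg (hj i)]
    · push Not at hj
      choose f hf using hj
      have hinj : Function.Injective f := by
        intro x y hxy
        apply hb
        rw [← hf x, ← hf y, hxy]
      set π : Equiv.Perm κ := Equiv.ofBijective f (Finite.injective_iff_bijective.1 hinj) with hπ
      have hb' : ∀ j, b j = a (π j) := fun j => (hf j).symm
      have e1 : (fun j => R.W (b j)) = fun j => R.W (a (π j)) := by
        funext j; rw [hb']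
      rw [e1, Phi_perm]
      obtain ⟨σ, hσ⟩ := exists_perm_comp a0 a ha0 ha
      have e2 : cVal R α β a = cVal R α β a0 := by
        rw [← cVal_all R α β a0 ha0 σ]
        congr 1
        funext i; rw [hσ]
      have e3 : (Matrix.of (fun i j => R.W (a (π j)) ⬝ᵥ R.W' (a i)) : Matrix κ κ ℝ)
          = (1 : Matrix κ κ ℝ).submatrix id π := by
        ext i j
        rw [Matrix.of_apply, dotProduct_comm, R.dual, Matrix.submatrix_apply, Matrix.one_apply]
        simp [ha.eq_iff]
      rw [e2, e3, Matrix.det_permute', det_one]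
      ring

lemma expand_cols (α : (Fin d → ℝ) [⋀^κ]→ₗ[ℝ] ℝ) (Q : Matrix (Fin d) (Fin d) ℝ)
    (i : κ → Fin d) : α (fun a => Q *ᵥ Pi.single (i a) 1)
      = ∑ j : κ → Fin d, (∏ a, Q (j a) (i a)) * α (fun a => Pi.single (j a) 1) := by
  have e1 : (fun a => Q *ᵥ Pi.single (i a) (1 : ℝ))
      = fun a => ∑ x : Fin d, Q x (i a) • (Pi.single x (1 : ℝ) : Fin d → ℝ) := by
    funext a
    ext y
    simp [Finset.sum_apply, Pi.single_apply]
  rw [e1]
  have h := (α.toMultilinearMap).map_sum
    (g := fun (a : κ) (x : Fin d) => Q x (i a) • (Pi.single x (1 : ℝ) : Fin d → ℝ))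
  have h' : α (fun a => ∑ x : Fin d, Q x (i a) • (Pi.single x (1 : ℝ) : Fin d → ℝ))
    = ∑ r : κ → Fin d, α (fun a => Q (r a) (i a) • (Pi.single (r a) (1 : ℝ) : Fin d → ℝ)) := h
  rw [h']
  apply Finset.sum_congr rfl
  intro j _
  exact (α.toMultilinearMap).map_smul_univ (fun a => Q (j a) (i a)) _

lemma contraction (α β : (Fin d → ℝ) [⋀^κ]→ₗ[ℝ] ℝ) (Q : Matrix (Fin d) (Fin d) ℝ)
    (hQ : Q * Qᵀ = 1) :
    ∑ i : κ → Fin d, α (fun a => Q *ᵥ Pi.single (i a) 1) * β (fun a => Q *ᵥ Pi.single (i a) 1)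
      = ∑ i : κ → Fin d, α (fun a => Pi.single (i a) 1) * β (fun a => Pi.single (i a) 1) := by
  have key : ∀ j k : κ → Fin d, ∑ i : κ → Fin d, (∏ a, Q (j a) (i a)) * (∏ a, Q (k a) (i a))
      = if j = k then 1 else 0 := by
    intro j k
    have h1 : ∀ i : κ → Fin d, (∏ a, Q (j a) (i a)) * (∏ a, Q (k a) (i a))
        = ∏ a, Q (j a) (i a) * Q (k a) (i a) := fun i => Finset.prod_mul_distrib.symm
    simp only [h1]
    have h2 := Finset.prod_univ_sum (fun _ : κ => (Finset.univ : Finset (Fin d)))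
      (fun a x => Q (j a) x * Q (k a) x)
    rw [Fintype.piFinset_univ] at h2
    rw [← h2]
    have h3 : ∀ a, ∑ x, Q (j a) x * Q (k a) x = if j a = k a then 1 else 0 := by
      intro a
      have h4 := congrFun (congrFun hQ (j a)) (k a)
      rw [Matrix.mul_apply, Matrix.one_apply] at h4
      simpa [Matrix.transpose_apply] using h4
    simp only [h3]
    by_cases hjk : j = k
    · subst hjk; simp
    · rw [if_neg hjk]
      obtain ⟨a, ha⟩ := Function.ne_iff.1 hjk
      exact Finset.prod_eq_zero (Finset.mem_univ a) (if_neg ha)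
  simp only [expand_cols]
  have e1 : ∀ i : κ → Fin d,
      (∑ j : κ → Fin d, (∏ a, Q (j a) (i a)) * α (fun a => Pi.single (j a) 1)) *
      (∑ k : κ → Fin d, (∏ a, Q (k a) (i a)) * β (fun a => Pi.single (k a) 1))
      = ∑ j : κ → Fin d, ∑ k : κ → Fin d, ((∏ a, Q (j a) (i a)) * (∏ a, Q (k a) (i a))) *
        (α (fun a => Pi.single (j a) 1) * β (fun a => Pi.single (k a) 1)) := by
    intro i
    rw [Finset.sum_mul_sum]
    apply Finset.sum_congr rfl; intro j _
    apply Finset.sum_congr rfl; intro k _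
    ring
  simp only [e1]
  rw [Finset.sum_comm]
  apply Finset.sum_congr rfl
  intro j _
  rw [Finset.sum_comm]
  have e2 : ∀ k : κ → Fin d, ∑ i : κ → Fin d, ((∏ a, Q (j a) (i a)) * (∏ a, Q (k a) (i a))) *
        (α (fun a => Pi.single (j a) 1) * β (fun a => Pi.single (k a) 1))
      = if j = k then (α (fun a => Pi.single (j a) 1) * β (fun a => Pi.single (k a) 1)) else 0 := by
    intro k
    rw [← Finset.sum_mul, key]
    by_cases h : j = k <;> simp [h]
  simp only [e2]
  simp

/-- the universal constant -/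
noncomputable def cUniv (α β : (Fin d → ℝ) [⋀^κ]→ₗ[ℝ] ℝ) : ℝ :=
  (∑ i : κ → Fin d, α (fun a => Pi.single (i a) 1) * β (fun a => Pi.single (i a) 1)) /
    (Fintype.card {i : κ → Fin d // Function.Injective i} : ℝ)

theorem Phi_univ (u v : κ → (Fin d → ℝ)) :
    Phi R α β u v = (Fintype.card R.Γ : ℝ) * cUniv α β *
      (Matrix.of (fun i j => v j ⬝ᵥ u i)).det := by
  classical
  by_cases h0 : ∃ a0 : κ → Fin d, Function.Injective a0
  · obtain ⟨a0, ha0⟩ := h0
    have hf := Phi_formula R α β a0 ha0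
    have hs : ∑ i : κ → Fin d, Phi R α β (fun a => Pi.single (i a) 1) (fun a => Pi.single (i a) 1)
        = (Fintype.card R.Γ : ℝ) *
          ∑ i : κ → Fin d, α (fun a => Pi.single (i a) 1) * β (fun a => Pi.single (i a) 1) := by
      unfold Phi
      rw [Finset.sum_comm, Finset.sum_congr rfl (fun γ _ => contraction α β (R.g γ) (R.orth γ)),
        Finset.sum_const, nsmul_eq_mul]
      simp
    have hd : ∀ i : κ → Fin d, (Matrix.of (fun (x y : κ) =>
        (Pi.single (i y) (1 : ℝ) : Fin d → ℝ) ⬝ᵥ (Pi.single (i x) (1 : ℝ)))).det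
        = if Function.Injective i then 1 else 0 := by
      intro i
      by_cases hi : Function.Injective i
      · rw [if_pos hi]
        convert! Matrix.det_one (n := κ) (R := ℝ)
        ext x y
        simp only [Matrix.of_apply, dotProduct_single, mul_one, Matrix.one_apply, Pi.single_apply,
          hi.eq_iff]
      · rw [if_neg hi]
        unfold Function.Injective at hi
        push Not at hi
        obtain ⟨x, y, hxy, hne⟩ := hi
        apply Matrix.det_zero_of_row_eq hne
        funext z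
        simp [Matrix.of_apply, hxy]
    have hcount : ∑ i : κ → Fin d, (if Function.Injective i then (1 : ℝ) else 0)
        = (Fintype.card {i : κ → Fin d // Function.Injective i} : ℝ) := by
      rw [Finset.sum_boole, Fintype.card_subtype]
    have h2 : ∑ i : κ → Fin d, Phi R α β (fun a => Pi.single (i a) 1) (fun a => Pi.single (i a) 1)
        = cVal R α β a0 * (Fintype.card {i : κ → Fin d // Function.Injective i} : ℝ) := by
      rw [← hcount, Finset.mul_sum]
      apply Finset.sum_congr rfl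
      intro i _
      rw [hf, hd]
    have hpos : (0 : ℝ) < (Fintype.card {i : κ → Fin d // Function.Injective i} : ℝ) := by
      have : 0 < Fintype.card {i : κ → Fin d // Function.Injective i} :=
        Fintype.card_pos_iff.2 ⟨⟨a0, ha0⟩⟩
      exact_mod_cast this
    have hc : cVal R α β a0 = (Fintype.card R.Γ : ℝ) * cUniv α β := by
      unfold cUniv
      rw [← mul_div_assoc, ← hs, h2]
      field_simp
    rw [hf, hc]
  · push Not at h0
    have h1 : Phi R α β u v = 0 := by
      refine ext_two R α β (fun _ _ => 0) (fun _ => 0) (fun _ _ => rfl) (fun _ => 0)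
        (fun _ _ => rfl) ?_ u v
      intro a b ha _
      exact absurd ha (h0 a)
    have h2 : Fintype.card {i : κ → Fin d // Function.Injective i} = 0 := by
      rw [Fintype.card_eq_zero_iff]
      exact ⟨fun x => h0 x.1 x.2⟩
    rw [h1, cUniv, h2]
    simp

end

section

variable {d : ℕ}

/-- comparison of two families, with two orthogonal changes of basis -/
theorem two_families (R1 R2 : RootAvg d) (V1 V2 : Matrix (Fin d) (Fin d) ℝ)
    (h1 : V1ᵀ * V1 = 1) (h2 : V2ᵀ * V2 = 1) {k l : ℕ}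
    (α : (Fin d → ℝ) [⋀^(Fin k)]→ₗ[ℝ] ℝ) (β : (Fin d → ℝ) [⋀^(Fin l)]→ₗ[ℝ] ℝ)
    (u : Fin k → (Fin d → ℝ)) (v : Fin l → (Fin d → ℝ)) :
    (Fintype.card R1.Γ : ℝ)⁻¹ * ∑ γ, α (fun i => (R1.g γ * V1) *ᵥ u i) *
        β (fun j => (R1.g γ * V1) *ᵥ v j)
      = (Fintype.card R2.Γ : ℝ)⁻¹ * ∑ γ, α (fun i => (R2.g γ * V2) *ᵥ u i) *
        β (fun j => (R2.g γ * V2) *ᵥ v j) := by
  have key : ∀ (R : RootAvg d) (V : Matrix (Fin d) (Fin d) ℝ) (_ : Vᵀ * V = 1)
      (α β : (Fin d → ℝ) [⋀^(Fin k)]→ₗ[ℝ] ℝ) (u v : Fin k → (Fin d → ℝ)),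
      (Fintype.card R.Γ : ℝ)⁻¹ * ∑ γ, α (fun i => (R.g γ * V) *ᵥ u i) *
        β (fun j => (R.g γ * V) *ᵥ v j) = cUniv α β * (Matrix.of (fun i j => v j ⬝ᵥ u i)).det := by
    intro R V hV α β u v
    have e1 : ∑ γ, α (fun i => (R.g γ * V) *ᵥ u i) * β (fun j => (R.g γ * V) *ᵥ v j)
        = Phi R α β (fun i => V *ᵥ u i) (fun j => V *ᵥ v j) := by
      unfold Phi
      simp only [mulVec_mulVec]
    have e2 : ∀ i j, (V *ᵥ v j) ⬝ᵥ (V *ᵥ u i) = v j ⬝ᵥ u i := by
      intro i j
      rw [dotProduct_mulVec, ← mulVec_transpose, mulVec_mulVec, hV, one_mulVec]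
    rw [e1, Phi_univ]
    simp only [e2]
    have : (Fintype.card R.Γ : ℝ) ≠ 0 := by
      have := Fintype.card_pos (α := R.Γ)
      positivity
    field_simp
  by_cases hkl : k = l
  · subst hkl
    rw [key R1 V1 h1, key R2 V2 h2]
  · have z : ∀ (R : RootAvg d) (V : Matrix (Fin d) (Fin d) ℝ),
        ∑ γ, α (fun i => (R.g γ * V) *ᵥ u i) * β (fun j => (R.g γ * V) *ᵥ v j) = 0 := by
      intro R V
      have e1 : ∑ γ, α (fun i => (R.g γ * V) *ᵥ u i) * β (fun j => (R.g γ * V) *ᵥ v j)
          = Phi R α β (fun i => V *ᵥ u i) (fun j => V *ᵥ v j) := by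
        unfold Phi
        simp only [mulVec_mulVec]
      rw [e1]
      exact Phi_ne R α β (by simpa using hkl) _ _
    rw [z, z]; simp

end

end Pool.Agent.W130.RC
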