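import Mathlib

/-!
# Real polynomials without zeros in the upper half plane: pencils and quotients
-/

set_option autoImplicit false

open Polynomial Complex Filter Topology

namespace Pool.Agent.W130.RC

/-- no zeros in the open upper half plane -/
def Hyp (p : ℝ[X]) : Prop := ∀ z : ℂ, 0 < z.im → aeval z p ≠ 0

lemma uhp_convex : Convex ℝ {z : ℂ | 0 < z.im} := by
  have : {z : ℂ | 0 < z.im} = Complex.imCLM ⁻¹' (Set.Ioi 0) := by
    ext z; simp
  rw [this]
  exact (convex_Ioi (0 : ℝ)).linear_preimage Complex.imCLM.toLinearMap

lemma uhp_open : IsOpen {z : ℂ | 0 < z.im} :=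
  isOpen_lt continuous_const Complex.continuous_im

lemma aeval_eq_reflect (p : ℝ[X]) (n : ℕ) (hn : p.natDegree ≤ n) (z : ℂ) (hz : z ≠ 0) :
    aeval z p = aeval z⁻¹ (reflect n p) * z ^ n := by
  have : Invertible z := invertibleOfNonzero hz
  have h := Polynomial.eval₂_reflect_mul_pow (algebraMap ℝ ℂ) z n p hn
  rw [invOf_eq_inv] at h
  rw [aeval_def, aeval_def, h]

lemma analytic_aeval (p : ℝ[X]) (w : ℂ) : AnalyticAt ℂ (fun z : ℂ => aeval z p) w := by
  have h : (fun z : ℂ => aeval z p) = fun z : ℂ => (p.map (algebraMap ℝ ℂ)).eval z := by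
    funext z; rw [eval_map_algebraMap]
  rw [h]
  exact (Polynomial.differentiable (p.map (algebraMap ℝ ℂ))).analyticAt w

/-- A pencil `p + s q` without zeros in the upper half plane, `p` monic of degree `n`, `q` of
smaller degree with negative coefficient of order `n - 1`: the quotient `q / p` maps the upper half
plane to itself. -/
theorem pencil_sign (n : ℕ) (p q : ℝ[X]) (hp : p.Monic) (hpn : p.natDegree = n + 1)
    (hq : q.natDegree ≤ n) (hc : q.coeff n < 0) (h : ∀ s : ℝ, Hyp (p + C s * q)) (z : ℂ)
    (hz : 0 < z.im) : 0 < (aeval z q / aeval z p).im := by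
  have hp0 : Hyp p := by simpa using h 0
  set U : Set ℂ := {z : ℂ | 0 < z.im} with hU
  set g : ℂ → ℂ := fun z => aeval z q / aeval z p with hg
  have hq0 : q ≠ 0 := by
    rintro rfl; simp at hc
  -- values of g
  have hreal : ∀ w ∈ U, ∀ r : ℝ, r ≠ 0 → g w ≠ (r : ℂ) := by
    intro w hw r hr hgw
    have h1 := hp0 w hw
    have h2 : aeval w q = r * aeval w p := by
      have := hgw
      simp only [hg] at this
      field_simp at this
      rw [this]; ring
    apply h (-(1 / r)) w hw
    simp only [map_add, map_mul, aeval_C, h2]
    have hr' : (r : ℂ) ≠ 0 := by exact_mod_cast hr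
    simp
    field_simp
    ring
  have han : AnalyticOnNhd ℂ g U := by
    intro w hw
    exact (analytic_aeval q w).div (analytic_aeval p w) (hp0 w hw)
  have hpre : IsPreconnected U := uhp_convex.isPreconnected
  rcases han.is_constant_or_isOpen hpre with ⟨w, hw⟩ | hopen
  · exfalso
    -- q = w p as polynomials
    have h1 : (q.map (algebraMap ℝ ℂ)) = C w * (p.map (algebraMap ℝ ℂ)) := by
      apply Polynomial.eq_of_infinite_eval_eq
      refine Set.Infinite.mono (s := U) ?_ ?_
      · intro z hz
        have := hw z hz
        simp only [hg] at this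
        have h3 := hp0 z hz
        simp only [Set.mem_ofPred_eq, eval_mul, eval_C, eval_map_algebraMap]
        field_simp at this
        rw [this]; ring
      · have : Set.Infinite (Set.range (fun t : ℕ => (Complex.I * (t + 1) : ℂ))) := by
          apply Set.infinite_range_of_injective
          intro a b hab
          simp only [mul_eq_mul_left_iff, add_left_inj, Nat.cast_inj, Complex.I_ne_zero, or_false]
            at hab
          exact hab
        refine this.mono ?_
        rintro _ ⟨t, rfl⟩
        simp [hU]
        positivity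
    have h2 := congrArg (fun P => Polynomial.coeff P (n + 1)) h1
    simp only [coeff_map, coeff_C_mul] at h2
    rw [coeff_eq_zero_of_natDegree_lt (by omega)] at h2
    have h3 : p.coeff (n + 1) = 1 := by rw [← hpn]; exact hp
    rw [h3] at h2
    simp at h2
    rw [← h2] at h1
    simp at h1
    exact hq0 h1
  · have himg : IsOpen (g '' U) := hopen U subset_rfl uhp_open
    have h0 : (0 : ℂ) ∉ g '' U := by
      intro h0
      obtain ⟨ε, hε, hball⟩ := Metric.isOpen_iff.1 himg 0 h0
      have : ((ε / 2 : ℝ) : ℂ) ∈ g '' U := by
        apply hball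
        simp only [Metric.mem_ball, dist_zero_right, Complex.norm_real, Real.norm_eq_abs]
        rw [abs_of_pos (by positivity)]
        linarith
      obtain ⟨w, hw, hgw⟩ := this
      exact hreal w hw (ε / 2) (by positivity) hgw
    have him : ∀ w ∈ U, (g w).im ≠ 0 := by
      intro w hw hi
      have h1 : g w = ((g w).re : ℂ) := by
        apply Complex.ext <;> simp [hi]
      by_cases h2 : (g w).re = 0
      · apply h0
        refine ⟨w, hw, ?_⟩
        rw [h1, h2]; simp
      · exact hreal w hw _ h2 h1
    -- a point where the sign is positive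
    have hpos : ∃ w ∈ U, 0 < (g w).im := by
      set P := reflect (n + 1) p with hP
      set Q := reflect n q with hQ
      have hP0 : aeval (0 : ℂ) P = 1 := by
        rw [← coeff_zero_eq_aeval_zero', hP, coeff_reflect]
        have : p.coeff (n + 1) = 1 := by rw [← hpn]; exact hp
        simp [this]
      have hQ0 : aeval (0 : ℂ) Q = ((q.coeff n : ℝ) : ℂ) := by
        rw [← coeff_zero_eq_aeval_zero', hQ, coeff_reflect]
        simp
      have hcont : ContinuousAt (fun t : ℝ => (aeval (-(Complex.I * t)) Q / aeval (-(Complex.I * t)) P).re) 0 := by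
        have c1 : Continuous (fun t : ℝ => aeval (-(Complex.I * t)) Q) := by
          have := Polynomial.continuous_aeval (A := ℂ) Q
          exact this.comp (by fun_prop)
        have c2 : Continuous (fun t : ℝ => aeval (-(Complex.I * t)) P) := by
          have := Polynomial.continuous_aeval (A := ℂ) P
          exact this.comp (by fun_prop)
        refine Complex.continuous_re.continuousAt.comp ?_
        refine c1.continuousAt.div c2.continuousAt ?_
        simp only [Complex.ofReal_zero, mul_zero, neg_zero, hP0]
        exact one_ne_zero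
      have hval : (fun t : ℝ => (aeval (-(Complex.I * t)) Q / aeval (-(Complex.I * t)) P).re) 0 < 0 := by
        simp only [Complex.ofReal_zero, mul_zero, neg_zero, hP0, hQ0, div_one, Complex.ofReal_re]
        exact hc
      have hev := hcont.eventually_lt (continuousAt_const (y := (0 : ℝ))) hval
      obtain ⟨δ, hδ, hball⟩ := Metric.eventually_nhds_iff.1 hev
      have hδ2 : 0 < δ / 2 := by positivity
      have h1 := @hball (δ / 2) (by
        rw [Real.dist_eq, sub_zero, abs_of_pos hδ2]; linarith)
      set t : ℝ := δ / 2 with ht
      refine ⟨Complex.I * (t⁻¹ : ℝ), ?_, ?_⟩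
      · simp [hU]; positivity
      · have htc : (t : ℂ) ≠ 0 := by exact_mod_cast hδ2.ne'
        set w : ℂ := Complex.I * (t⁻¹ : ℝ) with hw
        have hw0 : w ≠ 0 := by
          rw [hw]; simp [htc]
        have hwi : w⁻¹ = -(Complex.I * t) := by
          rw [hw]
          push_cast
          rw [mul_inv, inv_inv, Complex.inv_I]; ring
        have e1 := aeval_eq_reflect p (n + 1) hpn.le w hw0
        have e2 := aeval_eq_reflect q n hq w hw0
        simp only [hg]
        rw [e1, e2, ← hP, ← hQ, hwi]
        have hPne : aeval (-(Complex.I * (t : ℂ))) P ≠ 0 := by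
          intro h5
          have := hp0 w (by rw [hw]; simp; positivity)
          apply this
          rw [e1, ← hP, hwi, h5, zero_mul]
        have e3 : aeval (-(Complex.I * (t : ℂ))) Q * w ^ n / (aeval (-(Complex.I * (t : ℂ))) P * w ^ (n + 1))
            = (aeval (-(Complex.I * (t : ℂ))) Q / aeval (-(Complex.I * (t : ℂ))) P) * w⁻¹ := by
          field_simp
          ring
        rw [e3, hwi]
        set R := aeval (-(Complex.I * (t : ℂ))) Q / aeval (-(Complex.I * (t : ℂ))) P with hR
        have : (R * -(Complex.I * (t : ℂ))).im = - (R.re * t) := by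
          simp [Complex.mul_im]
        rw [this]
        have : R.re * t < 0 := mul_neg_of_neg_of_pos h1 hδ2
        linarith
    by_contra hneg
    push Not at hneg
    have hneg' : (g z).im < 0 := lt_of_le_of_ne hneg (him z hz)
    obtain ⟨w, hw, hgw⟩ := hpos
    have hcont : ContinuousOn (fun z => (g z).im) U :=
      Complex.continuous_im.comp_continuousOn han.continuousOn
    have := hpre.intermediate_value hz hw hcont
    have h0mem : (0 : ℝ) ∈ Set.Icc ((g z).im) ((g w).im) := ⟨hneg'.le, hgw.le⟩
    obtain ⟨y, hy, hy0⟩ := this h0mem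
    exact him y hy hy0

end Pool.Agent.W130.RC
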