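import Pool.Agent.W130.RC.Compare

/-!
# The signed average is positive above the spectral radius
-/

set_option autoImplicit false

open Matrix Polynomial

namespace Pool.Agent.W130.RC

variable {V D : Type} [Fintype V] [DecidableEq V] [Fintype D] [DecidableEq D] {k : ℕ}

/-- adjacency matrix of the path -/
def pathM (k : ℕ) : Matrix (Fin (k + 1)) (Fin (k + 1)) ℝ :=
  ∑ j : Fin k, Xe j.castSucc j.succ

/-- labelled edges for one base edge -/
def edgesOf (G : MGraph V D) (e : D) (τ : Equiv.Perm (Fin (k + 1))) :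
    List ((V × Fin (k + 1)) × (V × Fin (k + 1)) × D) :=
  if G.src e = G.tgt e then
    List.ofFn (fun j : Fin k => ((G.src e, τ j.castSucc), (G.src e, τ j.succ), e))
  else List.ofFn (fun j : Fin (k + 1) => ((G.src e, τ j), (G.tgt e, j), e))

omit [Fintype V] in
lemma io_Xe (v : V) (a b : Fin k) :
    io (Fin k) v * Xe a b * (io (Fin k) v)ᵀ = Xe (v, a) (v, b) := by
  ext x y
  rw [io_block, Xe_apply, Xe_apply]
  obtain ⟨x1, x2⟩ := x
  obtain ⟨y1, y2⟩ := y
  simp only [Prod.mk.injEq]
  by_cases h1 : x1 = v
  · by_cases h2 : y1 = v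
    · subst h1; subst h2; simp
    · simp [h2, Ne.symm h2]
  · simp [h1, Ne.symm h1]

lemma sgn_Xe (s : Fin k → ℤˣ) (τ : Equiv.Perm (Fin k)) (a b : Fin k) :
    sgnM s τ * Xe a b * (sgnM s τ)ᵀ
      = ((((s (τ a) * s (τ b) : ℤˣ)) : ℤ) : ℝ) • Xe (τ a) (τ b) := by
  have h1 : ∀ a b : Fin k, sgnM s τ * Matrix.single a b (1 : ℝ) * (sgnM s τ)ᵀ
      = ((((s (τ a) * s (τ b) : ℤˣ)) : ℤ) : ℝ) • Matrix.single (τ a) (τ b) (1 : ℝ) := by
    intro a b
    ext x y
    rw [Matrix.mul_apply, Finset.sum_eq_single b]
    · rw [Matrix.mul_single_apply_same, mul_one, transpose_apply, sgnM_apply, sgnM_apply,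
        Matrix.smul_apply, Matrix.single_apply, smul_eq_mul]
      by_cases hx : x = τ a
      · by_cases hy : y = τ b
        · subst hx; subst hy; simp
        · simp [hy, Ne.symm hy]
      · simp [hx, Ne.symm hx]
    · intro c _ hc
      rw [Matrix.mul_single_apply_of_ne _ _ _ _ _ hc, zero_mul]
    · intro h; exact absurd (Finset.mem_univ _) h
  unfold Xe
  rw [Matrix.mul_add, Matrix.add_mul, h1, h1, smul_add, mul_comm (s (τ b))]

lemma sum_sgn_reindex (τ : Equiv.Perm (Fin k)) (F : (Fin k → ℤˣ) → ℝ) :
    ∑ s : Fin k → ℤˣ, F (fun j => s (τ j)) = ∑ s, F s := by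
  refine Fintype.sum_equiv (Equiv.arrowCongr τ.symm (Equiv.refl ℤˣ)) _ _ ?_
  intro s
  congr 1

lemma sign_step (G : MGraph V D) (e : D) (τ : Equiv.Perm (Fin (k + 1)))
    (F : Matrix (V × Fin (k + 1)) (V × Fin (k + 1)) ℝ → ℝ)
    (M : Matrix (V × Fin (k + 1)) (V × Fin (k + 1)) ℝ) :
    ∑ s : Fin (k + 1) → ℤˣ, F (M - term G (pathM k) e (sgnM s τ))
      = 2 ^ (k + 1) * avgS2 F (und (edgesOf G e τ)) M := by
  by_cases h : G.src e = G.tgt e
  · have ht : ∀ s : Fin (k + 1) → ℤˣ, term G (pathM k) e (sgnM s τ)
        = ∑ j : Fin k, ((((s (τ j.castSucc) * s (τ j.succ) : ℤˣ)) : ℤ) : ℝ) •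
          Xe (G.src e, τ j.castSucc) (G.src e, τ j.succ) := by
      intro s
      unfold term pathM
      rw [if_pos h, Matrix.mul_sum, Matrix.sum_mul, Matrix.mul_sum, Matrix.sum_mul]
      apply Finset.sum_congr rfl
      intro j _
      rw [sgn_Xe, Matrix.mul_smul, Matrix.smul_mul, io_Xe]
    simp only [ht]
    have h1 := sum_sgn_reindex τ (fun s => F (M - ∑ j : Fin k,
      ((((s j.castSucc * s j.succ : ℤˣ)) : ℤ) : ℝ) •
          Xe (G.src e, τ j.castSucc) (G.src e, τ j.succ)))
    simp only at h1
    rw [h1]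
    have h2 := sum_signs_path F k
      (fun j => ((G.src e, τ j.castSucc), (G.src e, τ j.succ))) M
    rw [h2]
    congr 2
    unfold und edgesOf
    rw [if_pos h, List.map_ofFn]
    rfl
  · have ht : ∀ s : Fin (k + 1) → ℤˣ, term G (pathM k) e (sgnM s τ)
        = ∑ j : Fin (k + 1), (((s (τ j) : ℤ)) : ℝ) • Xe (G.src e, τ j) (G.tgt e, j) := by
      intro s
      unfold term
      rw [if_neg h]
      ext x y
      rw [Matrix.add_apply, io_block, io_block, Matrix.sum_apply]
      simp only [Matrix.smul_apply, smul_eq_mul, Xe_apply, transpose_apply, sgnM_apply, mul_add,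
        Finset.sum_add_distrib]
      obtain ⟨x1, x2⟩ := x
      obtain ⟨y1, y2⟩ := y
      simp only [Prod.mk.injEq]
      congr 1
      · rw [Finset.sum_eq_single y2]
        · by_cases h1 : x1 = G.src e
          · by_cases h2 : y1 = G.tgt e
            · by_cases h3 : x2 = τ y2
              · simp [h1, h2, h3]
              · simp [h3, Ne.symm h3]
            · simp [h2, Ne.symm h2]
          · simp [h1, Ne.symm h1]
        · intro c _ hc
          simp [hc]
        · intro h; exact absurd (Finset.mem_univ _) h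
      · rw [Finset.sum_eq_single x2]
        · by_cases h1 : x1 = G.tgt e
          · by_cases h2 : y1 = G.src e
            · by_cases h3 : y2 = τ x2
              · simp [h1, h2, h3]
              · simp [h3, Ne.symm h3]
            · simp [h2, Ne.symm h2]
          · simp [h1, Ne.symm h1]
        · intro c _ hc
          simp [hc]
        · intro h; exact absurd (Finset.mem_univ _) h
    simp only [ht]
    have h1 := sum_sgn_reindex τ (fun s => F (M - ∑ j : Fin (k + 1),
      (((s j : ℤ)) : ℝ) • Xe (G.src e, τ j) (G.tgt e, j)))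
    simp only at h1
    rw [h1]
    have h2 := sum_signs F (k + 1) (fun j => ((G.src e, τ j), (G.tgt e, j))) M
    rw [h2]
    congr 2
    unfold und edgesOf
    rw [if_neg h, List.map_ofFn]
    rfl

/-- the lists of labelled edges which occur -/
def PL {ι : Type} (G : MGraph V D) (e : ι → D) (k : ℕ) :
    List ι → List ((V × Fin (k + 1)) × (V × Fin (k + 1)) × D) → Prop
  | [], ℓ => ℓ = []
  | i :: L, ℓ => ∃ (τ : Equiv.Perm (Fin (k + 1)))
      (ℓ' : List ((V × Fin (k + 1)) × (V × Fin (k + 1)) × D)),
      PL G e k L ℓ' ∧ ℓ = edgesOf G (e i) τ ++ ℓ'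

omit [Fintype V] [Fintype D] [DecidableEq D] [DecidableEq V] in
lemma und_append {N : Type*} (a b : List (N × N × D)) : und (a ++ b) = und a ++ und b := by
  simp [und]

lemma itAvg_pos {ι : Type} (G : MGraph V D) (e : ι → D)
    (M : Matrix (V × Fin (k + 1)) (V × Fin (k + 1)) ℝ) :
    ∀ (L : List ι) (ℓ0 : List ((V × Fin (k + 1)) × (V × Fin (k + 1)))),
      (∀ ℓ, PL G e k L ℓ → 0 < avgS2 Matrix.det (ℓ0 ++ und ℓ) M) →
      0 < avgS2 (itAvg G e (signedAvg (Nat.succ_pos k)) (pathM k) L) ℓ0 M := by
  intro L
  induction L with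
  | nil =>
    intro ℓ0 h
    have := h [] rfl
    rw [show und ([] : List ((V × Fin (k + 1)) × (V × Fin (k + 1)) × D)) = [] from rfl,
      List.append_nil] at this
    exact this
  | cons i L ih =>
    intro ℓ0 h
    have e1 : itAvg G e (signedAvg (Nat.succ_pos k)) (pathM k) (i :: L)
        = fun M => ((Fintype.card ((Fin (k + 1) → ℤˣ) × Equiv.Perm (Fin (k + 1))) : ℝ)⁻¹
          * 2 ^ (k + 1)) * ∑ τ : Equiv.Perm (Fin (k + 1)),
            avgS2 (itAvg G e (signedAvg (Nat.succ_pos k)) (pathM k) L)
              (und (edgesOf G (e i) τ)) M := by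
      funext M'
      show (Fintype.card ((Fin (k + 1) → ℤˣ) × Equiv.Perm (Fin (k + 1))) : ℝ)⁻¹ *
        ∑ γ : (Fin (k + 1) → ℤˣ) × Equiv.Perm (Fin (k + 1)),
          itAvg G e (signedAvg (Nat.succ_pos k)) (pathM k) L
            (M' - term G (pathM k) (e i) (sgnM γ.1 γ.2)) = _
      rw [mul_assoc, Finset.mul_sum (Finset.univ) _ ((2 : ℝ) ^ (k + 1)),
        Fintype.sum_prod_type_right]
      congr 1
      apply Finset.sum_congr rfl
      intro τ _
      exact sign_step G (e i) τ _ M'
    rw [e1, avgS2_sum]
    apply mul_pos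
    · apply mul_pos
      · apply inv_pos.2
        have : 0 < Fintype.card ((Fin (k + 1) → ℤˣ) × Equiv.Perm (Fin (k + 1))) :=
          Fintype.card_pos
        exact_mod_cast this
      · positivity
    · apply Finset.sum_pos
      · intro τ _
        rw [← avgS2_append]
        apply ih
        intro ℓ hℓ
        rw [List.append_assoc, ← und_append]
        exact h _ ⟨τ, ℓ, hℓ, rfl⟩
      · exact Finset.univ_nonempty

/-! ### immersion property -/

omit [Fintype V] [Fintype D] [DecidableEq D] in
lemma imm_nil {N : Type*} [DecidableEq N] (G : MGraph V D) (p : N → V) : Imm G p [] where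
  ne := by simp
  src := by simp
  tgt := by simp
  nodup := by simp [half]

omit [Fintype V] [Fintype D] [DecidableEq D] [DecidableEq V] in
lemma half_append {N : Type*} [DecidableEq N] (G : MGraph V D) (a b : List (N × N × D)) (v : N) :
    half G (a ++ b) v = half G a v ++ half G b v := by
  simp [half]

omit [Fintype V] [Fintype D] in
lemma imm_append {N : Type*} [DecidableEq N] {G : MGraph V D} {p : N → V}
    {a b : List (N × N × D)} (ha : Imm G p a) (hb : Imm G p b)
    (hab : ∀ s ∈ a, ∀ t ∈ b, s.2.2 ≠ t.2.2 ∧ s.2.2 ≠ G.rev t.2.2) : Imm G p (a ++ b) where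
  ne := by
    intro t ht
    rcases List.mem_append.1 ht with h | h
    · exact ha.ne t h
    · exact hb.ne t h
  src := by
    intro t ht
    rcases List.mem_append.1 ht with h | h
    · exact ha.src t h
    · exact hb.src t h
  tgt := by
    intro t ht
    rcases List.mem_append.1 ht with h | h
    · exact ha.tgt t h
    · exact hb.tgt t h
  nodup := by
    intro v
    rw [half_append, List.map_append, List.nodup_append]
    refine ⟨ha.nodup v, hb.nodup v, ?_⟩
    intro f hf f' hf' hff
    subst hff
    rw [List.mem_map] at hf hf'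
    obtain ⟨⟨f1, w1⟩, h1, rfl⟩ := hf
    obtain ⟨⟨f2, w2⟩, h2, h3⟩ := hf'
    simp only at h3
    subst h3
    rw [mem_half] at h1 h2
    simp only at h1 h2
    rcases h1 with h1 | h1 <;> rcases h2 with h2 | h2
    · exact (hab _ h1 _ h2).1 rfl
    · exact (hab _ h1 _ h2).2 (G.rev_rev _).symm
    · exact (hab _ h1 _ h2).2 rfl
    · exact (hab _ h1 _ h2).1 rfl

omit [Fintype V] [Fintype D] in
lemma imm_ofFn {N : Type*} [DecidableEq N] (G : MGraph V D) (p : N → V) (n : ℕ) (a b : Fin n → N)
    (e : D) (ha : Function.Injective a) (hb : Function.Injective b) (hab : ∀ j, a j ≠ b j)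
    (hpa : ∀ j, p (a j) = G.src e) (hpb : ∀ j, p (b j) = G.tgt e) :
    Imm G p (List.ofFn (fun j => (a j, b j, e))) where
  ne := by
    intro t ht
    rw [List.mem_ofFn] at ht
    obtain ⟨j, rfl⟩ := ht
    exact hab j
  src := by
    intro t ht
    rw [List.mem_ofFn] at ht
    obtain ⟨j, rfl⟩ := ht
    exact hpa j
  tgt := by
    intro t ht
    rw [List.mem_ofFn] at ht
    obtain ⟨j, rfl⟩ := ht
    exact hpb j
  nodup := by
    intro v
    have h0 : (half G (List.ofFn (fun j => (a j, b j, e))) v).map Prod.fst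
        = (List.ofFn (fun j : Fin n => j)).flatMap (fun j => (if a j = v then [e] else [])
          ++ (if b j = v then [G.rev e] else [])) := by
      unfold half
      rw [List.map_flatMap]
      have : List.ofFn (fun j => (a j, b j, e))
          = (List.ofFn (fun j : Fin n => j)).map (fun j => (a j, b j, e)) := by
        rw [List.map_ofFn]; rfl
      rw [this, List.flatMap_map]
      congr 1
      funext j
      simp only [List.map_append]
      congr 1
      · split_ifs <;> simp
      · split_ifs <;> simp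
    rw [h0, List.nodup_flatMap]
    constructor
    · intro j _
      by_cases h1 : a j = v <;> by_cases h2 : b j = v
      · exact absurd (h1.trans h2.symm) (hab j)
      · simp [h1, h2]
      · simp [h1, h2]
      · simp [h1, h2]
    · rw [List.pairwise_ofFn]
      intro i j hij
      rw [Function.onFun, List.disjoint_left]
      intro f hf hf'
      rw [List.mem_append] at hf hf'
      have hne : i ≠ j := hij.ne
      have hrev := G.rev_ne e
      rcases hf with hf | hf <;> rcases hf' with hf' | hf'
      · split_ifs at hf with h1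
        · split_ifs at hf' with h2
          · exact hne (ha (h1.trans h2.symm))
          · simp at hf'
        · simp at hf
      · split_ifs at hf with h1
        · split_ifs at hf' with h2
          · rw [List.mem_singleton] at hf hf'
            exact hrev (hf'.symm.trans hf)
          · simp at hf'
        · simp at hf
      · split_ifs at hf with h1
        · split_ifs at hf' with h2
          · rw [List.mem_singleton] at hf hf'
            exact hrev (hf.symm.trans hf')
          · simp at hf'
        · simp at hf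
      · split_ifs at hf with h1
        · split_ifs at hf' with h2
          · exact hne (hb (h1.trans h2.symm))
          · simp at hf'
        · simp at hf

omit [Fintype V] [Fintype D] in
lemma imm_edgesOf (G : MGraph V D) (e : D) (τ : Equiv.Perm (Fin (k + 1))) :
    Imm G (Prod.fst : V × Fin (k + 1) → V) (edgesOf G e τ) := by
  unfold edgesOf
  by_cases h : G.src e = G.tgt e
  · rw [if_pos h]
    apply imm_ofFn
    · intro i j hij
      simp only [Prod.mk.injEq, true_and] at hij
      exact Fin.castSucc_injective _ (τ.injective hij)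
    · intro i j hij
      simp only [Prod.mk.injEq, true_and] at hij
      exact Fin.succ_injective _ (τ.injective hij)
    · intro j hj
      simp only [Prod.mk.injEq, true_and] at hj
      exact (Fin.castSucc_lt_succ (i := j)).ne (τ.injective hj)
    · intro j; rfl
    · intro j; exact h
  · rw [if_neg h]
    apply imm_ofFn
    · intro i j hij
      simp only [Prod.mk.injEq, true_and] at hij
      exact τ.injective hij
    · intro i j hij
      simp only [Prod.mk.injEq, true_and] at hij
      exact hij
    · intro j hj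
      simp only [Prod.mk.injEq] at hj
      exact h hj.1
    · intro j; rfl
    · intro j; rfl

omit [Fintype V] [Fintype D] [DecidableEq D] in
lemma label_edgesOf (G : MGraph V D) (e : D) (τ : Equiv.Perm (Fin (k + 1))) :
    ∀ t ∈ edgesOf G e τ, t.2.2 = e := by
  intro t ht
  unfold edgesOf at ht
  split_ifs at ht
  · rw [List.mem_ofFn] at ht
    obtain ⟨j, rfl⟩ := ht
    rfl
  · rw [List.mem_ofFn] at ht
    obtain ⟨j, rfl⟩ := ht
    rfl

omit [Fintype V] [Fintype D] in
lemma imm_PL {ι : Type} (G : MGraph V D) (e : ι → D)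
    (hor : ∀ i j, i ≠ j → e i ≠ e j ∧ e i ≠ G.rev (e j)) :
    ∀ (L : List ι), L.Nodup → ∀ ℓ, PL G e k L ℓ →
      Imm G (Prod.fst : V × Fin (k + 1) → V) ℓ ∧ ∀ t ∈ ℓ, ∃ i ∈ L, t.2.2 = e i := by
  intro L
  induction L with
  | nil =>
    intro _ ℓ hℓ
    have : ℓ = [] := hℓ
    subst this
    exact ⟨imm_nil G _, by simp⟩
  | cons i L ih =>
    intro hL ℓ hℓ
    rw [List.nodup_cons] at hL
    obtain ⟨τ, ℓ', h1, rfl⟩ := hℓ
    obtain ⟨h2, h3⟩ := ih hL.2 ℓ' h1
    constructor
    · apply imm_append (imm_edgesOf G (e i) τ) h2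
      intro s hs t ht
      obtain ⟨j, hj, hj'⟩ := h3 t ht
      rw [label_edgesOf G (e i) τ s hs, hj']
      apply hor
      rintro rfl
      exact hL.1 hj
    · intro t ht
      rcases List.mem_append.1 ht with h | h
      · exact ⟨i, List.mem_cons_self, label_edgesOf G (e i) τ t h⟩
      · obtain ⟨j, hj, hj'⟩ := h3 t h
        exact ⟨j, List.mem_cons_of_mem _ hj, hj'⟩

/-- positivity of the signed average above the spectral radius -/
theorem signed_pos {ι : Type} (G : MGraph V D) (e : ι → D)
    (hor : ∀ i j, i ≠ j → e i ≠ e j ∧ e i ≠ G.rev (e j)) (ρ x : ℝ) (hx : ρ < x)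
    (hRB : ∀ v, G.RB v ρ) (L : List ι) (hL : L.Nodup) :
    0 < itAvg G e (signedAvg (Nat.succ_pos k)) (pathM k) L (x • 1) := by
  have h := itAvg_pos (k := k) G e (x • 1) L [] (by
    intro ℓ hℓ
    rw [List.nil_append]
    obtain ⟨h1, _⟩ := imm_PL G e hor L hL ℓ hℓ
    rw [avgS2_det]
    · exact (mu_pos G ρ x hx hRB Prod.fst ℓ h1 _).1 ∅ rfl
    · intro t ht
      simp only [und, List.mem_map] at ht
      obtain ⟨s, hs, rfl⟩ := ht
      exact h1.ne s hs)
  exact h

end Pool.Agent.W130.RC
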