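import Pool.Agent.W130.RC.Bridge
import Pool.Agent.W130.RC.CharD

/-!
# The standard representation of the symmetric group and the signed permutations
-/

set_option autoImplicit false

open Matrix

namespace Pool.Agent.W130.RC

/-- permutation matrix: the basis vector of `j` goes to the basis vector of `σ j` -/
def Pm {α : Type*} [DecidableEq α] (σ : Equiv.Perm α) : Matrix α α ℝ :=
  Matrix.of (fun i j => if i = σ j then 1 else 0)

section perm

variable {α : Type*} [Fintype α] [DecidableEq α]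

omit [Fintype α] in
lemma Pm_apply (σ : Equiv.Perm α) (i j : α) : Pm σ i j = if i = σ j then 1 else 0 := rfl

omit [Fintype α] in
lemma Pm_one : Pm (1 : Equiv.Perm α) = 1 := by
  ext i j
  rw [Pm_apply, Matrix.one_apply]
  rfl

lemma Pm_mul (σ τ : Equiv.Perm α) : Pm (σ * τ) = Pm σ * Pm τ := by
  ext i j
  rw [Matrix.mul_apply, Finset.sum_eq_single (τ j)]
  · simp only [Pm_apply, Equiv.Perm.mul_apply, if_true, mul_one]
    rfl
  · intro c _ hc
    rw [Pm_apply τ, if_neg hc, mul_zero]
  · intro h; exact absurd (Finset.mem_univ _) h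

omit [Fintype α] in
lemma Pm_inv (σ : Equiv.Perm α) : Pm σ⁻¹ = (Pm σ)ᵀ := by
  ext i j
  simp only [Pm_apply, transpose_apply]
  congr 1
  simp only [eq_iff_iff]
  constructor
  · rintro rfl; simp
  · rintro rfl; simp

lemma Pm_orth (σ : Equiv.Perm α) : Pm σ * (Pm σ)ᵀ = 1 := by
  rw [← Pm_inv, ← Pm_mul, mul_inv_cancel, Pm_one]

omit [Fintype α] in
lemma Pm_swap (a b : α) (hab : a ≠ b) :
    Pm (Equiv.swap a b) = 1 - vecMulVec (Pi.single a (1 : ℝ) - Pi.single b 1)
      (Pi.single a (1 : ℝ) - Pi.single b 1) := by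
  ext i j
  simp only [Pm_apply, Matrix.sub_apply, Matrix.one_apply, vecMulVec_apply, Pi.sub_apply,
    Pi.single_apply]
  by_cases hja : j = a
  · subst hja
    rw [Equiv.swap_apply_left]
    by_cases hij : i = j
    · subst hij; simp [hab]
    · by_cases hib : i = b
      · subst hib; simp [hij, Ne.symm hij]
      · simp [hij, hib]
  · by_cases hjb : j = b
    · subst hjb
      rw [Equiv.swap_apply_right]
      by_cases hia : i = a
      · subst hia; simp [hab, Ne.symm hab]
      · by_cases hij : i = j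
        · subst hij; simp [hja]
        · simp [hia, hij, Ne.symm hab]
    · rw [Equiv.swap_apply_of_ne_of_ne hja hjb]
      simp [hja, hjb]

end perm

section house

variable (d : ℕ)

/-- the all-ones matrix -/
def Jm (d : ℕ) : Matrix (Fin (d + 1)) (Fin (d + 1)) ℝ := Matrix.of (fun _ _ => 1)

/-- an isometry onto the sum-zero space exists -/
lemma exists_std (hd : 0 < d) : ∃ U : Matrix (Fin (d + 1)) (Fin d) ℝ, Uᵀ * U = 1 ∧
    U * Uᵀ = 1 - ((d + 1 : ℝ)⁻¹) • Jm d := by
  set c : ℝ := (Real.sqrt (d + 1))⁻¹ with hc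
  have hpos : (0 : ℝ) < d + 1 := by positivity
  have hcc : c * c * (d + 1) = 1 := by
    rw [hc, ← mul_inv, Real.mul_self_sqrt hpos.le]; field_simp
  have hc1 : 1 - c ≠ 0 := by
    intro h
    have h1 : c = 1 := by linarith
    rw [h1] at hcc
    have h2 : (0 : ℝ) < d := by exact_mod_cast hd
    linarith
  set t : ℝ := (1 - c)⁻¹ with ht
  have htc : t * (1 - c) = 1 := inv_mul_cancel₀ hc1
  set h : Fin (d + 1) → ℝ := fun i => (if i = Fin.last d then 1 else 0) - c with hh
  have hhh : h ⬝ᵥ h = 2 * (1 - c) := by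
    simp only [hh, dotProduct]
    have : ∀ i : Fin (d + 1), ((if i = Fin.last d then (1 : ℝ) else 0) - c) *
        ((if i = Fin.last d then (1 : ℝ) else 0) - c)
        = (if i = Fin.last d then (1 - 2 * c) else 0) + c * c := by
      intro i; split_ifs <;> ring
    simp only [this, Finset.sum_add_distrib, Finset.sum_ite_eq', Finset.mem_univ, if_true,
      Finset.sum_const, Finset.card_univ, Fintype.card_fin, nsmul_eq_mul]
    push_cast
    linarith
  set H : Matrix (Fin (d + 1)) (Fin (d + 1)) ℝ := 1 - t • vecMulVec h h with hH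
  have hHs : Hᵀ = H := by
    rw [hH, transpose_sub, transpose_one, transpose_smul, (vecMulVec_symm h)]
  have hHH : H * H = 1 := by
    have e1 : vecMulVec h h * vecMulVec h h = (h ⬝ᵥ h) • vecMulVec h h := by
      rw [Matrix.vecMulVec_mul_vecMulVec]
      ext i j
      simp [vecMulVec_apply]
      try ring
    have e2 : H * H = 1 - (2 * t) • vecMulVec h h + (t * t) • (vecMulVec h h * vecMulVec h h) := by
      rw [hH, sub_mul, mul_sub, mul_sub, smul_mul_smul_comm]
      simp only [one_mul, mul_one]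
      rw [two_mul, add_smul]
      abel
    rw [e2, e1, hhh, smul_smul]
    have : t * t * (2 * (1 - c)) = 2 * t := by
      calc t * t * (2 * (1 - c)) = 2 * t * (t * (1 - c)) := by ring
        _ = 2 * t := by rw [htc, mul_one]
    rw [this]; simp
  have hlast : ∀ i, H i (Fin.last d) = c := by
    intro i
    simp only [hH, Matrix.sub_apply, Matrix.one_apply, Matrix.smul_apply, vecMulVec_apply, hh,
      if_true, smul_eq_mul]
    have : t * (((if i = Fin.last d then 1 else 0) - c) * (1 - c))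
        = (t * (1 - c)) * ((if i = Fin.last d then 1 else 0) - c) := by ring
    rw [this, htc]; ring
  refine ⟨H.submatrix id Fin.castSucc, ?_, ?_⟩
  · ext i j
    rw [transpose_submatrix, Matrix.mul_apply]
    simp only [submatrix_apply, id, transpose_apply]
    have h1 := congrFun (congrFun hHH (Fin.castSucc i)) (Fin.castSucc j)
    rw [Matrix.mul_apply] at h1
    have h2 : ∀ k, H (Fin.castSucc i) k = H k (Fin.castSucc i) := by
      intro k
      conv_lhs => rw [← hHs]
      rfl
    simp only [h2] at h1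
    rw [h1, Matrix.one_apply, Matrix.one_apply]
    simp [Fin.ext_iff]
  · ext i j
    rw [transpose_submatrix, Matrix.mul_apply]
    simp only [submatrix_apply, id, transpose_apply]
    have h1 := congrFun (congrFun hHH i) j
    rw [Matrix.mul_apply, Fin.sum_univ_castSucc] at h1
    have h2 : ∀ k, H k j = H j k := by
      intro k
      conv_lhs => rw [← hHs]
      rfl
    simp only [h2, hlast] at h1
    simp only [Matrix.sub_apply, Matrix.smul_apply, Jm, Matrix.of_apply, smul_eq_mul, mul_one]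
    have : ((d : ℝ) + 1)⁻¹ = c * c := by
      field_simp
      linarith
    rw [this]
    linarith

end house

/-- data of the standard representation -/
structure Std (d : ℕ) where
  pos : 0 < d
  U : Matrix (Fin (d + 1)) (Fin d) ℝ
  UtU : Uᵀ * U = 1
  UUt : U * Uᵀ = 1 - ((d + 1 : ℝ)⁻¹) • Jm d

namespace Std

variable {d : ℕ} (S : Std d)

lemma Jm_mul_U : Jm d * S.U = 0 := by
  have h1 : S.U * S.Uᵀ * S.U = S.U := by rw [Matrix.mul_assoc, S.UtU, Matrix.mul_one]
  rw [S.UUt, Matrix.sub_mul, Matrix.one_mul, Matrix.smul_mul] at h1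
  have h2 : ((d + 1 : ℝ)⁻¹) • (Jm d * S.U) = 0 := by
    have := sub_eq_self.1 h1
    exact this
  have hne : ((d + 1 : ℝ)⁻¹) ≠ 0 := by positivity
  exact (smul_eq_zero.1 h2).resolve_left hne

lemma Ut_mul_Jm : S.Uᵀ * Jm d = 0 := by
  have := congrArg Matrix.transpose S.Jm_mul_U
  rw [transpose_mul, transpose_zero] at this
  exact this

lemma Jm_mul_Pm (σ : Equiv.Perm (Fin (d + 1))) : Jm d * Pm σ = Jm d := by
  ext i j
  simp [Jm, Matrix.mul_apply, Pm_apply]

lemma Pm_mul_Jm (σ : Equiv.Perm (Fin (d + 1))) : Pm σ * Jm d = Jm d := by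
  ext i j
  simp only [Jm, Matrix.mul_apply, Pm_apply, Matrix.of_apply, mul_one]
  rw [Finset.sum_eq_single (σ⁻¹ i)]
  · simp
  · intro b _ hb
    rw [if_neg]
    rintro rfl
    simp at hb
  · intro h; exact absurd (Finset.mem_univ _) h

/-- the standard representation -/
def pi (σ : Equiv.Perm (Fin (d + 1))) : Matrix (Fin d) (Fin d) ℝ := S.Uᵀ * Pm σ * S.U

lemma UUt_Pm_U (σ : Equiv.Perm (Fin (d + 1))) : S.U * S.Uᵀ * (Pm σ * S.U) = Pm σ * S.U := by
  rw [S.UUt, Matrix.sub_mul, Matrix.one_mul, Matrix.smul_mul, ← Matrix.mul_assoc (Jm d),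
    Jm_mul_Pm, S.Jm_mul_U, smul_zero, sub_zero]

lemma U_pi (σ : Equiv.Perm (Fin (d + 1))) : S.U * S.pi σ = Pm σ * S.U := by
  unfold pi
  rw [Matrix.mul_assoc S.Uᵀ, ← Matrix.mul_assoc S.U, S.UUt_Pm_U]

lemma pi_one : S.pi 1 = 1 := by
  unfold pi; rw [Pm_one, Matrix.mul_one, S.UtU]

lemma pi_mul (σ τ : Equiv.Perm (Fin (d + 1))) : S.pi (σ * τ) = S.pi σ * S.pi τ := by
  have h1 : S.pi σ * S.pi τ = S.Uᵀ * Pm σ * (S.U * S.pi τ) := by
    rw [pi, pi]; simp only [Matrix.mul_assoc]
  rw [h1, S.U_pi, pi, Pm_mul]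
  simp only [Matrix.mul_assoc]

lemma pi_inv (σ : Equiv.Perm (Fin (d + 1))) : S.pi σ⁻¹ = (S.pi σ)ᵀ := by
  unfold pi
  rw [Pm_inv, transpose_mul, transpose_mul, transpose_transpose, Matrix.mul_assoc]

lemma pi_orth (σ : Equiv.Perm (Fin (d + 1))) : S.pi σ * (S.pi σ)ᵀ = 1 := by
  rw [← S.pi_inv, ← S.pi_mul, mul_inv_cancel, S.pi_one]

/-- as a homomorphism -/
def piHom : Equiv.Perm (Fin (d + 1)) →* Matrix (Fin d) (Fin d) ℝ where
  toFun := S.pi
  map_one' := S.pi_one
  map_mul' := S.pi_mul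

/-- the image of the difference of two basis vectors -/
def dv (a b : Fin (d + 1)) : Fin d → ℝ :=
  S.Uᵀ *ᵥ (Pi.single a (1 : ℝ) - Pi.single b 1)

lemma Ut_dot (x : Fin (d + 1) → ℝ) (a b : Fin (d + 1)) :
    (S.Uᵀ *ᵥ x) ⬝ᵥ S.dv a b = x a - x b := by
  unfold dv
  have h1 : (S.Uᵀ *ᵥ x) ⬝ᵥ (S.Uᵀ *ᵥ (Pi.single a (1 : ℝ) - Pi.single b 1))
      = x ⬝ᵥ ((S.U * S.Uᵀ) *ᵥ (Pi.single a (1 : ℝ) - Pi.single b 1)) := by
    rw [dotProduct_mulVec, Matrix.vecMul_transpose, mulVec_mulVec, dotProduct_comm,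
      dotProduct_mulVec, ← mulVec_transpose, dotProduct_comm]
    congr 2
    rw [transpose_mul, transpose_transpose]
  have h2 : (S.U * S.Uᵀ) *ᵥ (Pi.single a (1 : ℝ) - Pi.single b 1)
      = Pi.single a (1 : ℝ) - Pi.single b 1 := by
    rw [S.UUt, sub_mulVec, one_mulVec, smul_mulVec]
    have : Jm d *ᵥ (Pi.single a (1 : ℝ) - Pi.single b 1) = 0 := by
      funext i
      simp [Jm, mulVec_sub]
    rw [this]; simp
  rw [h1, h2, dotProduct_sub, dotProduct_single, dotProduct_single]
  simp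

lemma dv_norm (a b : Fin (d + 1)) (hab : a ≠ b) : S.dv a b ⬝ᵥ S.dv a b = 2 := by
  have h := S.Ut_dot (Pi.single a (1 : ℝ) - Pi.single b 1) a b
  rw [show S.dv a b ⬝ᵥ S.dv a b = (S.Uᵀ *ᵥ (Pi.single a (1 : ℝ) - Pi.single b 1)) ⬝ᵥ S.dv a b
    from rfl, h]
  simp [Pi.single_apply, hab, hab.symm]
  norm_num

lemma pi_swap (a b : Fin (d + 1)) (hab : a ≠ b) :
    S.pi (Equiv.swap a b) = 1 - vecMulVec (S.dv a b) (S.dv a b) := by
  unfold pi dv
  rw [Pm_swap a b hab, Matrix.mul_sub, Matrix.sub_mul, Matrix.mul_one, S.UtU]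
  congr 1
  rw [Matrix.mul_vecMulVec, Matrix.vecMulVec_mul, ← mulVec_transpose]

lemma isRoot (a b : Fin (d + 1)) (hab : a ≠ b) : IsRoot S.pi (S.dv a b) := by
  refine ⟨1, by rw [S.dv_norm a b hab]; norm_num, ?_⟩
  intro H
  rw [one_smul, ← S.pi_swap a b hab]
  simp only [← S.pi_mul]
  exact Fintype.sum_equiv (Equiv.mulRight (Equiv.swap a b)) _ _ (fun σ => rfl)

/-- the family of the symmetric group -/
def rootAvg : RootAvg d where
  pos := S.pos
  Γ := Equiv.Perm (Fin (d + 1))
  fin := inferInstance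
  ne := inferInstance
  g := S.pi
  orth := S.pi_orth
  W := fun i => S.dv (Fin.castSucc i) (Fin.last d)
  W' := fun i => S.Uᵀ *ᵥ (Pi.single (Fin.castSucc i) (1 : ℝ))
  dual := by
    intro i j
    rw [S.Ut_dot]
    have h1 : (Pi.single (Fin.castSucc i) (1 : ℝ) : Fin (d + 1) → ℝ) (Fin.last d) = 0 := by
      rw [Pi.single_apply, if_neg]
      exact (Fin.castSucc_lt_last i).ne'
    rw [h1, sub_zero, Pi.single_apply]
    simp [Fin.ext_iff, eq_comm]
  root1 := by
    intro i
    exact S.isRoot _ _ (Fin.castSucc_lt_last i).ne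
  root2 := by
    intro i j hij
    have h1 : S.dv (Fin.castSucc i) (Fin.last d) - S.dv (Fin.castSucc j) (Fin.last d)
        = S.dv (Fin.castSucc i) (Fin.castSucc j) := by
      unfold dv
      rw [← mulVec_sub]
      congr 1
      abel
    rw [h1]
    apply S.isRoot
    intro h
    exact hij (Fin.castSucc_injective d h)

end Std

section signed

variable {d : ℕ}

/-- signed permutation matrices -/
def sgnM (s : Fin d → ℤˣ) (τ : Equiv.Perm (Fin d)) : Matrix (Fin d) (Fin d) ℝ :=
  Matrix.of (fun i j => if i = τ j then ((s i : ℤ) : ℝ) else 0)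

lemma sgnM_apply (s : Fin d → ℤˣ) (τ : Equiv.Perm (Fin d)) (i j : Fin d) :
    sgnM s τ i j = if i = τ j then ((s i : ℤ) : ℝ) else 0 := rfl

lemma sgn_sq (s : ℤˣ) : ((s : ℤ) : ℝ) * ((s : ℤ) : ℝ) = 1 := by
  rw [← Int.cast_mul, ← Units.val_mul, Int.units_mul_self]; simp

lemma sgnM_orth (s : Fin d → ℤˣ) (τ : Equiv.Perm (Fin d)) :
    sgnM s τ * (sgnM s τ)ᵀ = 1 := by
  ext i j
  simp only [Matrix.mul_apply, transpose_apply, sgnM_apply, Matrix.one_apply]
  rw [Finset.sum_eq_single (τ⁻¹ i)]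
  · have hti : τ (τ⁻¹ i) = i := by simp
    simp only [hti, if_true]
    by_cases h : i = j
    · subst h; simp [sgn_sq]
    · rw [if_neg (Ne.symm h), if_neg h, mul_zero]
  · intro b _ hb
    rw [if_neg, zero_mul]
    rintro rfl
    simp at hb
  · intro h; exact absurd (Finset.mem_univ _) h

lemma sgnM_mul_flip (s : Fin d → ℤˣ) (τ : Equiv.Perm (Fin d)) (i : Fin d) :
    sgnM s τ * (1 - (2 : ℝ) • vecMulVec (Pi.single i (1 : ℝ)) (Pi.single i 1))
      = sgnM (s * Function.update (1 : Fin d → ℤˣ) (τ i) (-1)) τ := by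
  ext a b
  rw [Matrix.mul_sub, Matrix.mul_one, Matrix.mul_smul, Matrix.mul_vecMulVec]
  simp only [Matrix.sub_apply, Matrix.smul_apply, vecMulVec_apply, sgnM_apply, smul_eq_mul,
    mulVec_single, Pi.mul_apply, Units.val_mul, Int.cast_mul]
  by_cases hb : b = i
  · subst hb
    by_cases ha : a = τ b
    · subst ha; simp [sgnM_apply]; ring
    · simp [sgnM_apply, ha]
  · by_cases ha : a = τ b
    · subst ha
      have : τ b ≠ τ i := fun h => hb (τ.injective h)
      simp [sgnM_apply, Function.update_of_ne this, Pi.single_apply, hb]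
    · simp [ha, Pi.single_apply, hb]

lemma sgnM_mul_swap (s : Fin d → ℤˣ) (τ : Equiv.Perm (Fin d)) (i j : Fin d) :
    sgnM s τ * Pm (Equiv.swap i j) = sgnM s (τ * Equiv.swap i j) := by
  ext a b
  simp only [Matrix.mul_apply, sgnM_apply, Pm_apply, Equiv.Perm.mul_apply]
  rw [Finset.sum_eq_single (Equiv.swap i j b)]
  · rw [if_pos rfl, mul_one]
    rfl
  · intro c _ hc
    rw [if_neg hc, mul_zero]
  · intro h; exact absurd (Finset.mem_univ _) h

/-- the family of signed permutations -/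
def signedAvg (hd : 0 < d) : RootAvg d where
  pos := hd
  Γ := (Fin d → ℤˣ) × Equiv.Perm (Fin d)
  fin := inferInstance
  ne := inferInstance
  g := fun x => sgnM x.1 x.2
  orth := fun x => sgnM_orth x.1 x.2
  W := fun i => Pi.single i 1
  W' := fun i => Pi.single i 1
  dual := by
    intro i j
    simp [Pi.single_apply, eq_comm]
  root1 := by
    intro i
    refine ⟨2, by simp, ?_⟩
    intro H
    simp only [sgnM_mul_flip]
    refine Fintype.sum_bijective
      (fun x : (Fin d → ℤˣ) × Equiv.Perm (Fin d) => (x.1 * Function.update (1 : Fin d → ℤˣ) (x.2 i) (-1), x.2))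
      ?_ _ _ (fun x => rfl)
    have hinv : Function.Involutive
        (fun x : (Fin d → ℤˣ) × Equiv.Perm (Fin d) =>
          (x.1 * Function.update (1 : Fin d → ℤˣ) (x.2 i) (-1), x.2)) := by
      intro x
      ext1
      · simp only
        rw [mul_assoc]
        have : (Function.update (1 : Fin d → ℤˣ) (x.2 i) (-1)) *
            (Function.update (1 : Fin d → ℤˣ) (x.2 i) (-1)) = 1 := by
          funext a
          exact Int.units_mul_self _
        rw [this, mul_one]
      · rfl
    exact hinv.bijective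
  root2 := by
    intro i j hij
    refine ⟨1, ?_, ?_⟩
    · simp [dotProduct_sub, sub_dotProduct, Pi.single_apply, hij, hij.symm]
      norm_num
    intro H
    rw [one_smul, ← Pm_swap i j hij]
    simp only [sgnM_mul_swap]
    refine Fintype.sum_equiv ((Equiv.refl _).prodCongr (Equiv.mulRight (Equiv.swap i j))) _ _
      (fun x => rfl)

end signed

end Pool.Agent.W130.RC
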