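import Pool.Agent.W130.RC.Good

/-!
# Uniform averages over symmetric groups are good operators
-/

set_option autoImplicit false

open Polynomial Matrix Equiv

namespace Pool.Agent.W130.RC

variable {ι N α : Type*} [DecidableEq ι] [Fintype N] [DecidableEq N] [DecidableEq α] [Fintype α]

/-- permutations which fix everything outside `s` -/
def Gs (s : Finset α) : Finset (Perm α) := Finset.univ.filter (fun σ => ∀ x, x ∉ s → σ x = x)

lemma mem_Gs {s : Finset α} {σ : Perm α} : σ ∈ Gs s ↔ ∀ x, x ∉ s → σ x = x := by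
  simp [Gs]

lemma one_mem_Gs (s : Finset α) : (1 : Perm α) ∈ Gs s := mem_Gs.2 (fun _ _ => rfl)

lemma mul_mem_Gs {s : Finset α} {σ τ : Perm α} (h1 : σ ∈ Gs s) (h2 : τ ∈ Gs s) :
    σ * τ ∈ Gs s := by
  rw [mem_Gs] at *
  intro x hx
  rw [Perm.mul_apply, h2 x hx, h1 x hx]

lemma inv_mem_Gs {s : Finset α} {σ : Perm α} (h1 : σ ∈ Gs s) : σ⁻¹ ∈ Gs s := by
  rw [mem_Gs] at *
  intro x hx
  rw [Perm.inv_eq_iff_eq, h1 x hx]

lemma swap_mem_Gs {s : Finset α} {a b : α} (ha : a ∈ s) (hb : b ∈ s) : swap a b ∈ Gs s := by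
  rw [mem_Gs]
  intro x hx
  apply swap_apply_of_ne_of_ne
  · rintro rfl; exact hx ha
  · rintro rfl; exact hx hb

lemma Gs_mono {s t : Finset α} (h : s ⊆ t) : Gs s ⊆ Gs t := by
  intro σ hσ
  rw [mem_Gs] at *
  intro x hx
  exact hσ x (fun hx' => hx (h hx'))

lemma apply_mem_of_Gs {s : Finset α} {σ : Perm α} (h : σ ∈ Gs s) {x : α} (hx : x ∈ s) :
    σ x ∈ s := by
  by_contra hc
  have h1 := (mem_Gs.1 h) _ hc
  have h2 : σ x = x := σ.injective h1
  rw [h2] at hc
  exact hc hx

lemma cancel_one {t : Perm α} (ht : t * t = 1) (u h : Perm α) :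
    u * t * (t * u⁻¹ * h) = h := by
  calc u * t * (t * u⁻¹ * h) = u * (t * t) * u⁻¹ * h := by group
    _ = h := by rw [ht]; group

lemma sum_mul_right {E : Type*} [AddCommMonoid E] (s : Finset α) (σ : Perm α) (hσ : σ ∈ Gs s)
    (H : Perm α → E) : ∑ σ' ∈ Gs s, H (σ' * σ) = ∑ σ' ∈ Gs s, H σ' := by
  apply Finset.sum_bij (fun σ' _ => σ' * σ)
  · intro a ha; exact mul_mem_Gs ha hσ
  · intro a _ b _ h; exact mul_right_cancel h
  · intro b hb; exact ⟨b * σ⁻¹, mul_mem_Gs hb (inv_mem_Gs hσ), by simp⟩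
  · intro a _; rfl

lemma double_sum_one {E : Type*} [AddCommMonoid E] (s : Finset α) (H : Perm α → E) :
    ∑ σ ∈ Gs s, ∑ σ' ∈ Gs s, H (σ' * σ) = (Gs s).card • ∑ σ ∈ Gs s, H σ := by
  rw [Finset.sum_congr rfl (fun σ hσ => sum_mul_right s σ hσ H), Finset.sum_const]

lemma double_sum_two {E : Type*} [AddCommMonoid E] (s : Finset α) (a b : α) (ha : a ∈ s)
    (hb : b ∉ s) (H : Perm α → E) :
    ∑ σ ∈ Gs s, ∑ σ' ∈ Gs s, H (σ' * swap a b * σ)
      = ((Gs s).filter (fun ν => ν a = a)).card • ∑ σ ∈ Gs (insert b s) \ Gs s, H σ := by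
  have hab : a ≠ b := by rintro rfl; exact hb ha
  rw [← Finset.sum_product']
  have hmaps : ∀ x ∈ Gs s ×ˢ Gs s, x.2 * swap a b * x.1 ∈ Gs (insert b s) \ Gs s := by
    rintro ⟨σ, σ'⟩ hx
    rw [Finset.mem_product] at hx
    obtain ⟨h1, h2⟩ := hx
    simp only at h1 h2
    rw [Finset.mem_sdiff]
    constructor
    · apply mul_mem_Gs
      · apply mul_mem_Gs (Gs_mono (Finset.subset_insert _ _) h2)
        exact swap_mem_Gs (Finset.mem_insert_of_mem ha) (Finset.mem_insert_self _ _)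
      · exact Gs_mono (Finset.subset_insert _ _) h1
    · intro hc
      have e1 := (mem_Gs.1 hc) b hb
      rw [Perm.mul_apply, Perm.mul_apply, (mem_Gs.1 h1) b hb, swap_apply_right] at e1
      have e2 := apply_mem_of_Gs h2 ha
      rw [e1] at e2
      exact hb e2
  rw [← Finset.sum_fiberwise_of_maps_to hmaps, Finset.smul_sum]
  apply Finset.sum_congr rfl
  intro h hh
  rw [Finset.mem_sdiff] at hh
  obtain ⟨hi, hn⟩ := hh
  have hhb : h b ≠ b := by
    intro hc
    apply hn
    rw [mem_Gs]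
    intro x hx
    by_cases hxb : x = b
    · rw [hxb, hc]
    · exact (mem_Gs.1 hi) x (by simp [hx, hxb])
  have hhs : h b ∈ s := by
    have := apply_mem_of_Gs hi (Finset.mem_insert_self b s)
    rw [Finset.mem_insert] at this
    exact this.resolve_left hhb
  have hcard : ((Gs s ×ˢ Gs s).filter (fun x => x.2 * swap a b * x.1 = h)).card
      = ((Gs s).filter (fun ν => ν a = a)).card := by
    symm
    apply Finset.card_bij
      (fun ν _ => (swap a b * (swap a (h b) * ν)⁻¹ * h, swap a (h b) * ν))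
    · intro ν hν
      rw [Finset.mem_filter] at hν
      obtain ⟨hν1, hν2⟩ := hν
      have hσ' : swap a (h b) * ν ∈ Gs s := mul_mem_Gs (swap_mem_Gs ha hhs) hν1
      have hσa : (swap a (h b) * ν) a = h b := by
        rw [Perm.mul_apply, hν2, swap_apply_left]
      rw [Finset.mem_filter, Finset.mem_product]
      refine ⟨⟨?_, hσ'⟩, ?_⟩
      · simp only
        rw [mem_Gs]
        intro x hx
        by_cases hxb : x = b
        · rw [hxb, Perm.mul_apply, Perm.mul_apply]
          have : (swap a (h b) * ν)⁻¹ (h b) = a := by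
            rw [Perm.inv_eq_iff_eq]; exact hσa.symm
          rw [this, swap_apply_left]
        · rw [Perm.mul_apply, Perm.mul_apply, (mem_Gs.1 hi) x (by simp [hx, hxb]),
            (mem_Gs.1 (inv_mem_Gs hσ')) x hx]
          apply swap_apply_of_ne_of_ne _ hxb
          rintro rfl; exact hx ha
      · exact cancel_one (Equiv.swap_mul_self a b) _ _
    · intro ν _ ν' _ he
      have := congrArg Prod.snd he
      exact mul_left_cancel this
    · rintro ⟨σ, σ'⟩ hx
      rw [Finset.mem_filter, Finset.mem_product] at hx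
      obtain ⟨⟨h1, h2⟩, h3⟩ := hx
      simp only at h1 h2 h3
      have e1 : h b = σ' a := by
        rw [← h3, Perm.mul_apply, Perm.mul_apply, (mem_Gs.1 h1) b hb, swap_apply_right]
      refine ⟨swap a (h b) * σ', ?_, ?_⟩
      · rw [Finset.mem_filter]
        refine ⟨mul_mem_Gs (swap_mem_Gs ha hhs) h2, ?_⟩
        rw [Perm.mul_apply, ← e1, swap_apply_right]
      · rw [← mul_assoc (swap a (h b)) (swap a (h b)), Equiv.swap_mul_self, one_mul]
        congr 1
        rw [← h3]
        rw [mul_assoc, mul_assoc, ← mul_assoc σ'⁻¹ σ', inv_mul_cancel, one_mul, ← mul_assoc,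
          Equiv.swap_mul_self, one_mul]
  rw [← hcard, ← Finset.sum_const]
  apply Finset.sum_congr rfl
  intro x hx
  rw [Finset.mem_filter] at hx
  rw [hx.2]

lemma card_Gs_pos (s : Finset α) : 0 < (Gs s).card := Finset.card_pos.2 ⟨1, one_mem_Gs s⟩

/-- average over the permutations supported on `s` -/
noncomputable def avgS (𝓐 : Act ι N α) (i : ι) (s : Finset α)
    (F : (ι → Matrix N N ℝ) → ℝ[X]) (A : ι → Matrix N N ℝ) : ℝ[X] :=
  C (((Gs s).card : ℝ)⁻¹) * ∑ σ ∈ Gs s, F (upd i (𝓐.ρ i σ) A)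

lemma avgS_insert (𝓐 : Act ι N α) (i : ι) (s : Finset α) (a b : α) (ha : a ∈ s) (hb : b ∉ s) :
    ∃ p : ℝ, 0 ≤ p ∧ p ≤ 1 ∧ ∀ F : (ι → Matrix N N ℝ) → ℝ[X],
      avgS 𝓐 i (insert b s) F = avgS 𝓐 i s ((fun G A => C (1 - p) * G A +
        C p * G (upd i (𝓐.ρ i (swap a b)) A)) (avgS 𝓐 i s F)) := by
  set m : ℝ := ((Gs s).card : ℝ) with hm
  set m' : ℝ := ((Gs (insert b s)).card : ℝ) with hm'
  set c : ℝ := (((Gs s).filter (fun ν => ν a = a)).card : ℝ) with hc
  have hm0 : 0 < m := by rw [hm]; exact_mod_cast card_Gs_pos s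
  have hm'0 : 0 < m' := by rw [hm']; exact_mod_cast card_Gs_pos _
  have hsub : Gs s ⊆ Gs (insert b s) := Gs_mono (Finset.subset_insert _ _)
  have hdiff : ((Gs (insert b s) \ Gs s).card : ℝ) = m' - m := by
    rw [Finset.card_sdiff_of_subset hsub, Nat.cast_sub (Finset.card_le_card hsub)]
  have hpos : 0 < m' - m := by
    rw [← hdiff]
    have : swap a b ∈ Gs (insert b s) \ Gs s := by
      rw [Finset.mem_sdiff]
      refine ⟨swap_mem_Gs (Finset.mem_insert_of_mem ha) (Finset.mem_insert_self _ _), ?_⟩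
      intro h
      have := (mem_Gs.1 h) b hb
      rw [swap_apply_right] at this
      exact hb (this ▸ ha)
    exact_mod_cast Finset.card_pos.2 ⟨_, this⟩
  have hcount : m * m = c * (m' - m) := by
    have h1 := double_sum_two s a b ha hb (fun _ => (1 : ℝ))
    simp only [Finset.sum_const, nsmul_eq_mul, mul_one] at h1
    rw [hdiff] at h1
    exact h1
  refine ⟨(m' - m) / m', by positivity, ?_, ?_⟩
  · rw [div_le_one hm'0]; linarith
  intro F
  funext A
  set H : Perm α → ℝ[X] := fun σ => F (upd i (𝓐.ρ i σ) A) with hH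
  have e1 : 1 - (m' - m) / m' = m / m' := by field_simp; ring
  have key : avgS 𝓐 i s ((fun G A => C (1 - (m' - m) / m') * G A +
        C ((m' - m) / m') * G (upd i (𝓐.ρ i (swap a b)) A)) (avgS 𝓐 i s F)) A
      = C (m⁻¹ * m⁻¹ * (m / m')) * (∑ σ ∈ Gs s, ∑ σ' ∈ Gs s, H (σ' * σ))
        + C (m⁻¹ * m⁻¹ * ((m' - m) / m')) *
          (∑ σ ∈ Gs s, ∑ σ' ∈ Gs s, H (σ' * swap a b * σ)) := by
    simp only [avgS, upd_upd, ← map_mul, ← hm, e1]
    rw [Finset.mul_sum, Finset.mul_sum, Finset.mul_sum, ← Finset.sum_add_distrib]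
    apply Finset.sum_congr rfl
    intro σ _
    simp only [hH, map_mul, C_mul, mul_assoc]
    ring
  rw [key, double_sum_one, double_sum_two s a b ha hb]
  have hsplit : ∑ σ ∈ Gs (insert b s), H σ
      = ∑ σ ∈ Gs (insert b s) \ Gs s, H σ + ∑ σ ∈ Gs s, H σ := (Finset.sum_sdiff hsub).symm
  show C (m'⁻¹) * ∑ σ ∈ Gs (insert b s), H σ = _
  rw [hsplit]
  simp only [nsmul_eq_mul]
  have hn1 : ((Gs s).card : ℝ[X]) = C m := by rw [hm]; simp
  have hn2 : (((Gs s).filter (fun ν => ν a = a)).card : ℝ[X]) = C c := by rw [hc]; simp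
  rw [hn1, hn2, ← mul_assoc, ← mul_assoc, ← C_mul, ← C_mul]
  have f1 : m⁻¹ * m⁻¹ * (m / m') * m = m'⁻¹ := by field_simp
  have f2 : m⁻¹ * m⁻¹ * ((m' - m) / m') * c = m'⁻¹ := by
    have : m⁻¹ * m⁻¹ * ((m' - m) / m') * c = (c * (m' - m)) / (m * m) * m'⁻¹ := by
      field_simp
    rw [this, ← hcount, div_self (by positivity), one_mul]
  rw [f1, f2]
  ring

lemma good_avgS (𝓐 : Act ι N α) (i : ι) (a : α) (t : Finset α) :
    GoodOp 𝓐 (avgS 𝓐 i (insert a t)) := by
  induction t using Finset.induction_on with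
  | empty =>
    have : avgS 𝓐 i (insert a ∅) = fun F => F := by
      funext F A
      have h1 : Gs ({a} : Finset α) = {1} := by
        ext σ
        rw [mem_Gs, Finset.mem_singleton]
        constructor
        · intro h
          ext x
          by_cases hx : x = a
          · subst hx
            by_contra hc
            have h2 := h (σ x) (by simpa using hc)
            exact hc (σ.injective h2)
          · exact h x (by simpa using hx)
        · rintro rfl; intro x _; rfl
      simp [avgS, h1, upd_one]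
    rw [this]
    exact GoodOp.id 𝓐
  | insert b t hb ih =>
    by_cases hba : b ∈ insert a t
    · have : insert a (insert b t) = insert a t := by
        rw [Finset.insert_comm, Finset.insert_eq_of_mem hba]
      rw [this]; exact ih
    · have hab : a ≠ b := by
        rintro rfl; exact hba (Finset.mem_insert_self _ _)
      obtain ⟨p, hp0, hp1, hF⟩ := avgS_insert 𝓐 i (insert a t) a b (Finset.mem_insert_self _ _) hba
      have e : avgS 𝓐 i (insert a (insert b t)) = fun F => avgS 𝓐 i (insert a t)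
          ((fun G A => C (1 - p) * G A + C p * G (upd i (𝓐.ρ i (swap a b)) A))
            (avgS 𝓐 i (insert a t) F)) := by
        funext F
        rw [Finset.insert_comm, hF F]
      rw [e]
      exact ih.comp ((GoodOp.mix 𝓐 i a b hab p hp0 hp1).comp ih)

/-- the uniform average at one index -/
noncomputable def avgI (𝓐 : Act ι N α) (i : ι)
    (F : (ι → Matrix N N ℝ) → ℝ[X]) (A : ι → Matrix N N ℝ) : ℝ[X] :=
  C ((Fintype.card (Perm α) : ℝ)⁻¹) * ∑ σ : Perm α, F (upd i (𝓐.ρ i σ) A)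

lemma good_avgI (𝓐 : Act ι N α) (i : ι) [Nonempty α] : GoodOp 𝓐 (avgI 𝓐 i) := by
  obtain ⟨a⟩ := ‹Nonempty α›
  have h := good_avgS 𝓐 i a Finset.univ
  have h1 : Gs (insert a (Finset.univ : Finset α)) = Finset.univ := by
    ext σ; simp [mem_Gs]
  have h2 : avgS 𝓐 i (insert a (Finset.univ : Finset α)) = avgI 𝓐 i := by
    funext F A
    unfold avgS avgI
    rw [h1]; rfl
  rwa [h2] at h

/-- iterated averages over a list of indices -/
noncomputable def avgL (𝓐 : Act ι N α) : List ι → ((ι → Matrix N N ℝ) → ℝ[X]) →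
    ((ι → Matrix N N ℝ) → ℝ[X])
  | [] => fun F => F
  | i :: L => fun F => avgI 𝓐 i (avgL 𝓐 L F)

lemma good_avgL (𝓐 : Act ι N α) [Nonempty α] (L : List ι) : GoodOp 𝓐 (avgL 𝓐 L) := by
  induction L with
  | nil => exact GoodOp.id 𝓐
  | cons i L ih => exact (good_avgI 𝓐 i).comp ih

end Pool.Agent.W130.RC
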