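import Pool.Agent.W130.RC.Match

/-!
# Vertex recursion for the matching expansion
-/

set_option autoImplicit false

open Matrix

namespace Pool.Agent.W130.RC

variable {N : Type*} [Fintype N] [DecidableEq N]

/-- contribution of one edge to the vertex recursion -/
noncomputable def ctr (S : Finset N) (v : N) (f : Finset N → ℝ) (e : N × N) : ℝ :=
  (if e.1 = v ∧ e.2 ∉ insert v S then f (insert e.2 (insert v S)) else 0)
    + (if e.2 = v ∧ e.1 ∉ insert v S then f (insert e.1 (insert v S)) else 0)

lemma list_sum_map_sub {A : Type*} (L : List A) (f g : A → ℝ) :
    (L.map (fun e => f e - g e)).sum = (L.map f).sum - (L.map g).sum := by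
  induction L with
  | nil => simp
  | cons e L ih => simp only [List.map_cons, List.sum_cons, ih]; ring

lemma det_Rr_scalar (x : ℝ) (S : Finset N) :
    (Rr S (x • (1 : Matrix N N ℝ))).det = x ^ (Sᶜ).card := by
  have h : Rr S (x • (1 : Matrix N N ℝ)) = Matrix.diagonal (fun i => if i ∈ S then 1 else x) := by
    ext i j
    simp only [Rr_apply, Matrix.smul_apply, Matrix.one_apply, Matrix.diagonal_apply, smul_eq_mul]
    by_cases hi : i ∈ S <;> by_cases hij : i = j <;> simp [hi, hij]
  rw [h, Matrix.det_diagonal, Finset.prod_ite, Finset.prod_const_one, Finset.prod_const, one_mul]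
  congr 1
  congr 1
  ext i; simp

omit [Fintype N] in
lemma ctr_congr (S : Finset N) (v : N) (f f' : Finset N → ℝ) (e : N × N)
    (h : ∀ T, v ∈ T → S ⊆ T → f T = f' T) : ctr S v f e = ctr S v f' e := by
  unfold ctr
  congr 1
  · split_ifs with hc
    · apply h
      · simp
      · intro y hy; simp [hy]
    · rfl
  · split_ifs with hc
    · apply h
      · simp
      · intro y hy; simp [hy]
    · rfl

theorem vertex_rec (x : ℝ) (L : List (N × N)) (hL : ∀ e ∈ L, e.1 ≠ e.2) :
    ∀ (S : Finset N) (v : N), v ∉ S →
      mu (x • (1 : Matrix N N ℝ)) L S = x * mu (x • (1 : Matrix N N ℝ)) L (insert v S)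
        - (L.map (ctr S v (mu (x • (1 : Matrix N N ℝ)) L))).sum := by
  induction L with
  | nil =>
    intro S v hv
    simp only [mu, List.map_nil, List.sum_nil, sub_zero]
    rw [det_Rr_scalar, det_Rr_scalar, ← pow_succ']
    congr 1
    rw [Finset.compl_insert, Finset.card_erase_of_mem (Finset.mem_compl.2 hv)]
    have : 0 < (Sᶜ).card := Finset.card_pos.2 ⟨v, Finset.mem_compl.2 hv⟩
    omega
  | cons e L ih =>
    intro S v hv
    obtain ⟨a, b⟩ := e
    have hab : a ≠ b := hL (a, b) List.mem_cons_self
    have ih' := ih (fun e he => hL e (List.mem_cons_of_mem _ he))
    set f' : Finset N → ℝ := mu (x • (1 : Matrix N N ℝ)) L with hf'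
    have hmu : ∀ T, mu (x • (1 : Matrix N N ℝ)) ((a, b) :: L) T
        = f' T - if a ∉ T ∧ b ∉ T then f' (insert a (insert b T)) else 0 := by
      intro T; simp only [mu, hf']
    set f : Finset N → ℝ := mu (x • (1 : Matrix N N ℝ)) ((a, b) :: L) with hf
    rw [List.map_cons, List.sum_cons]
    by_cases hva : v = a
    · subst hva
      have hfv : ∀ T, v ∈ T → f T = f' T := by
        intro T hT
        rw [hmu T, if_neg (fun h => h.1 hT), sub_zero]
      have h1 : (L.map (ctr S v f)).sum = (L.map (ctr S v f')).sum := by
        congr 1
        apply List.map_congr_left
        intro e _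
        exact ctr_congr S v f f' e (fun T hT _ => hfv T hT)
      rw [h1, hmu S, ih' S v hv, hfv _ (Finset.mem_insert_self _ _)]
      have h2 : ctr S v f (v, b) = if v ∉ S ∧ b ∉ S then f' (insert v (insert b S)) else 0 := by
        unfold ctr
        simp only [true_and]
        rw [if_neg (show ¬ (b = v ∧ v ∉ insert v S) from fun h => hab h.1.symm), add_zero]
        by_cases hb : b ∈ S
        · rw [if_neg (fun h => h (Finset.mem_insert_of_mem hb)), if_neg (fun h => h.2 hb)]
        · rw [if_pos (by simp [hb, Ne.symm hab]), if_pos ⟨hv, hb⟩, hfv _ (by simp),
            Finset.insert_comm]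
      rw [h2]; ring
    by_cases hvb : v = b
    · subst hvb
      have hfv : ∀ T, v ∈ T → f T = f' T := by
        intro T hT
        rw [hmu T, if_neg (fun h => h.2 hT), sub_zero]
      have h1 : (L.map (ctr S v f)).sum = (L.map (ctr S v f')).sum := by
        congr 1
        apply List.map_congr_left
        intro e _
        exact ctr_congr S v f f' e (fun T hT _ => hfv T hT)
      rw [h1, hmu S, ih' S v hv, hfv _ (Finset.mem_insert_self _ _)]
      have h2 : ctr S v f (a, v) = if a ∉ S ∧ v ∉ S then f' (insert a (insert v S)) else 0 := by
        unfold ctr
        simp only [true_and]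
        rw [if_neg (show ¬ (a = v ∧ v ∉ insert v S) from fun h => hab h.1), zero_add]
        by_cases hb : a ∈ S
        · rw [if_neg (fun h => h (Finset.mem_insert_of_mem hb)), if_neg (fun h => h.1 hb)]
        · rw [if_pos (by simp [hb, hab]), if_pos ⟨hb, hv⟩, hfv _ (by simp)]
      rw [h2]; ring
    · have hctr0 : ctr S v f (a, b) = 0 := by
        unfold ctr
        rw [if_neg (fun h => hva h.1.symm), if_neg (fun h => hvb h.1.symm), add_zero]
      rw [hctr0, zero_add, hmu S, hmu (insert v S), ih' S v hv]
      by_cases hs : a ∉ S ∧ b ∉ S
      · have hs' : a ∉ insert v S ∧ b ∉ insert v S := by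
          simp [hs.1, hs.2, Ne.symm hva, Ne.symm hvb]
        rw [if_pos hs, if_pos hs']
        have hv' : v ∉ insert a (insert b S) := by simp [hva, hvb, hv]
        rw [ih' _ v hv']
        have hsum : (L.map (ctr S v f)).sum = (L.map (ctr S v f')).sum
            - (L.map (ctr (insert a (insert b S)) v f')).sum := by
          clear ih ih' hL
          have hterm : ∀ e : N × N, ctr S v f e = ctr S v f' e
              - ctr (insert a (insert b S)) v f' e := by
            intro e
            obtain ⟨c, d⟩ := e
            have hone : ∀ w : N, (w ∉ insert v S) → f (insert w (insert v S))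
                = f' (insert w (insert v S)) - if w ∉ insert v (insert a (insert b S)) then
                  f' (insert w (insert v (insert a (insert b S)))) else 0 := by
              intro w hw
              rw [hmu]
              congr 1
              by_cases hwa : w = a
              · subst hwa
                rw [if_neg (by simp), if_neg (by simp)]
              · by_cases hwb : w = b
                · subst hwb
                  rw [if_neg (by simp), if_neg (by simp)]
                · simp only [Finset.mem_insert, not_or] at hw
                  rw [if_pos, if_pos]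
                  · congr 1
                    ext z; simp only [Finset.mem_insert]; tauto
                  · simp [hw.1, hw.2, hwa, hwb]
                  · simp [Ne.symm hwa, Ne.symm hwb, Ne.symm hva, Ne.symm hvb, hs.1, hs.2]
            have hsub : ∀ w : N, w ∉ insert v (insert a (insert b S)) → w ∉ insert v S := by
              intro w hw h
              apply hw
              simp only [Finset.mem_insert] at h ⊢
              tauto
            unfold ctr
            simp only
            have t1 : (if c = v ∧ d ∉ insert v S then f (insert d (insert v S)) else 0)
                = (if c = v ∧ d ∉ insert v S then f' (insert d (insert v S)) else 0)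
                  - (if c = v ∧ d ∉ insert v (insert a (insert b S)) then
                    f' (insert d (insert v (insert a (insert b S)))) else 0) := by
              by_cases h1 : c = v ∧ d ∉ insert v S
              · rw [if_pos h1, if_pos h1, hone d h1.2]
                congr 1
                by_cases h2 : d ∉ insert v (insert a (insert b S))
                · rw [if_pos h2, if_pos ⟨h1.1, h2⟩]
                · rw [if_neg h2, if_neg (fun h => h2 h.2)]
              · rw [if_neg h1, if_neg h1, if_neg (fun h => h1 ⟨h.1, hsub d h.2⟩), sub_zero]
            have t2 : (if d = v ∧ c ∉ insert v S then f (insert c (insert v S)) else 0)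
                = (if d = v ∧ c ∉ insert v S then f' (insert c (insert v S)) else 0)
                  - (if d = v ∧ c ∉ insert v (insert a (insert b S)) then
                    f' (insert c (insert v (insert a (insert b S)))) else 0) := by
              by_cases h1 : d = v ∧ c ∉ insert v S
              · rw [if_pos h1, if_pos h1, hone c h1.2]
                congr 1
                by_cases h2 : c ∉ insert v (insert a (insert b S))
                · rw [if_pos h2, if_pos ⟨h1.1, h2⟩]
                · rw [if_neg h2, if_neg (fun h => h2 h.2)]
              · rw [if_neg h1, if_neg h1, if_neg (fun h => h1 ⟨h.1, hsub c h.2⟩), sub_zero]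
            rw [t1, t2]; ring
          have hfun : ctr S v f = fun e => ctr S v f' e
              - ctr (insert a (insert b S)) v f' e := funext hterm
          rw [hfun]
          exact list_sum_map_sub L _ _
        rw [hsum]
        have hset : insert v (insert a (insert b S)) = insert a (insert b (insert v S)) := by
          ext z; simp only [Finset.mem_insert]; tauto
        rw [hset]
        ring
      · have hs' : ¬ (a ∉ insert v S ∧ b ∉ insert v S) := by
          intro h
          apply hs
          simp only [Finset.mem_insert, not_or] at h
          exact ⟨h.1.2, h.2.2⟩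
        rw [if_neg hs, if_neg hs']
        have h1 : (L.map (ctr S v f)).sum = (L.map (ctr S v f')).sum := by
          congr 1
          apply List.map_congr_left
          intro e _
          apply ctr_congr S v f f' e
          intro T _ hT
          rw [hmu T, if_neg, sub_zero]
          intro h
          apply hs
          exact ⟨fun h' => h.1 (hT h'), fun h' => h.2 (hT h')⟩
        rw [h1]; ring

end Pool.Agent.W130.RC
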